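import Mathlib

/-!
Auxiliary facts on derivatives of piecewise smooth and locally Lipschitz functions.
-/

set_option autoImplicit false
set_option linter.unusedSectionVars false
set_option linter.deprecated false

noncomputable section

open Filter Topology MeasureTheory Set
open scoped NNReal

namespace Pool.Agent.Helper13.FD

section pieces

variable {X Y : Type*} [NormedAddCommGroup X] [NormedSpace ℝ X]
  [NormedAddCommGroup Y] [NormedSpace ℝ Y]

/-- If a differentiable function agrees near `x`, at each point, with one of finitely many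
differentiable functions, then its derivative at `x` is the derivative of one of them. -/
lemma fderiv_mem_pieces {ι : Type*} [Finite ι] {f : X → Y} {x : X}
    (hf : DifferentiableAt ℝ f x) (g : ι → X → Y) (hg : ∀ i, DifferentiableAt ℝ (g i) x)
    (h : ∀ᶠ y in 𝓝 x, ∃ i, f y = g i y) :
    ∃ i, f x = g i x ∧ fderiv ℝ f x = fderiv ℝ (g i) x := by
  classical
  have key : ∀ v : X, ∃ i, f x = g i x ∧ fderiv ℝ f x v = fderiv ℝ (g i) x v := by
    intro v
    have hc : Tendsto (fun n : ℕ => ‖((n : ℝ) + 1)‖) atTop atTop := by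
      have h1 : Tendsto (fun n : ℕ => ((n : ℝ) + 1)) atTop atTop :=
        tendsto_atTop_add_const_right _ _ tendsto_natCast_atTop_atTop
      exact tendsto_norm_atTop_atTop.comp h1
    have hy : Tendsto (fun n : ℕ => x + ((n : ℝ) + 1)⁻¹ • v) atTop (𝓝 x) := by
      have h1 : Tendsto (fun n : ℕ => ((n : ℝ) + 1)⁻¹) atTop (𝓝 0) := by
        simpa using tendsto_one_div_add_atTop_nhds_zero_nat (𝕜 := ℝ)
      have h2 := (h1.smul_const v).const_add x
      simpa using h2
    have hev := hy.eventually h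
    have hfr : ∃ i, ∃ᶠ n : ℕ in atTop, f (x + ((n : ℝ) + 1)⁻¹ • v) = g i (x + ((n : ℝ) + 1)⁻¹ • v) := by
      by_contra hcon
      push Not at hcon
      have : ∀ᶠ n : ℕ in atTop, ∀ i, ¬ f (x + ((n : ℝ) + 1)⁻¹ • v) = g i (x + ((n : ℝ) + 1)⁻¹ • v) := by
        rw [eventually_all]
        intro i
        exact hcon i
      obtain ⟨n, hn1, hn2⟩ := (hev.and this).exists
      obtain ⟨i, hi⟩ := hn1
      exact hn2 i hi
    obtain ⟨i, hi⟩ := hfr
    have e1 : f x = g i x := by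
      refine tendsto_nhds_unique_of_frequently_eq (hf.continuousAt.tendsto.comp hy)
        ((hg i).continuousAt.tendsto.comp hy) ?_
      exact hi.mono fun n hn => hn
    refine ⟨i, e1, ?_⟩
    have l1 := hf.hasFDerivAt.lim v hc
    have l2 := (hg i).hasFDerivAt.lim v hc
    refine tendsto_nhds_unique_of_frequently_eq l1 l2 ?_
    refine hi.mono fun n hn => ?_
    rw [hn, e1]
  -- subspaces
  let I := {i : ι // f x = g i x}
  have hcov : ⋃ i : I, ((LinearMap.ker ((fderiv ℝ f x - fderiv ℝ (g i.1) x).toLinearMap) :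
      Submodule ℝ X) : Set X) = Set.univ := by
    rw [Set.eq_univ_iff_forall]
    intro v
    obtain ⟨i, h1, h2⟩ := key v
    rw [Set.mem_iUnion]
    refine ⟨⟨i, h1⟩, ?_⟩
    show v ∈ LinearMap.ker ((fderiv ℝ f x - fderiv ℝ (g i) x).toLinearMap)
    rw [LinearMap.mem_ker]
    show fderiv ℝ f x v - fderiv ℝ (g i) x v = 0
    rw [h2, sub_self]
  obtain ⟨i, hi⟩ := Subspace.exists_eq_top_of_iUnion_eq_univ hcov
  refine ⟨i.1, i.2, ?_⟩
  ext v
  have : v ∈ LinearMap.ker ((fderiv ℝ f x - fderiv ℝ (g i.1) x).toLinearMap) := by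
    rw [hi]; trivial
  rw [LinearMap.mem_ker] at this
  exact sub_eq_zero.mp this

end pieces

section lip

variable {X Y Z : Type*} [NormedAddCommGroup X] [NormedSpace ℝ X]
  [NormedAddCommGroup Y] [NormedSpace ℝ Y] [NormedAddCommGroup Z] [NormedSpace ℝ Z]

/-- norm of the derivative of a composition with a Lipschitz map -/
lemma norm_fderiv_comp_le {g : Y → Z} {h : X → Y} {x : X} {s : Set Y} {K : ℝ} (hK : 0 ≤ K)
    (hg : ∀ p ∈ s, ∀ q ∈ s, ‖g p - g q‖ ≤ K * ‖p - q‖) (hs : ∀ᶠ y in 𝓝 x, h y ∈ s)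
    (hh : DifferentiableAt ℝ h x) {f : X → Z} (hf : f =ᶠ[𝓝 x] fun y => g (h y))
    (hgh : DifferentiableAt ℝ f x) :
    ‖fderiv ℝ f x‖ ≤ K * ‖fderiv ℝ h x‖ := by
  refine ContinuousLinearMap.opNorm_le_bound _ (mul_nonneg hK (norm_nonneg _)) fun v => ?_
  have hc : Tendsto (fun n : ℕ => ‖((n : ℝ) + 1)‖) atTop atTop := by
    have h1 : Tendsto (fun n : ℕ => ((n : ℝ) + 1)) atTop atTop :=
      tendsto_atTop_add_const_right _ _ tendsto_natCast_atTop_atTop
    exact tendsto_norm_atTop_atTop.comp h1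
  have hy : Tendsto (fun n : ℕ => x + ((n : ℝ) + 1)⁻¹ • v) atTop (𝓝 x) := by
    have h1 : Tendsto (fun n : ℕ => ((n : ℝ) + 1)⁻¹) atTop (𝓝 0) := by
      simpa using tendsto_one_div_add_atTop_nhds_zero_nat (𝕜 := ℝ)
    have h2 := (h1.smul_const v).const_add x
    simpa using h2
  have l1 := (hgh.hasFDerivAt.lim v hc).norm
  have l2 := (hh.hasFDerivAt.lim v hc).norm
  have l3 := l2.const_mul K
  have hfx : f x = g (h x) := hf.self_of_nhds
  have hle : ‖fderiv ℝ f x v‖ ≤ K * ‖fderiv ℝ h x v‖ := by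
    refine le_of_tendsto_of_tendsto l1 l3 ?_
    filter_upwards [hy.eventually hs, hy.eventually hf] with n hn1 hn2
    rw [hn2, hfx, norm_smul, norm_smul]
    have := hg _ hn1 _ hs.self_of_nhds
    have h0 := norm_nonneg ((n : ℝ) + 1)
    calc ‖(n : ℝ) + 1‖ * ‖g (h (x + ((n : ℝ) + 1)⁻¹ • v)) - g (h x)‖
        ≤ ‖(n : ℝ) + 1‖ * (K * ‖h (x + ((n : ℝ) + 1)⁻¹ • v) - h x‖) :=
          mul_le_mul_of_nonneg_left this h0
      _ = _ := by ring
  refine hle.trans ?_
  rw [mul_assoc]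
  exact mul_le_mul_of_nonneg_left ((fderiv ℝ h x).le_opNorm v) hK

/-- locally Lipschitz at a point -/
def LLip (f : X → Y) (x : X) : Prop := ∃ K : ℝ≥0, ∃ s ∈ 𝓝 x, LipschitzOnWith K f s

lemma LLip.continuousAt {f : X → Y} {x : X} (h : LLip f x) : ContinuousAt f x := by
  obtain ⟨K, s, hs, hf⟩ := h
  exact hf.continuousOn.continuousAt hs

lemma LLip.comp {g : Y → Z} {f : X → Y} {x : X} (hg : LLip g (f x)) (hf : LLip f x) :
    LLip (fun y => g (f y)) x := by
  have hc := hf.continuousAt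
  obtain ⟨K, s, hs, hK⟩ := hf
  obtain ⟨L, t, ht, hL⟩ := hg
  refine ⟨L * K, s ∩ f ⁻¹' t, inter_mem hs (hc ht), ?_⟩
  exact hL.comp (hK.mono inter_subset_left) fun y hy => hy.2

lemma LLip.congr {f g : X → Y} {x : X} (hf : LLip f x) (h : f =ᶠ[𝓝 x] g) : LLip g x := by
  obtain ⟨K, s, hs, hK⟩ := hf
  refine ⟨K, s ∩ {y | f y = g y}, inter_mem hs h, ?_⟩
  intro y hy z hz
  have h1 : f y = g y := hy.2
  have h2 : f z = g z := hz.2
  rw [← h1, ← h2]
  exact hK hy.1 hz.1

lemma LLip.prodMk {f : X → Y} {g : X → Z} {x : X} (hf : LLip f x) (hg : LLip g x) :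
    LLip (fun y => (f y, g y)) x := by
  obtain ⟨K, s, hs, hK⟩ := hf
  obtain ⟨L, t, ht, hL⟩ := hg
  exact ⟨max K L, s ∩ t, inter_mem hs ht,
    (hK.mono inter_subset_left).prodMk (hL.mono inter_subset_right)⟩

lemma _root_.HasStrictFDerivAt.lLip {f : X → Y} {f' : X →L[ℝ] Y} {x : X}
    (h : HasStrictFDerivAt f f' x) : LLip f x := by
  obtain ⟨K, s, hs, hK⟩ := h.exists_lipschitzOnWith
  exact ⟨K, s, hs, hK⟩

lemma _root_.ContDiffAt.lLip {f : X → Y} {x : X} (h : ContDiffAt ℝ 1 f x) : LLip f x :=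
  (h.hasStrictFDerivAt one_ne_zero).lLip

lemma lLip_const (c : Y) (x : X) : LLip (fun _ : X => c) x :=
  ⟨0, univ, univ_mem, LipschitzWith.lipschitzOnWith (LipschitzWith.const c)⟩

lemma lLip_of_bound {f : X → Y} {x : X} {K : ℝ} {s : Set X} (hs : s ∈ 𝓝 x) (hK : 0 ≤ K)
    (h : ∀ p ∈ s, ∀ q ∈ s, ‖f p - f q‖ ≤ K * ‖p - q‖) : LLip f x := by
  refine ⟨⟨K, hK⟩, s, hs, LipschitzOnWith.of_dist_le_mul ?_⟩
  intro p hp q hq
  rw [dist_eq_norm, dist_eq_norm]
  exact h p hp q hq

lemma LLip.smul {f : X → ℝ} {g : X → Y} {x : X} (hf : LLip f x) (hg : LLip g x) :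
    LLip (fun y => f y • g y) x := by
  have h : ContDiffAt ℝ 1 (fun p : ℝ × Y => p.1 • p.2) (f x, g x) :=
    (contDiff_fst.smul contDiff_snd).contDiffAt
  exact LLip.comp (f := fun y => (f y, g y)) (g := fun p : ℝ × Y => p.1 • p.2) h.lLip
    (hf.prodMk hg)

lemma LLip.add {f g : X → Y} {x : X} (hf : LLip f x) (hg : LLip g x) :
    LLip (fun y => f y + g y) x := by
  have h : ContDiffAt ℝ 1 (fun p : Y × Y => p.1 + p.2) (f x, g x) :=
    (contDiff_fst.add contDiff_snd).contDiffAt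
  exact LLip.comp (f := fun y => (f y, g y)) (g := fun p : Y × Y => p.1 + p.2) h.lLip
    (hf.prodMk hg)

lemma LLip.mul {f g : X → ℝ} {x : X} (hf : LLip f x) (hg : LLip g x) :
    LLip (fun y => f y * g y) x := hf.smul hg

lemma LLip.neg {f : X → Y} {x : X} (hf : LLip f x) : LLip (fun y => - f y) x := by
  have h : ContDiffAt ℝ 1 (fun p : Y => - p) (f x) := contDiff_neg.contDiffAt
  exact LLip.comp (f := f) (g := fun p : Y => - p) h.lLip hf

lemma LLip.sub {f g : X → Y} {x : X} (hf : LLip f x) (hg : LLip g x) :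
    LLip (fun y => f y - g y) x := by
  simpa [sub_eq_add_neg] using hf.add hg.neg

end lip

section rademacher

variable {X Y : Type*} [NormedAddCommGroup X] [NormedSpace ℝ X] [FiniteDimensional ℝ X]
  [MeasurableSpace X] [BorelSpace X] [NormedAddCommGroup Y] [NormedSpace ℝ Y]
  [FiniteDimensional ℝ Y] (μ : Measure X) [μ.IsAddHaarMeasure]

/-- Rademacher's theorem for functions locally Lipschitz at the points of a set -/
lemma ae_differentiableAt_of_lLip {f : X → Y} {U : Set X} (h : ∀ x ∈ U, LLip f x) :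
    ∀ᵐ x ∂μ, x ∈ U → DifferentiableAt ℝ f x := by
  have : SecondCountableTopology X := by
    have := FiniteDimensional.proper_real X
    infer_instance
  rw [ae_iff]
  apply measure_null_of_locally_null
  intro x hx
  simp only [mem_setOf_eq, Classical.not_imp] at hx
  obtain ⟨K, s, hs, hK⟩ := h x hx.1
  obtain ⟨t, hts, hto, hxt⟩ := mem_nhds_iff.mp hs
  have hR := (hK.mono hts).ae_differentiableWithinAt_of_mem (μ := μ)
  rw [ae_iff] at hR
  refine ⟨{y | ¬ (y ∈ U → DifferentiableAt ℝ f y)} ∩ t,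
    inter_mem_nhdsWithin _ (hto.mem_nhds hxt), ?_⟩
  refine measure_mono_null ?_ hR
  rintro y ⟨hy1, hy2⟩
  simp only [mem_setOf_eq, Classical.not_imp] at hy1 ⊢
  refine ⟨hy2, fun hcon => hy1.2 (hcon.differentiableAt (hto.mem_nhds hy2))⟩

end rademacher

end Pool.Agent.Helper13.FD
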