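import Mathlib

/-!
The triangular cosine `T` and sine `V` (period 4, `|T| + |V| = 1`).
-/

set_option autoImplicit false

noncomputable section

namespace Pool.Agent.Helper13.FD

/-- triangular cosine, period 4, `T x = 1 - |x|` on `[-2,2]` -/
def T (x : ℝ) : ℝ := 1 - |x - 4 * round (x / 4)|

/-- triangular sine -/
def V (x : ℝ) : ℝ := T (x - 1)

lemma exists_k (x : ℝ) : ∃ k : ℤ, |x - 4 * k| ≤ 2 ∧ T x = 1 - |x - 4 * k| := by
  refine ⟨round (x / 4), ?_, rfl⟩
  have h := abs_sub_round (x / 4)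
  have : x - 4 * (round (x / 4) : ℝ) = 4 * (x / 4 - round (x / 4)) := by ring
  rw [this, abs_mul]
  norm_num
  linarith

lemma T_of_mem {x : ℝ} (k : ℤ) (hk : |x - 4 * k| ≤ 2) : T x = 1 - |x - 4 * k| := by
  obtain ⟨z, hz, hT⟩ := exists_k x
  rw [hT]
  have key : |x - 4 * (z : ℝ)| = |x - 4 * (k : ℝ)| := by
    by_cases h : z = k
    · rw [h]
    · have h1 : (1 : ℝ) ≤ |(z : ℝ) - k| := by
        have : (1 : ℤ) ≤ |z - k| := Int.one_le_abs (sub_ne_zero.mpr h)
        exact_mod_cast this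
      have h2 : |(4 : ℝ) * ((z : ℝ) - k)| = 4 * |(z : ℝ) - k| := by
        rw [abs_mul]; norm_num
      have h3 : (4 : ℝ) * ((z : ℝ) - k) = (x - 4 * k) - (x - 4 * z) := by ring
      have h4 := abs_sub (x - 4 * (k : ℝ)) (x - 4 * z)
      rw [h3] at h2
      apply le_antisymm <;> linarith
  rw [key]

lemma T_local (x : ℝ) : ∃ k : ℤ, ∃ y : ℝ, x = y + 4 * k ∧ |y| ≤ 2 ∧ T x = 1 - |y| := by
  obtain ⟨k, hk, hT⟩ := exists_k x
  exact ⟨k, x - 4 * k, by ring, hk, hT⟩

lemma T_add_int (y : ℝ) (k : ℤ) (hy : |y| ≤ 2) : T (y + 4 * k) = 1 - |y| := by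
  have := T_of_mem (x := y + 4 * k) k (by simpa using hy)
  simpa using this

lemma V_add_int (y : ℝ) (k : ℤ) (hy : |y - 1| ≤ 2) : V (y + 4 * k) = 1 - |y - 1| := by
  have : y + 4 * (k : ℝ) - 1 = (y - 1) + 4 * k := by ring
  rw [V, this, T_add_int _ _ hy]

/-- the basic description of `(T, V)` -/
lemma TV_cases (x : ℝ) : ∃ k : ℤ, ∃ y : ℝ, x = y + 4 * k ∧
    ((-2 ≤ y ∧ y ≤ -1 ∧ T x = 1 + y ∧ V x = -2 - y) ∨
     (-1 ≤ y ∧ y ≤ 0 ∧ T x = 1 + y ∧ V x = y) ∨
     (0 ≤ y ∧ y ≤ 1 ∧ T x = 1 - y ∧ V x = y) ∨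
     (1 ≤ y ∧ y ≤ 2 ∧ T x = 1 - y ∧ V x = 2 - y)) := by
  obtain ⟨k, y, hx, hy, hT⟩ := T_local x
  refine ⟨k, y, hx, ?_⟩
  have hy' := abs_le.mp hy
  rcases le_total y 0 with h0 | h0
  · rw [abs_of_nonpos h0] at hT
    rcases le_total y (-1) with h1 | h1
    · left
      refine ⟨hy'.1, h1, by linarith, ?_⟩
      have : x = (y + 4) + 4 * ((k - 1 : ℤ) : ℝ) := by push_cast; linarith
      rw [this, V_add_int _ _ (by rw [abs_le]; constructor <;> linarith),
        abs_of_nonneg (by linarith)]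
      ring
    · right; left
      refine ⟨h1, h0, by linarith, ?_⟩
      rw [hx, V_add_int _ _ (by rw [abs_le]; constructor <;> linarith),
        abs_of_nonpos (by linarith)]
      ring
  · rw [abs_of_nonneg h0] at hT
    rcases le_total y 1 with h1 | h1
    · right; right; left
      refine ⟨h0, h1, by linarith, ?_⟩
      rw [hx, V_add_int _ _ (by rw [abs_le]; constructor <;> linarith),
        abs_of_nonpos (by linarith)]
      ring
    · right; right; right
      refine ⟨h1, hy'.2, by linarith, ?_⟩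
      rw [hx, V_add_int _ _ (by rw [abs_le]; constructor <;> linarith),
        abs_of_nonneg (by linarith)]
      ring

lemma abs_T_add_abs_V (x : ℝ) : |T x| + |V x| = 1 := by
  obtain ⟨k, y, _, h⟩ := TV_cases x
  rcases h with ⟨h1, h2, h3, h4⟩ | ⟨h1, h2, h3, h4⟩ | ⟨h1, h2, h3, h4⟩ | ⟨h1, h2, h3, h4⟩ <;>
    rw [h3, h4]
  · rw [abs_of_nonpos (by linarith), abs_of_nonpos (by linarith)]; ring
  · rw [abs_of_nonneg (by linarith), abs_of_nonpos (by linarith)]; ring
  · rw [abs_of_nonneg (by linarith), abs_of_nonneg (by linarith)]; ring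
  · rw [abs_of_nonpos (by linarith), abs_of_nonneg (by linarith)]; ring

lemma abs_T_le (x : ℝ) : |T x| ≤ 1 := by
  have := abs_T_add_abs_V x; have := abs_nonneg (V x); linarith

lemma abs_V_le (x : ℝ) : |V x| ≤ 1 := by
  have := abs_T_add_abs_V x; have := abs_nonneg (T x); linarith

lemma T_periodic (x : ℝ) (k : ℤ) : T (x + 4 * k) = T x := by
  obtain ⟨m, y, hx, hy, hT⟩ := T_local x
  rw [hT]
  have : x + 4 * (k : ℝ) = y + 4 * ((m + k : ℤ) : ℝ) := by push_cast; rw [hx]; ring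
  rw [this, T_add_int _ _ hy]

lemma V_periodic (x : ℝ) (k : ℤ) : V (x + 4 * k) = V x := by
  have : x + 4 * (k : ℝ) - 1 = (x - 1) + 4 * k := by ring
  rw [V, this, T_periodic, V]

lemma T_lip (x y : ℝ) : |T x - T y| ≤ |x - y| := by
  have key : ∀ a b : ℝ, T a - T b ≤ |a - b| := by
    intro a b
    obtain ⟨k, hk, hTa⟩ := exists_k a
    -- T b ≥ 1 - |b - 4k| always
    have hb : 1 - |b - 4 * (k : ℝ)| ≤ T b := by
      have h := round_le (b / 4) k
      have e1 : |b - 4 * (round (b / 4) : ℝ)| = 4 * |b / 4 - round (b / 4)| := by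
        rw [show b - 4 * (round (b / 4) : ℝ) = 4 * (b / 4 - round (b / 4)) by ring, abs_mul]
        norm_num
      have e2 : |b - 4 * (k : ℝ)| = 4 * |b / 4 - k| := by
        rw [show b - 4 * (k : ℝ) = 4 * (b / 4 - k) by ring, abs_mul]
        norm_num
      rw [T, e1, e2]
      linarith
    rw [hTa]
    have h3 : |b - 4 * (k : ℝ)| ≤ |a - 4 * k| + |a - b| := by
      have := abs_sub_abs_le_abs_sub (b - 4 * (k : ℝ)) (a - 4 * k)
      have e : b - 4 * (k : ℝ) - (a - 4 * k) = -(a - b) := by ring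
      rw [e, abs_neg] at this
      linarith
    linarith
  rw [abs_le]
  constructor
  · have := key y x
    rw [abs_sub_comm] at this
    linarith
  · exact key x y

lemma V_lip (x y : ℝ) : |V x - V y| ≤ |x - y| := by
  have := T_lip (x - 1) (y - 1)
  simpa [V] using this

lemma T_of_Icc {x : ℝ} (h0 : 0 ≤ x) (h2 : x ≤ 2) : T x = 1 - x := by
  have := T_add_int x 0 (by rw [abs_le]; constructor <;> linarith)
  simpa [abs_of_nonneg h0] using this

lemma V_of_Icc {x : ℝ} (h0 : 0 ≤ x) (h2 : x ≤ 2) : V x = 1 - |1 - x| := by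
  have := V_add_int x 0 (by rw [abs_le]; constructor <;> linarith)
  rw [abs_sub_comm] at this
  simpa using this

lemma T_neg (x : ℝ) : T (-x) = T x := by
  obtain ⟨k, y, hx, hy, hT⟩ := T_local x
  rw [hT]
  have : -x = -y + 4 * ((-k : ℤ) : ℝ) := by push_cast; rw [hx]; ring
  rw [this, T_add_int _ _ (by simpa using hy), abs_neg]

lemma T_add_two (x : ℝ) : T (x + 2) = - T x := by
  obtain ⟨k, y, hx, hy, hT⟩ := T_local x
  have hy' := abs_le.mp hy
  rw [hT]
  rcases le_total y 0 with h | h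
  · have : x + 2 = (y + 2) + 4 * (k : ℝ) := by rw [hx]; ring
    rw [this, T_add_int _ _ (by rw [abs_le]; constructor <;> linarith), abs_of_nonpos h,
      abs_of_nonneg (by linarith)]
    ring
  · have : x + 2 = (y - 2) + 4 * ((k + 1 : ℤ) : ℝ) := by push_cast; rw [hx]; ring
    rw [this, T_add_int _ _ (by rw [abs_le]; constructor <;> linarith), abs_of_nonneg h,
      abs_of_nonpos (by linarith)]
    ring

lemma V_add_two (x : ℝ) : V (x + 2) = - V x := by
  have : x + 2 - 1 = (x - 1) + 2 := by ring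
  rw [V, this, T_add_two, V]

lemma V_neg (x : ℝ) : V (-x) = - V x := by
  have h1 : V (-x) = T (x + 1) := by
    rw [V, ← T_neg]; congr 1; ring
  have h2 : T (x + 1) = - T (x - 1) := by
    rw [← T_add_two]; congr 1; ring
  rw [h1, h2, V]

/-- doubling -/
lemma T_two_mul (y : ℝ) : T (2 * y) = 2 * |T y| - 1 := by
  obtain ⟨k, z, hx, h⟩ := TV_cases y
  have e : ∀ c : ℝ, ∀ m : ℤ, 2 * y = c + 4 * ((2 * k + m : ℤ) : ℝ) ↔ 2 * z = c + 4 * m := by
    intro c m; push_cast; rw [hx]; constructor <;> intro h <;> linarith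
  rcases h with ⟨h1, h2, h3, h4⟩ | ⟨h1, h2, h3, h4⟩ | ⟨h1, h2, h3, h4⟩ | ⟨h1, h2, h3, h4⟩ <;>
    rw [h3]
  · have : 2 * y = (2 * z + 4) + 4 * ((2 * k + (-1) : ℤ) : ℝ) := by rw [e]; push_cast; ring
    rw [this, T_add_int _ _ (by rw [abs_le]; constructor <;> linarith),
      abs_of_nonneg (by linarith), abs_of_nonpos (by linarith)]
    ring
  · have : 2 * y = (2 * z) + 4 * ((2 * k + 0 : ℤ) : ℝ) := by rw [e]; push_cast; ring
    rw [this, T_add_int _ _ (by rw [abs_le]; constructor <;> linarith),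
      abs_of_nonpos (by linarith), abs_of_nonneg (by linarith)]
    ring
  · have : 2 * y = (2 * z) + 4 * ((2 * k + 0 : ℤ) : ℝ) := by rw [e]; push_cast; ring
    rw [this, T_add_int _ _ (by rw [abs_le]; constructor <;> linarith),
      abs_of_nonneg (by linarith), abs_of_nonneg (by linarith)]
    ring
  · have : 2 * y = (2 * z - 4) + 4 * ((2 * k + 1 : ℤ) : ℝ) := by rw [e]; push_cast; ring
    rw [this, T_add_int _ _ (by rw [abs_le]; constructor <;> linarith),
      abs_of_nonpos (by linarith), abs_of_nonpos (by linarith)]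
    ring

lemma V_two_mul (y : ℝ) : V (2 * y) = |T y + V y| - |T y - V y| := by
  have key : ∀ (y z : ℝ) (k : ℤ), y = z + 4 * k → |z| ≤ 2 → V (2 * y) = V (2 * z) := by
    intro y z k hy _
    have : 2 * y = 2 * z + 4 * ((2 * k : ℤ) : ℝ) := by push_cast; rw [hy]; ring
    rw [this, V_periodic]
  obtain ⟨k, z, hx, h⟩ := TV_cases y
  have hV : ∀ x : ℝ, -1 ≤ x → x ≤ 3 → V x = 1 - |x - 1| := by
    intro x h1 h2
    have := V_add_int x 0 (by rw [abs_le]; constructor <;> linarith)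
    simpa using this
  have hV' : ∀ x : ℝ, -3 ≤ x → x ≤ 1 → V x = -(1 - |x + 1|) := by
    intro x h1 h2
    have h3 := hV (-x) (by linarith) (by linarith)
    rw [V_neg] at h3
    have : |(-x) - 1| = |x + 1| := by rw [← abs_neg]; congr 1; ring
    rw [this] at h3
    linarith
  rcases h with ⟨h1, h2, h3, h4⟩ | ⟨h1, h2, h3, h4⟩ | ⟨h1, h2, h3, h4⟩ | ⟨h1, h2, h3, h4⟩
  · have e1 : V (2 * y) = V (2 * z + 4) := by
      rw [key y z k hx (by rw [abs_le]; constructor <;> linarith)]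
      have := V_periodic (2 * z) 1
      rw [← this]; congr 1; push_cast; ring
    rw [e1, h3, h4, hV _ (by linarith) (by linarith)]
    rw [show (1 : ℝ) + z + (-2 - z) = -1 by ring, show (1 : ℝ) + z - (-2 - z) = 2 * z + 3 by ring,
      show 2 * z + 4 - 1 = 2 * z + 3 by ring]
    norm_num
  · rw [key y z k hx (by rw [abs_le]; constructor <;> linarith), h3, h4,
      hV' _ (by linarith) (by linarith)]
    rw [show (1 : ℝ) + z - z = 1 by ring, show (1 : ℝ) + z + z = 2 * z + 1 by ring]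
    norm_num
  · rw [key y z k hx (by rw [abs_le]; constructor <;> linarith), h3, h4,
      hV _ (by linarith) (by linarith)]
    rw [show (1 : ℝ) - z + z = 1 by ring, show (1 : ℝ) - z - z = -(2 * z - 1) by ring, abs_neg]
    norm_num
  · have e1 : V (2 * y) = V (2 * z - 4) := by
      rw [key y z k hx (by rw [abs_le]; constructor <;> linarith)]
      have := V_periodic (2 * z - 4) 1
      rw [← this]; congr 1; push_cast; ring
    rw [e1, h3, h4, hV' _ (by linarith) (by linarith)]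
    rw [show (1 : ℝ) - z + (2 - z) = -(2 * z - 3) by ring, show (1 : ℝ) - z - (2 - z) = -1 by ring,
      show 2 * z - 4 + 1 = 2 * z - 3 by ring, abs_neg]
    norm_num

end Pool.Agent.Helper13.FD
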