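import Mathlib
import Pool.Agent.Helper13.FD.Tri

/-!
Piecewise linear self maps of `ℝ³`: the degree two map `Dm`, the Lattes type map `Lm`.
-/

set_option autoImplicit false
set_option linter.unusedVariables false
set_option linter.unusedSimpArgs false

noncomputable section

namespace Pool.Agent.Helper13.FD

/-- three dimensional euclidean space -/
abbrev E := EuclideanSpace ℝ (Fin 3)

/-- vector with given coordinates -/
def mk (a b c : ℝ) : E := WithLp.toLp 2 ![a, b, c]

@[simp] lemma mk_0 (a b c : ℝ) : mk a b c 0 = a := rfl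
@[simp] lemma mk_1 (a b c : ℝ) : mk a b c 1 = b := rfl
@[simp] lemma mk_2 (a b c : ℝ) : mk a b c 2 = c := rfl

lemma ext3 {p q : E} (h0 : p 0 = q 0) (h1 : p 1 = q 1) (h2 : p 2 = q 2) : p = q := by
  ext i; fin_cases i
  · exact h0
  · exact h1
  · exact h2

lemma mk_eta (p : E) : mk (p 0) (p 1) (p 2) = p := ext3 rfl rfl rfl

lemma norm_sq (p : E) : ‖p‖ ^ 2 = p 0 ^ 2 + p 1 ^ 2 + p 2 ^ 2 := by
  rw [EuclideanSpace.norm_sq_eq, Fin.sum_univ_three]
  simp [sq_abs]

lemma norm_le_sum (p : E) : ‖p‖ ≤ |p 0| + |p 1| + |p 2| := by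
  have h := norm_sq p
  have h0 := abs_nonneg (p 0)
  have h1 := abs_nonneg (p 1)
  have h2 := abs_nonneg (p 2)
  have : ‖p‖ ^ 2 ≤ (|p 0| + |p 1| + |p 2|) ^ 2 := by
    rw [h, ← sq_abs (p 0), ← sq_abs (p 1), ← sq_abs (p 2)]
    nlinarith [mul_nonneg h0 h1, mul_nonneg h0 h2, mul_nonneg h1 h2]
  exact le_of_sq_le_sq this (by positivity)

lemma abs_le_norm (p : E) (i : Fin 3) : |p i| ≤ ‖p‖ := by
  have := PiLp.norm_apply_le p i
  simpa using this

/-- signed minimum -/
def mm (a b : ℝ) : ℝ := (|a + b| - |a - b|) / 2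

lemma mm_comm (a b : ℝ) : mm a b = mm b a := by
  rw [mm, mm, add_comm, abs_sub_comm]

lemma mm_neg_left (a b : ℝ) : mm (-a) b = - mm a b := by
  unfold mm
  have h1 : |-a + b| = |a - b| := by rw [← abs_neg]; congr 1; ring
  have h2 : |-a - b| = |a + b| := by rw [← abs_neg]; congr 1; ring
  rw [h1, h2]; ring

lemma mm_neg_right (a b : ℝ) : mm a (-b) = - mm a b := by
  rw [mm_comm, mm_neg_left, mm_comm]

lemma mm_of_nonneg {a b : ℝ} (ha : 0 ≤ a) (hb : 0 ≤ b) : mm a b = min a b := by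
  unfold mm
  rw [abs_of_nonneg (by linarith : 0 ≤ a + b)]
  rcases le_total a b with h | h
  · rw [abs_of_nonpos (by linarith), min_eq_left h]; ring
  · rw [abs_of_nonneg (by linarith), min_eq_right h]; ring

lemma abs_mm (a b : ℝ) : |mm a b| = min |a| |b| := by
  have key : ∀ a b : ℝ, 0 ≤ a → 0 ≤ b → |mm a b| = min |a| |b| := by
    intro a b ha hb
    rw [mm_of_nonneg ha hb, abs_of_nonneg ha, abs_of_nonneg hb, abs_of_nonneg (le_min ha hb)]
  rcases le_total 0 a with ha | ha <;> rcases le_total 0 b with hb | hb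
  · exact key a b ha hb
  · have := key a (-b) ha (by linarith)
    rwa [mm_neg_right, abs_neg, abs_neg] at this
  · have := key (-a) b (by linarith) hb
    rwa [mm_neg_left, abs_neg, abs_neg] at this
  · have := key (-a) (-b) (by linarith) (by linarith)
    rwa [mm_neg_left, mm_neg_right, neg_neg, abs_neg, abs_neg] at this

lemma mm_cases (a b : ℝ) : mm a b = a ∨ mm a b = b ∨ mm a b = -a ∨ mm a b = -b := by
  unfold mm
  rcases abs_choice (a + b) with h1 | h1 <;> rcases abs_choice (a - b) with h2 | h2 <;>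
    rw [h1, h2]
  · right; left; ring
  · left; ring
  · right; right; left; ring
  · right; right; right; ring

lemma mm_lip (a b a' b' : ℝ) : |mm a b - mm a' b'| ≤ |a - a'| + |b - b'| := by
  unfold mm
  have h1 := abs_abs_sub_abs_le_abs_sub (a + b) (a' + b')
  have h2 := abs_abs_sub_abs_le_abs_sub (a - b) (a' - b')
  have h3 : |(a + b) - (a' + b')| ≤ |a - a'| + |b - b'| := by
    rw [show (a + b) - (a' + b') = (a - a') + (b - b') by ring]
    exact abs_add_le _ _
  have h4 : |(a - b) - (a' - b')| ≤ |a - a'| + |b - b'| := by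
    rw [show (a - b) - (a' - b') = (a - a') - (b - b') by ring]
    exact abs_sub _ _
  have h5 := abs_le.mp (h1.trans h3)
  have h6 := abs_le.mp (h2.trans h4)
  rw [abs_le]
  constructor <;> linarith [h5.1, h5.2, h6.1, h6.2]

/-- clamp of `q` to `[-b, b]` -/
def cl (b q : ℝ) : ℝ := max (-b) (min b q)

lemma cl_neg {b : ℝ} (q : ℝ) (hb : 0 ≤ b) : cl b (-q) = - cl b q := by
  unfold cl
  rcases le_total b (-q) with h1 | h1 <;> rcases le_total b q with h2 | h2
  · rw [min_eq_left h1, min_eq_left h2, max_eq_right (by linarith)]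
    linarith
  · rw [min_eq_left h1, min_eq_right h2, max_eq_right (by linarith), max_eq_left (by linarith)]
    ring
  · rw [min_eq_right h1, min_eq_left h2, max_eq_left (by linarith), max_eq_right (by linarith)]
  · rw [min_eq_right h1, min_eq_right h2]
    rw [max_eq_right (by linarith), max_eq_right (by linarith)]

lemma cl_of_nonneg {b q : ℝ} (hb : 0 ≤ b) (hq : 0 ≤ q) : cl b q = min b q := by
  unfold cl
  rw [max_eq_right]
  exact le_min (by linarith) (by linarith)

lemma abs_cl {b : ℝ} (q : ℝ) (hb : 0 ≤ b) : |cl b q| = min b |q| := by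
  rcases le_total 0 q with h | h
  · rw [cl_of_nonneg hb h, abs_of_nonneg h, abs_of_nonneg (le_min hb h)]
  · have h1 := cl_neg (-q) hb
    rw [neg_neg] at h1
    rw [h1, abs_neg, cl_of_nonneg hb (by linarith), abs_of_nonpos h,
      abs_of_nonneg (le_min hb (by linarith))]

lemma cl_lip (b q b' q' : ℝ) : |cl b q - cl b' q'| ≤ |b - b'| + |q - q'| := by
  unfold cl
  have h1 : |min b q - min b' q'| ≤ max |b - b'| |q - q'| := abs_min_sub_min_le_max b q b' q'
  have h2 := abs_max_sub_max_le_max (-b) (min b q) (-b') (min b' q')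
  have h3 : |(-b) - (-b')| = |b - b'| := by rw [← abs_neg]; congr 1; ring
  rw [h3] at h2
  have h4 := max_le_add_of_nonneg (abs_nonneg (b - b')) (abs_nonneg (q - q'))
  refine h2.trans (max_le ?_ (h1.trans h4))
  have := abs_nonneg (q - q'); linarith

lemma cl_cases (b q : ℝ) : cl b q = b ∨ cl b q = q ∨ cl b q = -b := by
  unfold cl
  rcases max_choice (-b) (min b q) with h | h <;> rw [h]
  · right; right; rfl
  · rcases min_choice b q with h' | h' <;> rw [h']
    · left; rfl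
    · right; left; rfl

/-- the gauge of the double pyramid -/
def lam (p : E) : ℝ := max |p 0| |p 1| + |p 2|

/-- auxiliary bound -/
def be (p : E) : ℝ := |p 1| + |p 2| - min |p 0| |p 1|

lemma be_nonneg (p : E) : 0 ≤ be p := by
  unfold be
  have := min_le_right |p 0| |p 1|
  have := abs_nonneg (p 2)
  linarith

/-- the piecewise linear map of degree two -/
def Dm (p : E) : E := mk (p 0) (2 * |p 1| - lam p) (cl (be p) (2 * mm (p 1) (p 2)))

@[simp] lemma Dm_0 (p : E) : Dm p 0 = p 0 := rfl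
@[simp] lemma Dm_1 (p : E) : Dm p 1 = 2 * |p 1| - lam p := rfl
@[simp] lemma Dm_2 (p : E) : Dm p 2 = cl (be p) (2 * mm (p 1) (p 2)) := rfl

/-- interpolation between the identity and a quarter turn -/
def Am (t : ℝ) (p : E) : E := mk ((1 - t) * p 0 + t * p 1) (-t * p 0 + (1 - t) * p 1) (p 2)

/-- interpolation between the identity and the opposite quarter turn -/
def Bm (t : ℝ) (p : E) : E := mk ((1 - t) * p 0 - t * p 1) (t * p 0 + (1 - t) * p 1) (p 2)

@[simp] lemma Am_0 (t : ℝ) (p : E) : Am t p 0 = (1 - t) * p 0 + t * p 1 := rfl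
@[simp] lemma Am_1 (t : ℝ) (p : E) : Am t p 1 = -t * p 0 + (1 - t) * p 1 := rfl
@[simp] lemma Am_2 (t : ℝ) (p : E) : Am t p 2 = p 2 := rfl
@[simp] lemma Bm_0 (t : ℝ) (p : E) : Bm t p 0 = (1 - t) * p 0 - t * p 1 := rfl
@[simp] lemma Bm_1 (t : ℝ) (p : E) : Bm t p 1 = t * p 0 + (1 - t) * p 1 := rfl
@[simp] lemma Bm_2 (t : ℝ) (p : E) : Bm t p 2 = p 2 := rfl

lemma Am_zero (p : E) : Am 0 p = p := ext3 (by simp) (by simp) (by simp)
lemma Bm_zero (p : E) : Bm 0 p = p := ext3 (by simp) (by simp) (by simp)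

/-- the family of maps interpolating between `Dm ∘ Dm` and the Lattes map -/
def wm (t : ℝ) (p : E) : E := Dm (Bm t (Dm (Am t p)))

/-- the Lattes map -/
def Lm (p : E) : E := wm 1 p

/-- the pillow map -/
def Pc (x y : ℝ) : E := mk (T x) (T y) (mm (V x) (V y))

/-- the base map: `(a,b)` on the diamond `|a|+|b|=1` -/
def base (a b Y : ℝ) : E := mk a (T Y) (mm b (V Y))

lemma Pc_eq_base (x y : ℝ) : Pc x y = base (T x) (V x) y := rfl

lemma core_ineq {A t : ℝ} (hA : 0 ≤ A) (hA1 : A ≤ 1) (ht : 0 ≤ t) (ht1 : t ≤ 1) :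
    min (t + min (1 - A) (1 - t) - min A t) (2 * min t (min (1 - A) (1 - t))) =
      min (1 - A) (2 * min t (1 - t)) := by
  rcases le_total A t with h | h
  · rw [min_eq_left h, min_eq_right (by linarith : 1 - t ≤ 1 - A)]
    congr 1
    ring
  · rw [min_eq_right h, min_eq_left (by linarith : 1 - A ≤ 1 - t)]
    rw [show t + (1 - A) - t = 1 - A by ring]
    rcases le_total t (1 - A) with h1 | h1
    · rw [min_eq_left h1, min_eq_left (by linarith : t ≤ 1 - t)]
    · rw [min_eq_right h1]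
      rw [min_eq_left (by linarith : 1 - A ≤ 2 * (1 - A))]
      symm
      apply min_eq_left
      rcases le_total t (1 - t) with h2 | h2
      · rw [min_eq_left h2]; linarith
      · rw [min_eq_right h2]; linarith

lemma Dm_base {a b : ℝ} (hab : |a| + |b| = 1) (Y : ℝ) : Dm (base a b Y) = base a b (2 * Y) := by
  have hTV := abs_T_add_abs_V Y
  have hb : |b| = 1 - |a| := by linarith
  have hV : |V Y| = 1 - |T Y| := by linarith
  have ha0 := abs_nonneg a
  have hb0 := abs_nonneg b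
  have hT0 := abs_nonneg (T Y)
  have hV0 := abs_nonneg (V Y)
  have hlam : lam (base a b Y) = 1 := by
    show max |a| |T Y| + |mm b (V Y)| = 1
    rw [abs_mm, hb, hV]
    rcases le_total |a| |T Y| with h | h
    · rw [max_eq_right h, min_eq_right (by linarith)]; ring
    · rw [max_eq_left h, min_eq_left (by linarith)]; ring
  apply ext3
  · rfl
  · show 2 * |T Y| - lam (base a b Y) = T (2 * Y)
    rw [hlam, T_two_mul]
  · show cl (be (base a b Y)) (2 * mm (T Y) (mm b (V Y))) = mm b (V (2 * Y))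
    have hbe : be (base a b Y) = |T Y| + min (1 - |a|) (1 - |T Y|) - min |a| |T Y| := by
      show |T Y| + |mm b (V Y)| - min |a| |T Y| = _
      rw [abs_mm, hb, hV]
    have hV2 : V (2 * Y) = 2 * mm (T Y) (V Y) := by
      rw [V_two_mul]; unfold mm; ring
    have hbe0 := be_nonneg (base a b Y)
    rw [hV2]
    set β := be (base a b Y) with hβ
    have key : ∀ x y z : ℝ, |x| = |T Y| → |y| = |b| → |z| = |V Y| → 0 ≤ x → 0 ≤ y → 0 ≤ z →
        cl β (2 * mm x (mm y z)) = mm y (2 * mm x z) := by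
      intro x y z hx hy hz hx0 hy0 hz0
      rw [abs_of_nonneg hx0] at hx
      rw [abs_of_nonneg hy0] at hy
      rw [abs_of_nonneg hz0] at hz
      have e1 : mm y z = min y z := mm_of_nonneg hy0 hz0
      have e1' : 0 ≤ min y z := le_min hy0 hz0
      have e2 : mm x (min y z) = min x (min y z) := mm_of_nonneg hx0 e1'
      have e3 : mm x z = min x z := mm_of_nonneg hx0 hz0
      have e3' : 0 ≤ 2 * min x z := by have := le_min hx0 hz0; linarith
      rw [e1, e2, e3, cl_of_nonneg hbe0 (by have := le_min hx0 e1'; linarith),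
        mm_of_nonneg hy0 e3', hx, hy, hz, hb, hV, hbe]
      exact core_ineq ha0 (by linarith) hT0 (by linarith)
    rcases le_total 0 (T Y) with h1 | h1 <;> rcases le_total 0 b with h2 | h2 <;>
      rcases le_total 0 (V Y) with h3 | h3
    · exact key _ _ _ rfl rfl rfl h1 h2 h3
    · have := key (T Y) b (-V Y) rfl rfl (abs_neg _) h1 h2 (by linarith)
      simp only [mm_neg_right, mul_neg, cl_neg _ hbe0] at this
      linarith
    · have := key (T Y) (-b) (V Y) rfl (abs_neg _) rfl h1 (by linarith) h3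
      simp only [mm_neg_right, mm_neg_left, mul_neg, cl_neg _ hbe0] at this
      linarith
    · have := key (T Y) (-b) (-V Y) rfl (abs_neg _) (abs_neg _) h1 (by linarith) (by linarith)
      simp only [mm_neg_right, mm_neg_left, mul_neg, cl_neg _ hbe0, neg_neg] at this
      linarith
    · have := key (-T Y) b (V Y) (abs_neg _) rfl rfl (by linarith) h2 h3
      simp only [mm_neg_right, mm_neg_left, mul_neg, cl_neg _ hbe0] at this
      linarith
    · have := key (-T Y) b (-V Y) (abs_neg _) rfl (abs_neg _) (by linarith) h2 (by linarith)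
      simp only [mm_neg_right, mm_neg_left, mul_neg, cl_neg _ hbe0, neg_neg] at this
      linarith
    · have := key (-T Y) (-b) (V Y) (abs_neg _) (abs_neg _) rfl (by linarith) (by linarith) h3
      simp only [mm_neg_right, mm_neg_left, mul_neg, cl_neg _ hbe0, neg_neg] at this
      linarith
    · have := key (-T Y) (-b) (-V Y) (abs_neg _) (abs_neg _) (abs_neg _) (by linarith)
        (by linarith) (by linarith)
      simp only [mm_neg_right, mm_neg_left, mul_neg, cl_neg _ hbe0, neg_neg] at this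
      linarith

lemma Dm_Pc (x y : ℝ) : Dm (Pc x y) = Pc x (2 * y) := by
  rw [Pc_eq_base, Dm_base (abs_T_add_abs_V x), Pc_eq_base]

lemma Am_one_Pc (x y : ℝ) : Am 1 (Pc x y) = Pc y (-x - 2) := by
  have e : -x - 2 = -(x + 2) := by ring
  apply ext3
  · show (1 - 1) * T x + 1 * T y = T y
    ring
  · show -1 * T x + (1 - 1) * T y = T (-x - 2)
    rw [e, T_neg, T_add_two]; ring
  · show mm (V x) (V y) = mm (V y) (V (-x - 2))
    rw [e, V_neg, V_add_two, neg_neg, mm_comm]

lemma Bm_one_Pc (x y : ℝ) : Bm 1 (Pc x y) = Pc (-y - 2) x := by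
  have e : -y - 2 = -(y + 2) := by ring
  apply ext3
  · show (1 - 1) * T x - 1 * T y = T (-y - 2)
    rw [e, T_neg, T_add_two]; ring
  · show 1 * T x + (1 - 1) * T y = T x
    ring
  · show mm (V x) (V y) = mm (V (-y - 2)) (V x)
    rw [e, V_neg, V_add_two, neg_neg, mm_comm]

lemma Lm_Pc (x y : ℝ) : Lm (Pc x y) = Pc (2 * x + 2) (2 * y) := by
  unfold Lm wm
  rw [Am_one_Pc, Dm_Pc, Bm_one_Pc, Dm_Pc]
  congr 1
  ring

lemma Lm_iter_Pc (j : ℕ) : ∃ c : ℝ, ∀ x y : ℝ, Lm^[j] (Pc x y) = Pc (2 ^ j * x + c) (2 ^ j * y) := by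
  induction j with
  | zero => exact ⟨0, fun x y => by simp⟩
  | succ j ih =>
    obtain ⟨c, hc⟩ := ih
    refine ⟨2 * c + 2, fun x y => ?_⟩
    rw [Function.iterate_succ_apply', hc, Lm_Pc]
    congr 1 <;> ring

/-! ### homogeneity -/

lemma mm_mul {c : ℝ} (hc : 0 ≤ c) (a b : ℝ) : mm (c * a) (c * b) = c * mm a b := by
  unfold mm
  rw [← mul_add, ← mul_sub, abs_mul, abs_mul, abs_of_nonneg hc]; ring

lemma cl_mul {c : ℝ} (hc : 0 ≤ c) (b q : ℝ) : cl (c * b) (c * q) = c * cl b q := by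
  unfold cl
  rw [← mul_min_of_nonneg _ _ hc, ← mul_neg, ← mul_max_of_nonneg _ _ hc]

lemma lam_smul {c : ℝ} (hc : 0 ≤ c) (p : E) : lam (c • p) = c * lam p := by
  unfold lam
  simp only [PiLp.smul_apply, smul_eq_mul, abs_mul, abs_of_nonneg hc]
  rw [← mul_max_of_nonneg _ _ hc]; ring

lemma be_smul {c : ℝ} (hc : 0 ≤ c) (p : E) : be (c • p) = c * be p := by
  unfold be
  simp only [PiLp.smul_apply, smul_eq_mul, abs_mul, abs_of_nonneg hc]
  rw [← mul_min_of_nonneg _ _ hc]; ring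

lemma Dm_smul {c : ℝ} (hc : 0 ≤ c) (p : E) : Dm (c • p) = c • Dm p := by
  apply ext3
  · simp
  · simp only [Dm_1, PiLp.smul_apply, smul_eq_mul, lam_smul hc, abs_mul, abs_of_nonneg hc]; ring
  · simp only [Dm_2, PiLp.smul_apply, smul_eq_mul, be_smul hc, mm_mul hc]
    rw [← cl_mul hc]; congr 1; ring

lemma Am_smul (t c : ℝ) (p : E) : Am t (c • p) = c • Am t p := by
  apply ext3 <;> simp <;> ring

lemma Bm_smul (t c : ℝ) (p : E) : Bm t (c • p) = c • Bm t p := by
  apply ext3 <;> simp <;> ring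

lemma wm_smul (t : ℝ) {c : ℝ} (hc : 0 ≤ c) (p : E) : wm t (c • p) = c • wm t p := by
  unfold wm
  rw [Am_smul, Dm_smul hc, Bm_smul, Dm_smul hc]

lemma Lm_iter_smul (j : ℕ) {c : ℝ} (hc : 0 ≤ c) (p : E) : Lm^[j] (c • p) = c • Lm^[j] p := by
  induction j with
  | zero => rfl
  | succ j ih => rw [Function.iterate_succ_apply', ih, Function.iterate_succ_apply', Lm,
      wm_smul 1 hc, Lm]

/-! ### the gauge is preserved -/

lemma core_lam {A t z : ℝ} (hA : 0 ≤ A) (ht : 0 ≤ t) (hz : 0 ≤ z) :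
    max A |2 * t - (max A t + z)| + min (t + z - min A t) (2 * min t z) = max A t + z := by
  rcases le_total A t with h | h
  · rw [max_eq_right h, min_eq_left h]
    rcases le_total t z with h1 | h1
    · rw [min_eq_left h1, abs_of_nonpos (by linarith)]
      rcases le_total A (-(2 * t - (t + z))) with h2 | h2
      · rw [max_eq_right h2]
        rw [min_eq_right (by linarith)]; ring
      · rw [max_eq_left h2, min_eq_left (by linarith)]; ring
    · rw [min_eq_right h1, abs_of_nonneg (by linarith)]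
      rcases le_total A (2 * t - (t + z)) with h2 | h2
      · rw [max_eq_right h2]
        rw [min_eq_right (by linarith)]; ring
      · rw [max_eq_left h2, min_eq_left (by linarith)]; ring
  · rw [max_eq_left h, min_eq_right h, show t + z - t = z by ring]
    rcases le_total (A + z) (2 * t) with h0 | h0
    · rw [abs_of_nonneg (by linarith), max_eq_left (by linarith), min_eq_right (by linarith : z ≤ t),
        min_eq_left (by linarith)]
    rw [abs_of_nonpos (by linarith)]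
    rcases le_total z (2 * t) with h1 | h1
    · rw [max_eq_left (by linarith), min_eq_left]
      rcases le_total t z with h2 | h2
      · rw [min_eq_left h2]; linarith
      · rw [min_eq_right h2]; linarith
    · rw [max_eq_right (by linarith), min_eq_left (by linarith : t ≤ z), min_eq_right (by linarith)]
      ring

lemma lam_Dm (p : E) : lam (Dm p) = lam p := by
  have h := core_lam (abs_nonneg (p 0)) (abs_nonneg (p 1)) (abs_nonneg (p 2))
  show max |p 0| |2 * |p 1| - lam p| + |cl (be p) (2 * mm (p 1) (p 2))| = lam p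
  rw [abs_cl _ (be_nonneg p), abs_mul, abs_mm]
  rw [show |(2 : ℝ)| = 2 by norm_num]
  exact h

lemma lam_Am_one (p : E) : lam (Am 1 p) = lam p := by
  unfold lam
  simp only [Am_0, Am_1, Am_2]
  rw [show (1 - 1) * p 0 + 1 * p 1 = p 1 by ring, show -1 * p 0 + (1 - 1) * p 1 = - p 0 by ring,
    abs_neg, max_comm]

lemma lam_Bm_one (p : E) : lam (Bm 1 p) = lam p := by
  unfold lam
  simp only [Bm_0, Bm_1, Bm_2]
  rw [show (1 - 1) * p 0 - 1 * p 1 = -p 1 by ring, show 1 * p 0 + (1 - 1) * p 1 = p 0 by ring,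
    abs_neg, max_comm]

lemma lam_Lm (p : E) : lam (Lm p) = lam p := by
  unfold Lm wm
  rw [lam_Dm, lam_Bm_one, lam_Dm, lam_Am_one]

lemma lam_Lm_iter (j : ℕ) (p : E) : lam (Lm^[j] p) = lam p := by
  induction j with
  | zero => rfl
  | succ j ih => rw [Function.iterate_succ_apply', lam_Lm, ih]

lemma lam_nonneg (p : E) : 0 ≤ lam p := by
  unfold lam; positivity

lemma norm_le_lam (p : E) : ‖p‖ ≤ 2 * lam p := by
  have h := norm_le_sum p
  unfold lam
  have h1 := le_max_left |p 0| |p 1|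
  have h2 := le_max_right |p 0| |p 1|
  have h3 := abs_nonneg (p 2)
  linarith

lemma lam_le_norm (p : E) : lam p ≤ 2 * ‖p‖ := by
  unfold lam
  have h0 := abs_le_norm p 0
  have h1 := abs_le_norm p 1
  have h2 := abs_le_norm p 2
  have := max_le h0 h1
  linarith

lemma abs_lam_sub_le (p q : E) : |lam p - lam q| ≤ 2 * ‖p - q‖ := by
  unfold lam
  have h1 := abs_max_sub_max_le_max |p 0| |p 1| |q 0| |q 1|
  have h2 := abs_abs_sub_abs_le_abs_sub (p 0) (q 0)
  have h3 := abs_abs_sub_abs_le_abs_sub (p 1) (q 1)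
  have h4 := abs_abs_sub_abs_le_abs_sub (p 2) (q 2)
  have n0 := abs_le_norm (p - q) 0
  have n1 := abs_le_norm (p - q) 1
  have n2 := abs_le_norm (p - q) 2
  simp only [PiLp.sub_apply] at n0 n1 n2
  have h5 : max |p 0| |p 1| + |p 2| - (max |q 0| |q 1| + |q 2|) =
    (max |p 0| |p 1| - max |q 0| |q 1|) + (|p 2| - |q 2|) := by ring
  rw [h5]
  refine (abs_add_le _ _).trans ?_
  have h6 : abs (max |p 0| |p 1| - max |q 0| |q 1|) ≤ ‖p - q‖ :=
    h1.trans (max_le (h2.trans n0) (h3.trans n1))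
  linarith

/-! ### Lipschitz bounds -/

lemma Dm_lip (p q : E) : ‖Dm p - Dm q‖ ≤ 12 * ‖p - q‖ := by
  have n0 := abs_le_norm (p - q) 0
  have n1 := abs_le_norm (p - q) 1
  have n2 := abs_le_norm (p - q) 2
  simp only [PiLp.sub_apply] at n0 n1 n2
  have h := norm_le_sum (Dm p - Dm q)
  simp only [PiLp.sub_apply, Dm_0, Dm_1, Dm_2] at h
  have hl := abs_lam_sub_le p q
  have a1 := abs_abs_sub_abs_le_abs_sub (p 1) (q 1)
  have c1 : |2 * |p 1| - lam p - (2 * |q 1| - lam q)| ≤ 4 * ‖p - q‖ := by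
    rw [show 2 * |p 1| - lam p - (2 * |q 1| - lam q) = 2 * (|p 1| - |q 1|) - (lam p - lam q) by ring]
    refine (abs_sub _ _).trans ?_
    rw [abs_mul]; norm_num
    linarith
  have hbe : |be p - be q| ≤ 3 * ‖p - q‖ := by
    unfold be
    have h1 := abs_min_sub_min_le_max |p 0| |p 1| |q 0| |q 1|
    have h2 := abs_abs_sub_abs_le_abs_sub (p 0) (q 0)
    have h4 := abs_abs_sub_abs_le_abs_sub (p 2) (q 2)
    have h6 : abs (min |p 0| |p 1| - min |q 0| |q 1|) ≤ ‖p - q‖ :=
      h1.trans (max_le (h2.trans n0) (a1.trans n1))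
    have h7 := abs_le.mp h6
    have h8 := abs_le.mp (a1.trans n1)
    have h9 := abs_le.mp (h4.trans n2)
    rw [abs_le]
    constructor <;> linarith [h7.1, h7.2, h8.1, h8.2, h9.1, h9.2]
  have c2 : |cl (be p) (2 * mm (p 1) (p 2)) - cl (be q) (2 * mm (q 1) (q 2))| ≤ 7 * ‖p - q‖ := by
    refine (cl_lip _ _ _ _).trans ?_
    have := mm_lip (p 1) (p 2) (q 1) (q 2)
    rw [← mul_sub, abs_mul]; norm_num
    linarith
  linarith

lemma norm_Am_sub_le {t t' : ℝ} (ht : 0 ≤ t) (ht1 : t ≤ 1) (p p' : E) :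
    ‖Am t p - Am t' p'‖ ≤ 5 * ‖p - p'‖ + 4 * |t - t'| * ‖p'‖ := by
  have h := norm_le_sum (Am t p - Am t' p')
  simp only [PiLp.sub_apply, Am_0, Am_1, Am_2] at h
  have n0 := abs_le_norm (p - p') 0
  have n1 := abs_le_norm (p - p') 1
  have n2 := abs_le_norm (p - p') 2
  simp only [PiLp.sub_apply] at n0 n1 n2
  have m0 := abs_le_norm p' 0
  have m1 := abs_le_norm p' 1
  have ht' : |t| ≤ 1 := by rw [abs_le]; constructor <;> linarith
  have ht'' : |1 - t| ≤ 1 := by rw [abs_le]; constructor <;> linarith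
  have hp : ∀ x y : ℝ, |x| ≤ 1 → |y| ≤ ‖p - p'‖ → |x * y| ≤ ‖p - p'‖ := by
    intro x y hx hy
    rw [abs_mul]
    calc |x| * |y| ≤ 1 * ‖p - p'‖ := mul_le_mul hx hy (abs_nonneg _) zero_le_one
      _ = _ := one_mul _
  have hq : |(t - t') * (p' 0 - p' 1)| ≤ 2 * (|t - t'| * ‖p'‖) := by
    rw [abs_mul]
    have : |p' 0 - p' 1| ≤ 2 * ‖p'‖ := (abs_sub _ _).trans (by linarith)
    have := mul_le_mul_of_nonneg_left this (abs_nonneg (t - t'))
    linarith
  have hq' : |(t - t') * (p' 0 + p' 1)| ≤ 2 * (|t - t'| * ‖p'‖) := by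
    rw [abs_mul]
    have : |p' 0 + p' 1| ≤ 2 * ‖p'‖ := (abs_add_le _ _).trans (by linarith)
    have := mul_le_mul_of_nonneg_left this (abs_nonneg (t - t'))
    linarith
  have e0 : (1 - t) * p 0 + t * p 1 - ((1 - t') * p' 0 + t' * p' 1) =
    (1 - t) * (p 0 - p' 0) + t * (p 1 - p' 1) - (t - t') * (p' 0 - p' 1) := by ring
  have e1 : -t * p 0 + (1 - t) * p 1 - (-t' * p' 0 + (1 - t') * p' 1) =
    (-t) * (p 0 - p' 0) + (1 - t) * (p 1 - p' 1) - (t - t') * (p' 0 + p' 1) := by ring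
  have b0 : |(1 - t) * p 0 + t * p 1 - ((1 - t') * p' 0 + t' * p' 1)| ≤
      2 * ‖p - p'‖ + 2 * (|t - t'| * ‖p'‖) := by
    rw [e0]
    refine (abs_sub _ _).trans ?_
    have := abs_add_le ((1 - t) * (p 0 - p' 0)) (t * (p 1 - p' 1))
    have := hp _ _ ht'' n0
    have := hp _ _ ht' n1
    linarith
  have b1 : |-t * p 0 + (1 - t) * p 1 - (-t' * p' 0 + (1 - t') * p' 1)| ≤
      2 * ‖p - p'‖ + 2 * (|t - t'| * ‖p'‖) := by
    rw [e1]
    refine (abs_sub _ _).trans ?_
    have := abs_add_le ((-t) * (p 0 - p' 0)) ((1 - t) * (p 1 - p' 1))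
    have := hp (-t) _ (by rwa [abs_neg]) n0
    have := hp _ _ ht'' n1
    linarith
  linarith

lemma norm_Bm_sub_le {t t' : ℝ} (ht : 0 ≤ t) (ht1 : t ≤ 1) (p p' : E) :
    ‖Bm t p - Bm t' p'‖ ≤ 5 * ‖p - p'‖ + 4 * |t - t'| * ‖p'‖ := by
  have h := norm_le_sum (Bm t p - Bm t' p')
  simp only [PiLp.sub_apply, Bm_0, Bm_1, Bm_2] at h
  have n0 := abs_le_norm (p - p') 0
  have n1 := abs_le_norm (p - p') 1
  have n2 := abs_le_norm (p - p') 2
  simp only [PiLp.sub_apply] at n0 n1 n2
  have m0 := abs_le_norm p' 0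
  have m1 := abs_le_norm p' 1
  have ht' : |t| ≤ 1 := by rw [abs_le]; constructor <;> linarith
  have ht'' : |1 - t| ≤ 1 := by rw [abs_le]; constructor <;> linarith
  have hp : ∀ x y : ℝ, |x| ≤ 1 → |y| ≤ ‖p - p'‖ → |x * y| ≤ ‖p - p'‖ := by
    intro x y hx hy
    rw [abs_mul]
    calc |x| * |y| ≤ 1 * ‖p - p'‖ := mul_le_mul hx hy (abs_nonneg _) zero_le_one
      _ = _ := one_mul _
  have hq : |(t - t') * (p' 0 - p' 1)| ≤ 2 * (|t - t'| * ‖p'‖) := by
    rw [abs_mul]
    have : |p' 0 - p' 1| ≤ 2 * ‖p'‖ := (abs_sub _ _).trans (by linarith)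
    have := mul_le_mul_of_nonneg_left this (abs_nonneg (t - t'))
    linarith
  have hq' : |(t - t') * (p' 0 + p' 1)| ≤ 2 * (|t - t'| * ‖p'‖) := by
    rw [abs_mul]
    have : |p' 0 + p' 1| ≤ 2 * ‖p'‖ := (abs_add_le _ _).trans (by linarith)
    have := mul_le_mul_of_nonneg_left this (abs_nonneg (t - t'))
    linarith
  have e0 : (1 - t) * p 0 - t * p 1 - ((1 - t') * p' 0 - t' * p' 1) =
    (1 - t) * (p 0 - p' 0) + (-t) * (p 1 - p' 1) - (t - t') * (p' 0 + p' 1) := by ring
  have e1 : t * p 0 + (1 - t) * p 1 - (t' * p' 0 + (1 - t') * p' 1) =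
    t * (p 0 - p' 0) + (1 - t) * (p 1 - p' 1) + (t - t') * (p' 0 - p' 1) := by ring
  have b0 : |(1 - t) * p 0 - t * p 1 - ((1 - t') * p' 0 - t' * p' 1)| ≤
      2 * ‖p - p'‖ + 2 * (|t - t'| * ‖p'‖) := by
    rw [e0]
    refine (abs_sub _ _).trans ?_
    have := abs_add_le ((1 - t) * (p 0 - p' 0)) ((-t) * (p 1 - p' 1))
    have := hp _ _ ht'' n0
    have := hp (-t) _ (by rwa [abs_neg]) n1
    linarith
  have b1 : |t * p 0 + (1 - t) * p 1 - (t' * p' 0 + (1 - t') * p' 1)| ≤
      2 * ‖p - p'‖ + 2 * (|t - t'| * ‖p'‖) := by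
    rw [e1]
    refine (abs_add_le _ _).trans ?_
    have := abs_add_le (t * (p 0 - p' 0)) ((1 - t) * (p 1 - p' 1))
    have := hp _ _ ht' n0
    have := hp _ _ ht'' n1
    linarith
  linarith

lemma Dm_zero : Dm 0 = 0 := by
  have := Dm_smul (le_refl (0 : ℝ)) 0
  simpa using this

lemma norm_Dm_le (p : E) : ‖Dm p‖ ≤ 12 * ‖p‖ := by
  have := Dm_lip p 0
  simpa [Dm_zero] using this

lemma norm_Am_le {t : ℝ} (ht : 0 ≤ t) (ht1 : t ≤ 1) (p : E) : ‖Am t p‖ ≤ 5 * ‖p‖ := by
  have := norm_Am_sub_le (t' := t) ht ht1 p 0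
  have e : Am t 0 = 0 := ext3 (by simp) (by simp) (by simp)
  simpa [e] using this

/-- Lipschitz bound of `wm` jointly in parameter and point -/
lemma wm_lip {t t' : ℝ} (ht : 0 ≤ t) (ht1 : t ≤ 1) (ht' : 0 ≤ t') (ht1' : t' ≤ 1) (p p' : E) :
    ‖wm t p - wm t' p'‖ ≤ 6000 * ‖p - p'‖ + 6000 * |t - t'| * ‖p'‖ := by
  unfold wm
  have h1 := Dm_lip (Bm t (Dm (Am t p))) (Bm t' (Dm (Am t' p')))
  have h2 := norm_Bm_sub_le (t' := t') ht ht1 (Dm (Am t p)) (Dm (Am t' p'))
  have h3 := Dm_lip (Am t p) (Am t' p')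
  have h4 := norm_Am_sub_le (t' := t') ht ht1 p p'
  have h5 := norm_Dm_le (Am t' p')
  have h6 := norm_Am_le ht' ht1' p'
  have h7 := mul_le_mul_of_nonneg_left (h5.trans (mul_le_mul_of_nonneg_left h6 (by norm_num)))
    (abs_nonneg (t - t'))
  have h8 := norm_nonneg (p - p')
  have h9 := mul_nonneg (abs_nonneg (t - t')) (norm_nonneg p')
  nlinarith

end Pool.Agent.Helper13.FD
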