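import Mathlib
import Pool.Agent.Helper13.FD.PL

/-!
Uniform Lipschitz bound for the iterates of the Lattes map, linear pieces of `Dm`.
-/

set_option autoImplicit false
set_option linter.unusedVariables false

noncomputable section

namespace Pool.Agent.Helper13.FD

lemma Pc_lip (x y x' y' : ℝ) : ‖Pc x y - Pc x' y'‖ ≤ 2 * (|x - x'| + |y - y'|) := by
  have h := norm_le_sum (Pc x y - Pc x' y')
  have e0 : (Pc x y - Pc x' y') 0 = T x - T x' := rfl
  have e1 : (Pc x y - Pc x' y') 1 = T y - T y' := rfl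
  have e2 : (Pc x y - Pc x' y') 2 = mm (V x) (V y) - mm (V x') (V y') := rfl
  rw [e0, e1, e2] at h
  have h0 := T_lip x x'
  have h1 := T_lip y y'
  have h2 := mm_lip (V x) (V y) (V x') (V y')
  have h3 := V_lip x x'
  have h4 := V_lip y y'
  linarith

lemma abs_coord_le {p : E} (hp : lam p = 1) : |p 0| ≤ 1 ∧ |p 1| ≤ 1 ∧
    |p 2| = 1 - max |p 0| |p 1| := by
  unfold lam at hp
  have h0 := le_max_left |p 0| |p 1|
  have h1 := le_max_right |p 0| |p 1|
  have h2 := abs_nonneg (p 2)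
  exact ⟨by linarith, by linarith, by linarith⟩

/-- general lift criterion -/
lemma Pc_lift {p : E} {x y σ : ℝ} (hp : lam p = 1) (hx : T x = p 0) (hy : T y = p 1)
    (hs : mm (V x) (V y) = σ * min (1 - |p 0|) (1 - |p 1|)) (hσ : p 2 = σ * |p 2|) :
    Pc x y = p := by
  apply ext3
  · exact hx
  · exact hy
  · show mm (V x) (V y) = p 2
    rw [hs, hσ, (abs_coord_le hp).2.2]
    congr 1
    rcases le_total |p 0| |p 1| with h | h
    · rw [max_eq_right h, min_eq_right (by linarith)]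
    · rw [max_eq_left h, min_eq_left (by linarith)]

lemma T_one_sub {a : ℝ} (ha : |a| ≤ 1) : T (1 - a) = a := by
  have := abs_le.mp ha
  rw [T_of_Icc (by linarith) (by linarith)]; ring

lemma V_one_sub {a : ℝ} (ha : |a| ≤ 1) : V (1 - a) = 1 - |a| := by
  have := abs_le.mp ha
  rw [V_of_Icc (by linarith) (by linarith)]
  congr 2
  ring

/-- a reflected lift of one coordinate close to the straight lift of a nearby coordinate -/
lemma refl_coord {a a' : ℝ} (ha : |a| ≤ 1) (ha' : |a'| ≤ 1) :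
    ∃ x' : ℝ, T x' = a' ∧ V x' = -(1 - |a'|) ∧ |(1 - a) - x'| ≤ 2 * (1 - |a|) + |a - a'| := by
  have h1 := abs_le.mp ha
  have h2 := abs_le.mp ha'
  have h3 := le_abs_self (a - a')
  have h4 := neg_abs_le (a - a')
  rcases le_total 0 a with h | h
  · refine ⟨-(1 - a'), ?_, ?_, ?_⟩
    · rw [T_neg, T_one_sub ha']
    · rw [V_neg, V_one_sub ha']
    · rw [abs_of_nonneg h, abs_of_nonneg (by linarith)]; linarith
  · refine ⟨-(1 - a') + 4 * ((1 : ℤ) : ℝ), ?_, ?_, ?_⟩
    · rw [T_periodic, T_neg, T_one_sub ha']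
    · rw [V_periodic, V_neg, V_one_sub ha']
    · push_cast
      rw [abs_of_nonpos h, abs_of_nonpos (by linarith)]; linarith

lemma mm_pos_pos {a b : ℝ} (ha : |a| ≤ 1) (hb : |b| ≤ 1) :
    mm (1 - |a|) (1 - |b|) = min (1 - |a|) (1 - |b|) :=
  mm_of_nonneg (by linarith) (by linarith)

lemma exists_lifts_aux {p q : E} (hp : lam p = 1) (hq : lam q = 1) (hp2 : 0 ≤ p 2)
    (hq2 : q 2 ≤ 0) :
    ∃ x y x' y' : ℝ, Pc x y = p ∧ Pc x' y' = q ∧ |x - x'| + |y - y'| ≤ 4 * ‖p - q‖ := by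
  obtain ⟨a0, a1, a2⟩ := abs_coord_le hp
  obtain ⟨b0, b1, b2⟩ := abs_coord_le hq
  have n0 := abs_le_norm (p - q) 0
  have n1 := abs_le_norm (p - q) 1
  have n2 := abs_le_norm (p - q) 2
  simp only [PiLp.sub_apply] at n0 n1 n2
  have hp3 : |p 2| ≤ |p 2 - q 2| := by
    rw [abs_of_nonneg hp2, abs_of_nonneg (by linarith)]; linarith
  have liftp : Pc (1 - p 0) (1 - p 1) = p := by
    refine Pc_lift (σ := 1) hp (T_one_sub a0) (T_one_sub a1) ?_ (by rw [one_mul, abs_of_nonneg hp2])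
    rw [V_one_sub a0, V_one_sub a1, mm_pos_pos a0 a1, one_mul]
  have hq3 : q 2 = -1 * |q 2| := by rw [abs_of_nonpos hq2]; ring
  rcases le_total |p 1| |p 0| with h | h
  · obtain ⟨x', hx1, hx2, hx3⟩ := refl_coord a0 b0
    refine ⟨1 - p 0, 1 - p 1, x', 1 - q 1, liftp, ?_, ?_⟩
    · refine Pc_lift (σ := -1) hq hx1 (T_one_sub b1) ?_ hq3
      rw [hx2, V_one_sub b1, mm_neg_left, mm_pos_pos b0 b1]; ring
    · rw [max_eq_left h] at a2
      have : |1 - p 1 - (1 - q 1)| = |p 1 - q 1| := by rw [← abs_neg]; congr 1; ring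
      rw [this]; linarith
  · obtain ⟨y', hx1, hx2, hx3⟩ := refl_coord a1 b1
    refine ⟨1 - p 0, 1 - p 1, 1 - q 0, y', liftp, ?_, ?_⟩
    · refine Pc_lift (σ := -1) hq (T_one_sub b0) hx1 ?_ hq3
      rw [hx2, V_one_sub b0, mm_neg_right, mm_pos_pos b0 b1]; ring
    · rw [max_eq_right h] at a2
      have : |1 - p 0 - (1 - q 0)| = |p 0 - q 0| := by rw [← abs_neg]; congr 1; ring
      rw [this]; linarith

lemma exists_lifts {p q : E} (hp : lam p = 1) (hq : lam q = 1) :
    ∃ x y x' y' : ℝ, Pc x y = p ∧ Pc x' y' = q ∧ |x - x'| + |y - y'| ≤ 4 * ‖p - q‖ := by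
  obtain ⟨a0, a1, a2⟩ := abs_coord_le hp
  obtain ⟨b0, b1, b2⟩ := abs_coord_le hq
  have n0 := abs_le_norm (p - q) 0
  have n1 := abs_le_norm (p - q) 1
  simp only [PiLp.sub_apply] at n0 n1
  have np := norm_nonneg (p - q)
  rcases le_total 0 (p 2) with hp2 | hp2 <;> rcases le_total 0 (q 2) with hq2 | hq2
  · refine ⟨1 - p 0, 1 - p 1, 1 - q 0, 1 - q 1, ?_, ?_, ?_⟩
    · refine Pc_lift (σ := 1) hp (T_one_sub a0) (T_one_sub a1) ?_
        (by rw [one_mul, abs_of_nonneg hp2])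
      rw [V_one_sub a0, V_one_sub a1, mm_pos_pos a0 a1, one_mul]
    · refine Pc_lift (σ := 1) hq (T_one_sub b0) (T_one_sub b1) ?_
        (by rw [one_mul, abs_of_nonneg hq2])
      rw [V_one_sub b0, V_one_sub b1, mm_pos_pos b0 b1, one_mul]
    · have e0 : |1 - p 0 - (1 - q 0)| = |p 0 - q 0| := by rw [← abs_neg]; congr 1; ring
      have e1 : |1 - p 1 - (1 - q 1)| = |p 1 - q 1| := by rw [← abs_neg]; congr 1; ring
      rw [e0, e1]; linarith
  · exact exists_lifts_aux hp hq hp2 hq2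
  · obtain ⟨x, y, x', y', h1, h2, h3⟩ := exists_lifts_aux hq hp hq2 hp2
    refine ⟨x', y', x, y, h2, h1, ?_⟩
    rw [abs_sub_comm x' x, abs_sub_comm y' y, norm_sub_rev]
    exact h3
  · refine ⟨-(1 - p 0), 1 - p 1, -(1 - q 0), 1 - q 1, ?_, ?_, ?_⟩
    · refine Pc_lift (σ := -1) hp (by rw [T_neg, T_one_sub a0]) (T_one_sub a1) ?_
        (by rw [abs_of_nonpos hp2]; ring)
      rw [V_neg, V_one_sub a0, V_one_sub a1, mm_neg_left, mm_pos_pos a0 a1]; ring
    · refine Pc_lift (σ := -1) hq (by rw [T_neg, T_one_sub b0]) (T_one_sub b1) ?_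
        (by rw [abs_of_nonpos hq2]; ring)
      rw [V_neg, V_one_sub b0, V_one_sub b1, mm_neg_left, mm_pos_pos b0 b1]; ring
    · have e0 : |-(1 - p 0) - -(1 - q 0)| = |p 0 - q 0| := by congr 1; ring
      have e1 : |1 - p 1 - (1 - q 1)| = |p 1 - q 1| := by rw [← abs_neg]; congr 1; ring
      rw [e0, e1]; linarith

lemma Lm_iter_lip_one (j : ℕ) {p q : E} (hp : lam p = 1) (hq : lam q = 1) :
    ‖Lm^[j] p - Lm^[j] q‖ ≤ 8 * 2 ^ j * ‖p - q‖ := by
  obtain ⟨x, y, x', y', h1, h2, h3⟩ := exists_lifts hp hq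
  obtain ⟨c, hc⟩ := Lm_iter_Pc j
  conv_lhs => rw [← h1, ← h2]
  rw [hc, hc]
  refine (Pc_lip _ _ _ _).trans ?_
  have e0 : |2 ^ j * x + c - (2 ^ j * x' + c)| = 2 ^ j * |x - x'| := by
    rw [show 2 ^ j * x + c - (2 ^ j * x' + c) = 2 ^ j * (x - x') by ring, abs_mul,
      abs_of_nonneg (by positivity : (0 : ℝ) ≤ 2 ^ j)]
  have e1 : |2 ^ j * y - 2 ^ j * y'| = 2 ^ j * |y - y'| := by
    rw [← mul_sub, abs_mul, abs_of_nonneg (by positivity : (0 : ℝ) ≤ 2 ^ j)]
  rw [e0, e1]
  have h4 : (0 : ℝ) ≤ 2 ^ j := by positivity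
  nlinarith [mul_le_mul_of_nonneg_left h3 h4]

lemma Lm_iter_zero (j : ℕ) : Lm^[j] (0 : E) = 0 := by
  have := Lm_iter_smul j (le_refl (0 : ℝ)) 0
  simpa using this

/-- uniform Lipschitz bound for the iterates of the Lattes map -/
lemma Lm_iter_lip (j : ℕ) (p q : E) : ‖Lm^[j] p - Lm^[j] q‖ ≤ 44 * 2 ^ j * ‖p - q‖ := by
  have h1j : (1 : ℝ) ≤ 2 ^ j := one_le_pow₀ (by norm_num)
  have key0 : ∀ q : E, ‖Lm^[j] q‖ ≤ 4 * ‖q‖ := by
    intro q
    have h1 := norm_le_lam (Lm^[j] q)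
    rw [lam_Lm_iter] at h1
    have h2 := lam_le_norm q
    linarith
  have zero_of : ∀ p : E, lam p = 0 → p = 0 := by
    intro p hp
    have := norm_le_lam p
    rw [hp, mul_zero] at this
    exact norm_le_zero_iff.mp this
  by_cases hp : lam p = 0
  · rw [zero_of p hp, Lm_iter_zero, zero_sub, zero_sub, norm_neg, norm_neg]
    have := key0 q
    nlinarith [norm_nonneg q]
  by_cases hq : lam q = 0
  · rw [zero_of q hq, Lm_iter_zero, sub_zero, sub_zero]
    have := key0 p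
    nlinarith [norm_nonneg p]
  have hp' : 0 < lam p := lt_of_le_of_ne (lam_nonneg p) (Ne.symm hp)
  have hq' : 0 < lam q := lt_of_le_of_ne (lam_nonneg q) (Ne.symm hq)
  set α := lam p with hα
  set β := lam q with hβ
  set p' := α⁻¹ • p with hp'def
  set q' := β⁻¹ • q with hq'def
  have lp : lam p' = 1 := by
    rw [hp'def, lam_smul (inv_nonneg.mpr hp'.le), ← hα]; field_simp
  have lq : lam q' = 1 := by
    rw [hq'def, lam_smul (inv_nonneg.mpr hq'.le), ← hβ]; field_simp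
  have ep : p = α • p' := by rw [hp'def, smul_smul, mul_inv_cancel₀ hp, one_smul]
  have eq : q = β • q' := by rw [hq'def, smul_smul, mul_inv_cancel₀ hq, one_smul]
  have e1 : Lm^[j] p - Lm^[j] q = α • (Lm^[j] p' - Lm^[j] q') + (α - β) • Lm^[j] q' := by
    conv_lhs => rw [ep, eq]
    rw [Lm_iter_smul j hp'.le, Lm_iter_smul j hq'.le, smul_sub, sub_smul]; abel
  have e2 : α • (p' - q') = (p - q) + (β - α) • q' := by
    conv_rhs => rw [ep, eq]
    rw [smul_sub, sub_smul]; abel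
  have nq' : ‖q'‖ ≤ 2 := by have := norm_le_lam q'; rw [lq] at this; linarith
  have nLq' : ‖Lm^[j] q'‖ ≤ 2 := by
    have := norm_le_lam (Lm^[j] q'); rw [lam_Lm_iter, lq] at this; linarith
  have hαβ : |α - β| ≤ 2 * ‖p - q‖ := abs_lam_sub_le p q
  have h3 : α * ‖p' - q'‖ ≤ 5 * ‖p - q‖ := by
    have : α * ‖p' - q'‖ = ‖α • (p' - q')‖ := by
      rw [norm_smul, Real.norm_eq_abs, abs_of_nonneg hp'.le]
    rw [this, e2]
    refine (norm_add_le _ _).trans ?_
    rw [norm_smul, Real.norm_eq_abs, abs_sub_comm]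
    have := mul_le_mul hαβ nq' (norm_nonneg _) (by positivity)
    linarith
  rw [e1]
  refine (norm_add_le _ _).trans ?_
  rw [norm_smul, norm_smul, Real.norm_eq_abs, Real.norm_eq_abs, abs_of_nonneg hp'.le]
  have h4 := mul_le_mul_of_nonneg_left (Lm_iter_lip_one j lp lq) hp'.le
  have h5 : |α - β| * ‖Lm^[j] q'‖ ≤ 4 * ‖p - q‖ := by
    have := mul_le_mul hαβ nLq' (norm_nonneg _) (by positivity)
    linarith
  have h6 : (0 : ℝ) ≤ 2 ^ j := by positivity
  have h7 := mul_le_mul_of_nonneg_left h3 h6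
  have h8 := norm_nonneg (p - q)
  nlinarith

/-! ### linear pieces -/

/-- the linear pieces of `Dm` -/
def PM (i : Fin 5) (ξ η ζ : ℝ) : Matrix (Fin 3) (Fin 3) ℝ :=
  match i with
  | 0 => !![1, 0, 0; -ξ, 2 * η, -ζ; 0, 2 * ζ, 0]
  | 1 => !![1, 0, 0; -ξ, 2 * η, -ζ; 0, 0, η]
  | 2 => !![1, 0, 0; 0, η, -ζ; 0, 2 * ζ, 0]
  | 3 => !![1, 0, 0; 0, η, -ζ; 0, 0, 2 * η]
  | 4 => !![1, 0, 0; 0, η, -ζ; -(η * ζ * ξ), ζ, η]

/-- sign attached to a boolean -/
def sgb (b : Bool) : ℝ := if b then 1 else -1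

lemma sgb_sq (b : Bool) : sgb b * sgb b = 1 := by cases b <;> norm_num [sgb]

lemma exists_sgb (x : ℝ) : ∃ b : Bool, |x| = sgb b * x := by
  rcases abs_choice x with h | h
  · exact ⟨true, by rw [h]; simp [sgb]⟩
  · exact ⟨false, by rw [h]; simp [sgb]⟩

/-- linear map of a matrix -/
def clm (M : Matrix (Fin 3) (Fin 3) ℝ) : E →L[ℝ] E := Matrix.toEuclideanCLM (𝕜 := ℝ) M

lemma clm_apply (M : Matrix (Fin 3) (Fin 3) ℝ) (v : E) (i : Fin 3) :
    clm M v i = M i 0 * v 0 + M i 1 * v 1 + M i 2 * v 2 := by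
  have : clm M v i = (M.mulVec (WithLp.ofLp v)) i := rfl
  rw [this, Matrix.mulVec, dotProduct, Fin.sum_univ_three]

lemma clm_mul (M N : Matrix (Fin 3) (Fin 3) ℝ) : clm (M * N) = (clm M).comp (clm N) := by
  unfold clm; rw [map_mul]; rfl

lemma det_clm (M : Matrix (Fin 3) (Fin 3) ℝ) : LinearMap.det (clm M).toLinearMap = M.det := by
  have h : (clm M).toLinearMap = Matrix.toEuclideanLin M := Matrix.coe_toEuclideanCLM_eq_toEuclideanLin M
  rw [h]
  rw [Matrix.toEuclideanLin_eq_toLin]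
  exact LinearMap.det_toLin _ _

lemma PM_det (i : Fin 5) (b1 b2 b3 : Bool) : (PM i (sgb b1) (sgb b2) (sgb b3)).det = 2 := by
  have h2 := sgb_sq b2
  have h3 := sgb_sq b3
  fin_cases i <;> simp [PM, Matrix.det_fin_three] <;> nlinarith

lemma mm_sign {a b σ τ : ℝ} (hσ : σ * σ = 1) (hτ : τ * τ = 1) (ha : |a| = σ * a) (hb : |b| = τ * b) :
    mm a b = σ * τ * min |a| |b| := by
  have hσ' : σ = 1 ∨ σ = -1 := mul_self_eq_one_iff.mp hσ
  have hτ' : τ = 1 ∨ τ = -1 := mul_self_eq_one_iff.mp hτ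
  rcases hσ' with rfl | rfl <;> rcases hτ' with rfl | rfl
  · have h1 : 0 ≤ a := by have := abs_nonneg a; linarith
    have h2 : 0 ≤ b := by have := abs_nonneg b; linarith
    rw [mm_of_nonneg h1 h2, ha, hb]; simp
  · have h1 : 0 ≤ a := by have := abs_nonneg a; linarith
    have h2 : 0 ≤ -b := by have := abs_nonneg b; linarith
    have := mm_of_nonneg h1 h2
    rw [mm_neg_right] at this
    rw [ha, hb]
    simp only [one_mul, mul_neg, neg_mul, mul_one] at *
    linarith
  · have h1 : 0 ≤ -a := by have := abs_nonneg a; linarith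
    have h2 : 0 ≤ b := by have := abs_nonneg b; linarith
    have := mm_of_nonneg h1 h2
    rw [mm_neg_left] at this
    rw [ha, hb]
    simp only [one_mul, mul_neg, neg_mul, mul_one] at *
    linarith
  · have h1 : 0 ≤ -a := by have := abs_nonneg a; linarith
    have h2 : 0 ≤ -b := by have := abs_nonneg b; linarith
    have := mm_of_nonneg h1 h2
    rw [mm_neg_left, mm_neg_right] at this
    rw [ha, hb]
    simp only [one_mul, mul_neg, neg_mul, mul_one, neg_neg] at *
    linarith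

lemma cl_sign {b q σ : ℝ} (hσ : σ * σ = 1) (hb : 0 ≤ b) (hq : |q| = σ * q) :
    cl b q = σ * min b |q| := by
  rcases mul_self_eq_one_iff.mp hσ with rfl | rfl
  · have : 0 ≤ q := by have := abs_nonneg q; linarith
    rw [cl_of_nonneg hb this, abs_of_nonneg this, one_mul]
  · have : 0 ≤ -q := by have := abs_nonneg q; linarith
    have h := cl_of_nonneg hb this
    rw [cl_neg _ hb] at h
    rw [abs_of_nonpos (by linarith)]
    linarith

lemma Dm_pieces (p : E) : ∃ (i : Fin 5) (b1 b2 b3 : Bool),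
    Dm p = clm (PM i (sgb b1) (sgb b2) (sgb b3)) p := by
  obtain ⟨b1, h1⟩ := exists_sgb (p 0)
  obtain ⟨b2, h2⟩ := exists_sgb (p 1)
  obtain ⟨b3, h3⟩ := exists_sgb (p 2)
  have s1 := sgb_sq b1
  have s2 := sgb_sq b2
  have s3 := sgb_sq b3
  set ξ := sgb b1
  set η := sgb b2
  set ζ := sgb b3
  have hmm : mm (p 1) (p 2) = η * ζ * min |p 1| |p 2| := mm_sign s2 s3 h2 h3
  have hσ : (η * ζ) * (η * ζ) = 1 := by nlinarith
  have hq : |2 * mm (p 1) (p 2)| = (η * ζ) * (2 * mm (p 1) (p 2)) := by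
    rw [hmm, abs_mul, abs_mul, abs_of_nonneg (le_min (abs_nonneg (p 1)) (abs_nonneg (p 2)))]
    have : |η * ζ| = 1 := by
      rcases mul_self_eq_one_iff.mp hσ with h | h <;> rw [h] <;> norm_num
    rw [this]; norm_num
    linear_combination (-2 * min |p 1| |p 2|) * hσ
  have hcl := cl_sign hσ (be_nonneg p) hq
  have habs : |2 * mm (p 1) (p 2)| = 2 * min |p 1| |p 2| := by
    rw [abs_mul, abs_mm]; norm_num
  rw [habs] at hcl
  have hbe : be p = |p 1| + |p 2| - min |p 0| |p 1| := rfl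
  have n0 := abs_nonneg (p 0)
  have n1 := abs_nonneg (p 1)
  have n2 := abs_nonneg (p 2)
  have fin : ∀ i : Fin 5, (2 * |p 1| - lam p = clm (PM i ξ η ζ) p 1) →
      (cl (be p) (2 * mm (p 1) (p 2)) = clm (PM i ξ η ζ) p 2) → 
      ∃ (i : Fin 5) (b1 b2 b3 : Bool), Dm p = clm (PM i (sgb b1) (sgb b2) (sgb b3)) p := by
    intro i e1 e2
    refine ⟨i, b1, b2, b3, ext3 ?_ e1 e2⟩
    rw [Dm_0, clm_apply]
    fin_cases i <;> simp [PM]
  rcases le_total |p 1| |p 0| with h | h
  · have hlam : lam p = |p 0| + |p 2| := by unfold lam; rw [max_eq_left h]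
    rw [min_eq_right h] at hbe
    rcases le_total (2 * |p 1|) |p 2| with h' | h'
    · -- piece 0
      apply fin 0
      · rw [hlam, clm_apply]; simp only [PM, Matrix.of_apply, Matrix.cons_val', Matrix.cons_val_zero,
          Matrix.cons_val_one, Matrix.cons_val_two, Matrix.head_cons, Matrix.tail_cons,
          Matrix.cons_val_fin_one, Matrix.head_fin_const]
        rw [h1, h2, h3]; simp; ring
      · rw [hcl, clm_apply, min_eq_left (by linarith : |p 1| ≤ |p 2|), min_eq_right (by linarith)]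
        simp [PM]
        rw [h2]
        linear_combination (2 * ζ * p 1) * s2
    · -- piece 1
      apply fin 1
      · rw [hlam, clm_apply]; simp [PM]
        rw [h1, h2, h3]; ring
      · have : min (be p) (2 * min |p 1| |p 2|) = |p 2| := by
          rw [hbe]
          rw [show |p 1| + |p 2| - |p 1| = |p 2| by ring]
          apply min_eq_left
          rcases le_total |p 1| |p 2| with h4 | h4
          · rw [min_eq_left h4]; exact h'
          · rw [min_eq_right h4]; linarith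
        rw [hcl, this, clm_apply]; simp [PM]
        rw [h3]
        linear_combination (η * p 2) * s3
  · have hlam : lam p = |p 1| + |p 2| := by unfold lam; rw [max_eq_right h]
    rw [min_eq_left h] at hbe
    rcases le_total (be p) (2 * min |p 1| |p 2|) with h' | h'
    · apply fin 4
      · rw [hlam, clm_apply]; simp [PM]
        rw [h2, h3]; ring
      · rw [hcl, min_eq_left h', clm_apply, hbe]; simp [PM]
        rw [h1, h2, h3]
        linear_combination (ζ * p 1) * s2 + (η * p 2) * s3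
    · rcases le_total |p 1| |p 2| with h4 | h4
      · rw [min_eq_left h4] at h' hcl
        apply fin 2
        · rw [hlam, clm_apply]; simp [PM]
          rw [h2, h3]; ring
        · rw [hcl, min_eq_right h', clm_apply]; simp [PM]
          rw [h2]
          linear_combination (2 * ζ * p 1) * s2
      · rw [min_eq_right h4] at h' hcl
        apply fin 3
        · rw [hlam, clm_apply]; simp [PM]
          rw [h2, h3]; ring
        · rw [hcl, min_eq_right h', clm_apply]; simp [PM]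
          rw [h3]
          linear_combination (2 * η * p 2) * s3

end Pool.Agent.Helper13.FD
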