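import Mathlib
import Pool.Agent.Helper13.FD.PL2
import Pool.Agent.Helper13.FD.Deriv

/-!
The map `ff`: definition, local Lipschitz continuity away from the axis, size bounds.
-/

set_option autoImplicit false
set_option linter.unusedVariables false

noncomputable section

open Filter Topology MeasureTheory Set

namespace Pool.Agent.Helper13.FD

/-- distance to the axis in the `ℓ¹` norm -/
def rr (x : E) : ℝ := |x 0| + |x 1|

/-- `t = log (1/r)` -/
def tt (x : E) : ℝ := -Real.log (rr x)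

/-- `L = log t` -/
def LL (x : E) : ℝ := Real.log (tt x)

/-- `N = t ^ h` -/
def NN (x : E) : ℝ := Real.exp (x 2 * LL x)

/-- `R = t ^ ((h+1)/2)` -/
def RR (x : E) : ℝ := Real.exp ((x 2 + 1) / 2 * LL x)

/-- `M = t ^ ((h-1)/2)` -/
def MM (x : E) : ℝ := Real.exp ((x 2 - 1) / 2 * LL x)

/-- `κ = log₂ M` -/
def kap (x : E) : ℝ := (x 2 - 1) * LL x / (2 * Real.log 2)

/-- first coordinate on the diamond -/
def aa (x : E) : ℝ := x 0 / rr x

/-- second coordinate on the diamond -/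
def bb (x : E) : ℝ := x 1 / rr x

/-- the height parameter at level `j` -/
def YY (j : ℕ) (x : E) : ℝ := NN x / 4 ^ (j + 1)

/-- the constant bounding `t` from below -/
def t0 : ℝ := 10 ^ 12

/-- the domain -/
def Om : Set E := {x | rr x < Real.exp (-t0) ∧ 1 < x 2 ∧ x 2 < 2}

/-- the domain without the axis -/
def U0 : Set E := {x | 0 < rr x ∧ rr x < Real.exp (-t0) ∧ 1 < x 2 ∧ x 2 < 2}

/-- truncation to `[0,1]` -/
def c01 (x : ℝ) : ℝ := max 0 (min 1 x)

lemma c01_nonneg (x : ℝ) : 0 ≤ c01 x := le_max_left _ _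
lemma c01_le_one (x : ℝ) : c01 x ≤ 1 := max_le zero_le_one (min_le_left _ _)
lemma c01_of_nonpos {x : ℝ} (h : x ≤ 0) : c01 x = 0 := by
  unfold c01; rw [min_eq_right (by linarith), max_eq_left h]
lemma c01_of_ge {x : ℝ} (h : 1 ≤ x) : c01 x = 1 := by
  unfold c01; rw [min_eq_left h, max_eq_right zero_le_one]
lemma c01_of_mem {x : ℝ} (h : 0 ≤ x) (h1 : x ≤ 1) : c01 x = x := by
  unfold c01; rw [min_eq_right h1, max_eq_right h]
lemma c01_lip (x y : ℝ) : |c01 x - c01 y| ≤ |x - y| := by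
  unfold c01
  have h1 := abs_max_sub_max_le_max (0 : ℝ) (min 1 x) 0 (min 1 y)
  have h2 := abs_min_sub_min_le_max (1 : ℝ) x 1 y
  have h3 : max |(1 : ℝ) - 1| |x - y| ≤ |x - y| := by
    rw [sub_self, abs_zero]; exact max_le (abs_nonneg _) le_rfl
  have h4 : max |(0 : ℝ) - 0| |min 1 x - min 1 y| ≤ |min 1 x - min 1 y| := by
    rw [sub_self, abs_zero]; exact max_le (abs_nonneg _) le_rfl
  exact h1.trans (h4.trans (h2.trans h3))

/-- the composition of the first `J` transition maps -/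
def Gc (k : ℝ) : ℕ → E → E
  | 0, p => p
  | (J + 1), p => Gc k J (wm (c01 (k - J)) p)

/-- the spherical part, using `J` transition maps -/
def SS (J : ℕ) (x : E) : E := Gc (kap x) J (base (aa x) (bb x) (NN x / 4 ^ J))

/-- the map -/
def ff (x : E) : E := if rr x = 0 then 0 else Real.exp (-RR x) • SS ⌈kap x⌉₊ x

/-! ### algebra of the composition -/

lemma wm_zero_base {a b : ℝ} (hab : |a| + |b| = 1) (Y : ℝ) :
    wm 0 (base a b Y) = base a b (4 * Y) := by
  unfold wm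
  rw [Am_zero, Bm_zero, Dm_base hab, Dm_base hab]
  congr 1; ring

lemma Gc_succ_of_le {k : ℝ} {J : ℕ} (h : k ≤ J) {a b : ℝ} (hab : |a| + |b| = 1) (N : ℝ) :
    Gc k (J + 1) (base a b (N / 4 ^ (J + 1))) = Gc k J (base a b (N / 4 ^ J)) := by
  show Gc k J (wm (c01 (k - J)) _) = _
  rw [c01_of_nonpos (by linarith), wm_zero_base hab]
  congr 2
  rw [pow_succ]; field_simp

lemma Gc_of_le {k : ℝ} {J J' : ℕ} (h : k ≤ J) (hJ : J ≤ J') {a b : ℝ} (hab : |a| + |b| = 1)
    (N : ℝ) : Gc k J' (base a b (N / 4 ^ J')) = Gc k J (base a b (N / 4 ^ J)) := by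
  induction J', hJ using Nat.le_induction with
  | base => rfl
  | succ n hn ih =>
    rw [Gc_succ_of_le _ hab, ih]
    have : (J : ℝ) ≤ n := by exact_mod_cast hn
    linarith

lemma Gc_eq_iterate {k : ℝ} {J : ℕ} (h : (J : ℝ) ≤ k) (p : E) : Gc k J p = Lm^[J] p := by
  induction J generalizing p with
  | zero => rfl
  | succ n ih =>
    push_cast at h
    show Gc k n (wm (c01 (k - n)) p) = _
    rw [c01_of_ge (by linarith), ih (by linarith), Function.iterate_succ_apply]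
    rfl

lemma abs_aa_add_abs_bb {x : E} (h : 0 < rr x) : |aa x| + |bb x| = 1 := by
  unfold aa bb
  rw [abs_div, abs_div, abs_of_pos h, ← add_div]
  exact div_self h.ne'

lemma SS_eq_of_le {x : E} (hx : 0 < rr x) {J J' : ℕ} (h : kap x ≤ J) (h' : kap x ≤ J') :
    SS J x = SS J' x := by
  unfold SS
  rcases le_total J J' with hJ | hJ
  · exact (Gc_of_le h hJ (abs_aa_add_abs_bb hx) _).symm
  · exact Gc_of_le h' hJ (abs_aa_add_abs_bb hx) _

lemma SS_of_mem {x : E} {j : ℕ} (h1 : (j : ℝ) ≤ kap x) (h2 : kap x ≤ j + 1) :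
    SS (j + 1) x = Lm^[j] (wm (kap x - j) (base (aa x) (bb x) (YY j x))) := by
  unfold SS YY
  show Gc (kap x) j (wm (c01 (kap x - j)) _) = _
  rw [c01_of_mem (by linarith) (by linarith), Gc_eq_iterate h1]

lemma ff_eq {x : E} (hx : 0 < rr x) {J : ℕ} (h : kap x ≤ J) :
    ff x = Real.exp (-RR x) • SS J x := by
  unfold ff
  rw [if_neg hx.ne', SS_eq_of_le hx (Nat.le_ceil _) h]

lemma ff_eq' {x : E} (hx : 0 < rr x) {j : ℕ} (h1 : (j : ℝ) ≤ kap x) (h2 : kap x ≤ j + 1) :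
    ff x = Real.exp (-RR x) • Lm^[j] (wm (kap x - j) (base (aa x) (bb x) (YY j x))) := by
  rw [ff_eq hx (J := j + 1) (by push_cast; exact h2), SS_of_mem h1 h2]

/-! ### elementary facts on the domain -/

lemma t0_pos : 0 < t0 := by unfold t0; norm_num

lemma tt_gt {x : E} (hx : x ∈ U0) : t0 < tt x := by
  have h := Real.log_lt_log hx.1 hx.2.1
  rw [Real.log_exp] at h
  unfold tt; linarith

lemma exp_neg_tt {x : E} (hx : 0 < rr x) : Real.exp (-tt x) = rr x := by
  unfold tt; rw [neg_neg, Real.exp_log hx]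

lemma exp_LL {x : E} (hx : 0 < tt x) : Real.exp (LL x) = tt x := Real.exp_log hx

lemma LL_pos {x : E} (hx : x ∈ U0) : 0 < LL x := by
  have h := tt_gt hx
  apply Real.log_pos
  have : (1 : ℝ) < t0 := by unfold t0; norm_num
  linarith

lemma LL_gt_one {x : E} (hx : x ∈ U0) : 1 < LL x := by
  have h := tt_gt hx
  have h1 : (10 : ℝ) < t0 := by unfold t0; norm_num
  have h2 : Real.exp 1 < 10 := by have := Real.exp_one_lt_d9; linarith
  have h3 : Real.exp 1 < tt x := by linarith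
  have := Real.log_lt_log (Real.exp_pos 1) h3
  rwa [Real.log_exp] at this

lemma kap_pos {x : E} (hx : x ∈ U0) : 0 < kap x := by
  have h := LL_pos hx
  have h2 := Real.log_pos (by norm_num : (1 : ℝ) < 2)
  have : 0 < x 2 - 1 := by linarith [hx.2.2.1]
  unfold kap; positivity

lemma MM_eq {x : E} : MM x = Real.exp (kap x * Real.log 2) := by
  unfold MM kap
  congr 1
  have h2 := Real.log_pos (by norm_num : (1 : ℝ) < 2)
  field_simp

lemma MM_ge {x : E} {j : ℕ} (h : (j : ℝ) ≤ kap x) : (2 : ℝ) ^ j ≤ MM x := by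
  rw [MM_eq]
  have h2 := Real.log_pos (by norm_num : (1 : ℝ) < 2)
  have : (2 : ℝ) ^ j = Real.exp (j * Real.log 2) := by
    rw [mul_comm, Real.exp_mul, Real.exp_log (by norm_num), Real.rpow_natCast]
  rw [this]
  exact Real.exp_le_exp.mpr (mul_le_mul_of_nonneg_right h h2.le)

lemma MM_le {x : E} {j : ℕ} (h : kap x ≤ j + 1) : MM x ≤ (2 : ℝ) ^ (j + 1) := by
  rw [MM_eq]
  have h2 := Real.log_pos (by norm_num : (1 : ℝ) < 2)
  have : (2 : ℝ) ^ (j + 1) = Real.exp (((j + 1 : ℕ) : ℝ) * Real.log 2) := by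
    rw [mul_comm, Real.exp_mul, Real.exp_log (by norm_num), Real.rpow_natCast]
  rw [this]
  push_cast
  exact Real.exp_le_exp.mpr (mul_le_mul_of_nonneg_right h h2.le)

lemma MM_ge_one {x : E} (hx : x ∈ U0) : 1 ≤ MM x := by
  have := MM_ge (x := x) (j := 0) (by exact_mod_cast (kap_pos hx).le)
  simpa using this

lemma RR_eq {x : E} (hx : 0 < tt x) : RR x = MM x * tt x := by
  unfold RR MM
  conv_rhs => rw [← exp_LL hx]
  rw [← Real.exp_add]
  congr 1
  ring

lemma NN_eq {x : E} (hx : 0 < tt x) : NN x = MM x ^ 2 * tt x := by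
  unfold NN MM
  conv_rhs => rw [← exp_LL hx]
  rw [sq, ← Real.exp_add, ← Real.exp_add]
  congr 1
  ring

lemma lam_base {a b : ℝ} (hab : |a| + |b| = 1) (Y : ℝ) : lam (base a b Y) = 1 := by
  have hTV := abs_T_add_abs_V Y
  show max |a| |T Y| + |mm b (V Y)| = 1
  rw [abs_mm]
  have hb : |b| = 1 - |a| := by linarith
  have hV : |V Y| = 1 - |T Y| := by linarith
  rw [hb, hV]
  rcases le_total |a| |T Y| with h | h
  · rw [max_eq_right h, min_eq_right (by linarith)]; ring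
  · rw [max_eq_left h, min_eq_left (by linarith)]; ring

lemma norm_base_le {a b : ℝ} (hab : |a| + |b| = 1) (Y : ℝ) : ‖base a b Y‖ ≤ 2 := by
  have := norm_le_lam (base a b Y)
  rw [lam_base hab] at this
  linarith

lemma wm_zero' (t : ℝ) : wm t 0 = 0 := by
  have := wm_smul t (le_refl (0 : ℝ)) 0
  simpa using this

lemma norm_wm_le {t : ℝ} (ht : 0 ≤ t) (ht1 : t ≤ 1) (p : E) : ‖wm t p‖ ≤ 6000 * ‖p‖ := by
  have := wm_lip (t' := t) ht ht1 ht ht1 p 0
  simpa [wm_zero'] using this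

lemma norm_Lm_iter_le (j : ℕ) (q : E) : ‖Lm^[j] q‖ ≤ 4 * ‖q‖ := by
  have h1 := norm_le_lam (Lm^[j] q)
  rw [lam_Lm_iter] at h1
  have h2 := lam_le_norm q
  linarith

lemma exists_level {x : E} (hx : x ∈ U0) : ∃ j : ℕ, (j : ℝ) ≤ kap x ∧ kap x ≤ j + 1 :=
  ⟨⌊kap x⌋₊, Nat.floor_le (kap_pos hx).le, (Nat.lt_floor_add_one _).le⟩

lemma norm_SS_le {x : E} (hx : x ∈ U0) {j : ℕ} (h1 : (j : ℝ) ≤ kap x) (h2 : kap x ≤ j + 1) :
    ‖Lm^[j] (wm (kap x - j) (base (aa x) (bb x) (YY j x)))‖ ≤ 48000 := by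
  refine (norm_Lm_iter_le _ _).trans ?_
  have h3 := norm_wm_le (t := kap x - j) (by linarith) (by linarith)
    (base (aa x) (bb x) (YY j x))
  have h4 := norm_base_le (abs_aa_add_abs_bb hx.1) (YY j x)
  linarith

lemma exp_neg_RR_le {x : E} (hx : x ∈ U0) : Real.exp (-RR x) ≤ rr x := by
  have ht := tt_gt hx
  have ht0 := t0_pos
  rw [← exp_neg_tt hx.1]
  apply Real.exp_le_exp.mpr
  rw [RR_eq (by linarith)]
  have := MM_ge_one hx
  nlinarith

lemma norm_ff_le {x : E} (hx : x ∈ U0) : ‖ff x‖ ≤ 48000 * rr x := by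
  obtain ⟨j, h1, h2⟩ := exists_level hx
  rw [ff_eq' hx.1 h1 h2, norm_smul, Real.norm_eq_abs, abs_of_pos (Real.exp_pos _)]
  have h3 := norm_SS_le hx h1 h2
  have h4 := exp_neg_RR_le hx
  have h5 := Real.exp_pos (-RR x)
  calc _ ≤ rr x * 48000 := mul_le_mul h4 h3 (norm_nonneg _) hx.1.le
    _ = _ := by ring

lemma rr_nonneg (x : E) : 0 ≤ rr x := by unfold rr; positivity

lemma norm_ff_le' {x : E} (hx : x ∈ Om) : ‖ff x‖ ≤ 48000 * rr x := by
  rcases (rr_nonneg x).eq_or_lt with h | h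
  · unfold ff; rw [if_pos h.symm, ← h]; simp
  · exact norm_ff_le ⟨h, hx⟩

/-! ### local Lipschitz continuity -/

lemma rr_lip (x y : E) : |rr x - rr y| ≤ 2 * ‖x - y‖ := by
  unfold rr
  have h0 := abs_abs_sub_abs_le_abs_sub (x 0) (y 0)
  have h1 := abs_abs_sub_abs_le_abs_sub (x 1) (y 1)
  have n0 := abs_le_norm (x - y) 0
  have n1 := abs_le_norm (x - y) 1
  simp only [PiLp.sub_apply] at n0 n1
  rw [show |x 0| + |x 1| - (|y 0| + |y 1|) = (|x 0| - |y 0|) + (|x 1| - |y 1|) by ring]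
  refine (abs_add_le _ _).trans ?_
  linarith

lemma lLip_rr (x : E) : LLip rr x :=
  lLip_of_bound (s := univ) univ_mem (by norm_num : (0 : ℝ) ≤ 2)
    fun p _ q _ => by rw [Real.norm_eq_abs]; exact rr_lip p q

lemma continuous_rr : Continuous rr := by
  unfold rr; fun_prop

/-- coordinate projection -/
def pr (i : Fin 3) : E →L[ℝ] ℝ := EuclideanSpace.proj i

@[simp] lemma pr_apply (i : Fin 3) (x : E) : pr i x = x i := rfl

lemma lLip_coord (i : Fin 3) (x : E) : LLip (fun y : E => y i) x :=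
  ((pr i).contDiff.contDiffAt : ContDiffAt ℝ 1 (pr i) x).lLip

lemma lLip_real {g : ℝ → ℝ} {f : E → ℝ} {x : E} (hg : ContDiffAt ℝ 1 g (f x)) (hf : LLip f x) :
    LLip (fun y => g (f y)) x := LLip.comp (g := g) hg.lLip hf

lemma lLip_tt {x : E} (hx : 0 < rr x) : LLip tt x :=
  (lLip_real (g := Real.log) (Real.contDiffAt_log.mpr hx.ne') (lLip_rr x)).neg

lemma lLip_LL {x : E} (hx : 0 < rr x) (ht : 0 < tt x) : LLip LL x :=
  lLip_real (g := Real.log) (Real.contDiffAt_log.mpr ht.ne') (lLip_tt hx)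

lemma lLip_NN {x : E} (hx : 0 < rr x) (ht : 0 < tt x) : LLip NN x :=
  lLip_real (g := Real.exp) Real.contDiff_exp.contDiffAt ((lLip_coord 2 x).mul (lLip_LL hx ht))

lemma lLip_RR {x : E} (hx : 0 < rr x) (ht : 0 < tt x) : LLip RR x := by
  have h1 : LLip (fun y : E => (y 2 + 1) / 2) x := by
    have : ContDiffAt ℝ 1 (fun y : E => (pr 2 y + 1) / 2) x := by fun_prop
    exact this.lLip
  exact lLip_real (g := Real.exp) Real.contDiff_exp.contDiffAt (h1.mul (lLip_LL hx ht))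

lemma lLip_kap {x : E} (hx : 0 < rr x) (ht : 0 < tt x) : LLip kap x := by
  have h1 : LLip (fun y : E => (y 2 - 1)) x := by
    have : ContDiffAt ℝ 1 (fun y : E => (pr 2 y - 1)) x := by fun_prop
    exact this.lLip
  have h2 := (h1.mul (lLip_LL hx ht)).mul (lLip_const (1 / (2 * Real.log 2)) x)
  refine h2.congr (Eventually.of_forall fun y => ?_)
  show (y 2 - 1) * LL y * (1 / (2 * Real.log 2)) = (y 2 - 1) * LL y / (2 * Real.log 2)
  ring

lemma lLip_aa {x : E} (hx : 0 < rr x) : LLip aa x := by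
  have h1 := lLip_real (g := fun s : ℝ => s⁻¹) (contDiffAt_inv ℝ hx.ne') (lLip_rr x)
  exact (lLip_coord 0 x).mul h1

lemma lLip_bb {x : E} (hx : 0 < rr x) : LLip bb x := by
  have h1 := lLip_real (g := fun s : ℝ => s⁻¹) (contDiffAt_inv ℝ hx.ne') (lLip_rr x)
  exact (lLip_coord 1 x).mul h1

lemma fst_norm_le {X Y : Type*} [NormedAddCommGroup X] [NormedAddCommGroup Y] (p q : X × Y) :
    ‖p.1 - q.1‖ ≤ ‖p - q‖ := norm_fst_le (p - q)

lemma snd_norm_le {X Y : Type*} [NormedAddCommGroup X] [NormedAddCommGroup Y] (p q : X × Y) :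
    ‖p.2 - q.2‖ ≤ ‖p - q‖ := norm_snd_le (p - q)

/-- `base` as a function of a triple -/
def base3 (p : ℝ × ℝ × ℝ) : E := base p.1 p.2.1 p.2.2

lemma base3_lip (p q : ℝ × ℝ × ℝ) : ‖base3 p - base3 q‖ ≤ 4 * ‖p - q‖ := by
  have h := norm_le_sum (base3 p - base3 q)
  have e0 : (base3 p - base3 q) 0 = p.1 - q.1 := rfl
  have e1 : (base3 p - base3 q) 1 = T p.2.2 - T q.2.2 := rfl
  have e2 : (base3 p - base3 q) 2 = mm p.2.1 (V p.2.2) - mm q.2.1 (V q.2.2) := rfl
  rw [e0, e1, e2] at h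
  have n0 : |p.1 - q.1| ≤ ‖p - q‖ := fst_norm_le p q
  have n' : ‖p.2 - q.2‖ ≤ ‖p - q‖ := snd_norm_le p q
  have n1 : |p.2.1 - q.2.1| ≤ ‖p - q‖ := (fst_norm_le p.2 q.2).trans n'
  have n2 : |p.2.2 - q.2.2| ≤ ‖p - q‖ := (snd_norm_le p.2 q.2).trans n'
  have h1 := T_lip p.2.2 q.2.2
  have h2 := mm_lip p.2.1 (V p.2.2) q.2.1 (V q.2.2)
  have h3 := V_lip p.2.2 q.2.2
  linarith

lemma lLip_base3 (p : ℝ × ℝ × ℝ) : LLip base3 p :=
  lLip_of_bound (s := univ) univ_mem (by norm_num : (0 : ℝ) ≤ 4) fun p _ q _ => base3_lip p q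

lemma lLip_wm01 (p : ℝ × E) : LLip (fun p : ℝ × E => wm (c01 p.1) p.2) p := by
  refine lLip_of_bound (s := Metric.ball p 1) (Metric.ball_mem_nhds p one_pos)
    (K := 6000 + 6000 * (‖p.2‖ + 1)) (by positivity) ?_
  intro u hu v hv
  have h1 := wm_lip (c01_nonneg u.1) (c01_le_one u.1) (c01_nonneg v.1) (c01_le_one v.1) u.2 v.2
  have h2 := c01_lip u.1 v.1
  have n1 : |u.1 - v.1| ≤ ‖u - v‖ := fst_norm_le u v
  have n2 : ‖u.2 - v.2‖ ≤ ‖u - v‖ := snd_norm_le u v
  have n3 : ‖v.2‖ ≤ ‖p.2‖ + 1 := by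
    have h3 : ‖v - p‖ < 1 := by rw [← dist_eq_norm]; exact hv
    have h4 : ‖v.2 - p.2‖ ≤ ‖v - p‖ := snd_norm_le v p
    have h5 := norm_le_norm_add_norm_sub' v.2 p.2
    linarith
  have h6 : |c01 u.1 - c01 v.1| * ‖v.2‖ ≤ ‖u - v‖ * (‖p.2‖ + 1) :=
    mul_le_mul (h2.trans n1) n3 (norm_nonneg _) (norm_nonneg _)
  nlinarith

lemma lLip_fst_sub (n : ℝ) (p : ℝ × E) : LLip (fun p : ℝ × E => (p.1 - n, p.2)) p := by
  have : ContDiffAt ℝ 1 (fun p : ℝ × E => (p.1 - (n : ℝ), p.2)) p :=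
    ((contDiff_fst.sub contDiff_const).prodMk contDiff_snd).contDiffAt
  exact this.lLip

lemma lLip_wm_sub (n : ℝ) (p : ℝ × E) : LLip (fun p : ℝ × E => wm (c01 (p.1 - n)) p.2) p :=
  LLip.comp (f := fun p : ℝ × E => (p.1 - n, p.2)) (g := fun p : ℝ × E => wm (c01 p.1) p.2)
    (x := p) (lLip_wm01 (p.1 - n, p.2)) (lLip_fst_sub n p)

lemma lLip_fst (p : ℝ × E) : LLip (fun p : ℝ × E => p.1) p :=
  (contDiff_fst.contDiffAt : ContDiffAt ℝ 1 (fun p : ℝ × E => p.1) p).lLip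

/-- auxiliary map -/
def stepG (n : ℝ) (p : ℝ × E) : ℝ × E := (p.1, wm (c01 (p.1 - n)) p.2)

lemma lLip_stepG (n : ℝ) (p : ℝ × E) : LLip (stepG n) p :=
  LLip.prodMk (f := fun p : ℝ × E => p.1) (g := fun p : ℝ × E => wm (c01 (p.1 - n)) p.2)
    (lLip_fst p) (lLip_wm_sub n p)

/-- uncurried composition -/
def Gcu (J : ℕ) (p : ℝ × E) : E := Gc p.1 J p.2

lemma lLip_Gcu (J : ℕ) (p : ℝ × E) : LLip (Gcu J) p := by
  induction J generalizing p with
  | zero => exact (contDiff_snd.contDiffAt : ContDiffAt ℝ 1 (fun p : ℝ × E => p.2) p).lLip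
  | succ n ih =>
    exact LLip.comp (f := stepG n) (g := Gcu n) (x := p) (ih (stepG n p)) (lLip_stepG n p)

/-- the triple of parameters -/
def tri (J : ℕ) (y : E) : ℝ × ℝ × ℝ := (aa y, bb y, NN y / 4 ^ J)

lemma lLip_tri (J : ℕ) {x : E} (hx : 0 < rr x) (ht : 0 < tt x) : LLip (tri J) x := by
  have h1 : LLip (fun y => NN y / 4 ^ J) x := by
    have := (lLip_NN hx ht).mul (lLip_const (1 / 4 ^ J) x)
    refine this.congr (Eventually.of_forall fun y => ?_)
    show NN y * (1 / 4 ^ J) = _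
    ring
  exact LLip.prodMk (f := aa) (g := fun y => (bb y, NN y / 4 ^ J)) (lLip_aa hx)
    (LLip.prodMk (f := bb) (g := fun y => NN y / 4 ^ J) (lLip_bb hx) h1)

/-- the base at level `J` -/
def bas (J : ℕ) (y : E) : E := base (aa y) (bb y) (NN y / 4 ^ J)

lemma lLip_bas (J : ℕ) {x : E} (hx : 0 < rr x) (ht : 0 < tt x) : LLip (bas J) x :=
  LLip.comp (f := tri J) (g := base3) (x := x) (lLip_base3 _) (lLip_tri J hx ht)

lemma lLip_SS (J : ℕ) {x : E} (hx : 0 < rr x) (ht : 0 < tt x) : LLip (SS J) x :=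
  LLip.comp (f := fun y => (kap y, bas J y)) (g := Gcu J) (x := x) (lLip_Gcu J _)
    (LLip.prodMk (f := kap) (g := bas J) (lLip_kap hx ht) (lLip_bas J hx ht))

lemma isOpen_U0 : IsOpen U0 := by
  have h2 : Continuous (fun x : E => x 2) := (pr 2).continuous
  have : U0 = {x | 0 < rr x} ∩ ({x | rr x < Real.exp (-t0)} ∩ ({x | 1 < x 2} ∩ {x | x 2 < 2})) := rfl
  rw [this]
  exact (isOpen_lt continuous_const continuous_rr).inter
    ((isOpen_lt continuous_rr continuous_const).inter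
      ((isOpen_lt continuous_const h2).inter (isOpen_lt h2 continuous_const)))

lemma isOpen_Om : IsOpen Om := by
  have h2 : Continuous (fun x : E => x 2) := (pr 2).continuous
  have : Om = ({x | rr x < Real.exp (-t0)} ∩ ({x | 1 < x 2} ∩ {x | x 2 < 2})) := rfl
  rw [this]
  exact (isOpen_lt continuous_rr continuous_const).inter
      ((isOpen_lt continuous_const h2).inter (isOpen_lt h2 continuous_const))

lemma tt_pos {x : E} (hx : x ∈ U0) : 0 < tt x := t0_pos.trans (tt_gt hx)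

lemma lLip_ff {x : E} (hx : x ∈ U0) : LLip ff x := by
  have ht := tt_pos hx
  have h1 := (lLip_real (g := Real.exp) Real.contDiff_exp.contDiffAt (lLip_RR hx.1 ht).neg).smul
    (lLip_SS (⌈kap x⌉₊ + 1) hx.1 ht)
  refine h1.congr ?_
  have hk := (lLip_kap hx.1 ht).continuousAt
  have hlt : kap x < ((⌈kap x⌉₊ + 1 : ℕ) : ℝ) := by
    push_cast
    have := Nat.le_ceil (kap x)
    linarith
  filter_upwards [hk.eventually_lt continuousAt_const hlt, isOpen_U0.mem_nhds hx] with y hy hyU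
  exact (ff_eq hyU.1 hy.le).symm

lemma continuousOn_ff : ContinuousOn ff Om := by
  intro x hx
  rcases (rr_nonneg x).eq_or_lt with h | h
  · have hz : ff x = 0 := by unfold ff; rw [if_pos h.symm]
    apply ContinuousAt.continuousWithinAt
    rw [ContinuousAt, hz, tendsto_zero_iff_norm_tendsto_zero]
    have h1 : Tendsto (fun y => 48000 * rr y) (𝓝 x) (𝓝 0) := by
      have := (continuous_rr.tendsto x).const_mul 48000
      rw [← h] at this
      simpa using this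
    refine squeeze_zero' (Eventually.of_forall fun y => norm_nonneg _) ?_ h1
    filter_upwards [isOpen_Om.mem_nhds hx] with y hy
    exact norm_ff_le' hy
  · exact (lLip_ff ⟨h, hx⟩).continuousAt.continuousWithinAt

end Pool.Agent.Helper13.FD
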