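import Mathlib
import Pool.Agent.Helper13.FD.Map

/-!
Derivative bookkeeping: rows, matrices, the steps `Am`, `Dm`, `Bm`, `Dm`.
-/

set_option autoImplicit false
set_option linter.unusedVariables false
set_option linter.unusedSimpArgs false
set_option linter.deprecated false

noncomputable section

open Filter Topology MeasureTheory Set Matrix

namespace Pool.Agent.Helper13.FD

/-- linear functional of a row -/
def row (v : Fin 3 → ℝ) : E →L[ℝ] ℝ := v 0 • pr 0 + v 1 • pr 1 + v 2 • pr 2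

lemma row_apply (v : Fin 3 → ℝ) (x : E) : row v x = v 0 * x 0 + v 1 * x 1 + v 2 * x 2 := rfl

lemma clext {f g : E →L[ℝ] ℝ} (h : ∀ v : E, f v = g v) : f = g := ContinuousLinearMap.ext h

lemma hasFDerivAt_clm_iff {g : E → E} {M : Matrix (Fin 3) (Fin 3) ℝ} {x : E} :
    HasFDerivAt g (clm M) x ↔ ∀ i, HasFDerivAt (fun y => g y i) (row (M i)) x := by
  rw [← hasFDerivWithinAt_univ, hasFDerivWithinAt_euclidean]
  refine forall_congr' fun i => ?_
  rw [hasFDerivWithinAt_univ]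
  have : (PiLp.proj 2 (fun _ : Fin 3 => ℝ) i : E →L[ℝ] ℝ).comp (clm M) = row (M i) := by
    apply clext
    intro v
    exact clm_apply M v i
  rw [this]

lemma clm_inj {M N : Matrix (Fin 3) (Fin 3) ℝ} (h : clm M = clm N) : M = N :=
  (Matrix.toEuclideanCLM (𝕜 := ℝ)).injective h

lemma clm_smul (c : ℝ) (M : Matrix (Fin 3) (Fin 3) ℝ) : clm (c • M) = c • clm M :=
  map_smul (Matrix.toEuclideanCLM (𝕜 := ℝ)) c M

/-- matrix of `Am t` -/
def AmM (t : ℝ) : Matrix (Fin 3) (Fin 3) ℝ := !![1 - t, t, 0; -t, 1 - t, 0; 0, 0, 1]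
/-- matrix of `Bm t` -/
def BmM (t : ℝ) : Matrix (Fin 3) (Fin 3) ℝ := !![1 - t, -t, 0; t, 1 - t, 0; 0, 0, 1]
/-- derivative of `AmM` -/
def Ap : Matrix (Fin 3) (Fin 3) ℝ := !![-1, 1, 0; -1, -1, 0; 0, 0, 0]
/-- derivative of `BmM` -/
def Bp : Matrix (Fin 3) (Fin 3) ℝ := !![-1, -1, 0; 1, -1, 0; 0, 0, 0]

lemma mul_apply3 (M N : Matrix (Fin 3) (Fin 3) ℝ) (i j : Fin 3) :
    (M * N) i j = M i 0 * N 0 j + M i 1 * N 1 j + M i 2 * N 2 j := by
  rw [Matrix.mul_apply, Fin.sum_univ_three]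

lemma mulVec_apply3 (M : Matrix (Fin 3) (Fin 3) ℝ) (v : Fin 3 → ℝ) (i : Fin 3) :
    (M *ᵥ v) i = M i 0 * v 0 + M i 1 * v 1 + M i 2 * v 2 := by
  rw [Matrix.mulVec, dotProduct, Fin.sum_univ_three]

lemma vecMul_apply3 (M : Matrix (Fin 3) (Fin 3) ℝ) (v : Fin 3 → ℝ) (i : Fin 3) :
    (v ᵥ* M) i = v 0 * M 0 i + v 1 * M 1 i + v 2 * M 2 i := by
  rw [Matrix.vecMul, dotProduct, Fin.sum_univ_three]

/-- the state of the computation -/
structure St (g : E → E) (x : E) (l : ℝ) (k : Fin 3 → ℝ) (Em G : Matrix (Fin 3) (Fin 3) ℝ)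
    (q p : Fin 3 → ℝ) : Prop where
  val : ∀ i, g x i = l * p i
  der : HasFDerivAt g (clm (l • ((G + Matrix.vecMulVec q k) * Em))) x

lemma St.Am {g : E → E} {x : E} {l : ℝ} {k : Fin 3 → ℝ} {Em G : Matrix (Fin 3) (Fin 3) ℝ}
    {q p : Fin 3 → ℝ} {τ : E → ℝ} (h : St g x l k Em G q p)
    (hτ : HasFDerivAt τ (row (k ᵥ* Em)) x) :
    St (fun y => Am (τ y) (g y)) x l k Em (AmM (τ x) * G) (AmM (τ x) *ᵥ q + Ap *ᵥ p)
      (AmM (τ x) *ᵥ p) := by
  obtain ⟨hv, hd⟩ := h
  rw [hasFDerivAt_clm_iff] at hd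
  constructor
  · intro i
    rw [mulVec_apply3]
    fin_cases i
    · show (1 - τ x) * g x 0 + τ x * g x 1 = _
      rw [hv, hv]; simp [AmM]; ring
    · show -τ x * g x 0 + (1 - τ x) * g x 1 = _
      rw [hv, hv]; simp [AmM]; ring
    · show g x 2 = _
      rw [hv]; simp [AmM]
  · rw [hasFDerivAt_clm_iff]
    intro i
    have h0 := hd 0
    have h1 := hd 1
    have h2 := hd 2
    have v0 := hv 0
    have v1 := hv 1
    have v2 := hv 2
    fin_cases i
    · have := ((hτ.const_sub 1).mul h0).add (hτ.mul h1)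
      refine HasFDerivAt.congr_fderiv (f := fun y => (1 - τ y) * g y 0 + τ y * g y 1) this ?_
      apply clext; intro v
      simp only [Fin.zero_eta, Fin.mk_one, Fin.reduceFinMk, ContinuousLinearMap.add_apply, ContinuousLinearMap.smul_apply, ContinuousLinearMap.neg_apply,
        smul_eq_mul, row_apply, v0, v1, mul_apply3, mulVec_apply3, vecMul_apply3, Matrix.add_apply,
        Matrix.smul_apply, Matrix.vecMulVec_apply, Pi.add_apply]
      simp [AmM, Ap]
      ring
    · have := ((hτ.neg).mul h0).add ((hτ.const_sub 1).mul h1)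
      refine HasFDerivAt.congr_fderiv (f := fun y => -τ y * g y 0 + (1 - τ y) * g y 1) this ?_
      apply clext; intro v
      simp only [Fin.zero_eta, Fin.mk_one, Fin.reduceFinMk, ContinuousLinearMap.add_apply, ContinuousLinearMap.smul_apply, ContinuousLinearMap.neg_apply,
        smul_eq_mul, row_apply, v0, v1, mul_apply3, mulVec_apply3, vecMul_apply3, Matrix.add_apply,
        Matrix.smul_apply, Matrix.vecMulVec_apply, Pi.add_apply]
      simp [AmM, Ap]
      ring
    · refine HasFDerivAt.congr_fderiv (f := fun y => g y 2) h2 ?_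
      apply clext; intro v
      simp only [Fin.zero_eta, Fin.mk_one, Fin.reduceFinMk, ContinuousLinearMap.add_apply, ContinuousLinearMap.smul_apply, ContinuousLinearMap.neg_apply,
        smul_eq_mul, row_apply, v0, v1, mul_apply3, mulVec_apply3, vecMul_apply3, Matrix.add_apply,
        Matrix.smul_apply, Matrix.vecMulVec_apply, Pi.add_apply]
      simp [AmM, Ap]

lemma St.Bm {g : E → E} {x : E} {l : ℝ} {k : Fin 3 → ℝ} {Em G : Matrix (Fin 3) (Fin 3) ℝ}
    {q p : Fin 3 → ℝ} {τ : E → ℝ} (h : St g x l k Em G q p)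
    (hτ : HasFDerivAt τ (row (k ᵥ* Em)) x) :
    St (fun y => Bm (τ y) (g y)) x l k Em (BmM (τ x) * G) (BmM (τ x) *ᵥ q + Bp *ᵥ p)
      (BmM (τ x) *ᵥ p) := by
  obtain ⟨hv, hd⟩ := h
  rw [hasFDerivAt_clm_iff] at hd
  constructor
  · intro i
    rw [mulVec_apply3]
    fin_cases i
    · show (1 - τ x) * g x 0 - τ x * g x 1 = _
      rw [hv, hv]; simp [BmM]; ring
    · show τ x * g x 0 + (1 - τ x) * g x 1 = _
      rw [hv, hv]; simp [BmM]; ring
    · show g x 2 = _
      rw [hv]; simp [BmM]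
  · rw [hasFDerivAt_clm_iff]
    intro i
    have h0 := hd 0
    have h1 := hd 1
    have h2 := hd 2
    have v0 := hv 0
    have v1 := hv 1
    have v2 := hv 2
    fin_cases i
    · have := ((hτ.const_sub 1).mul h0).sub (hτ.mul h1)
      refine HasFDerivAt.congr_fderiv (f := fun y => (1 - τ y) * g y 0 - τ y * g y 1) this ?_
      apply clext; intro v
      simp only [Fin.zero_eta, Fin.mk_one, Fin.reduceFinMk, ContinuousLinearMap.add_apply, ContinuousLinearMap.sub_apply, ContinuousLinearMap.smul_apply, ContinuousLinearMap.neg_apply,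
        smul_eq_mul, row_apply, v0, v1, mul_apply3, mulVec_apply3, vecMul_apply3, Matrix.add_apply,
        Matrix.smul_apply, Matrix.vecMulVec_apply, Pi.add_apply]
      simp [BmM, Bp]
      ring
    · have := (hτ.mul h0).add ((hτ.const_sub 1).mul h1)
      refine HasFDerivAt.congr_fderiv (f := fun y => τ y * g y 0 + (1 - τ y) * g y 1) this ?_
      apply clext; intro v
      simp only [Fin.zero_eta, Fin.mk_one, Fin.reduceFinMk, ContinuousLinearMap.add_apply, ContinuousLinearMap.smul_apply, ContinuousLinearMap.neg_apply,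
        smul_eq_mul, row_apply, v0, v1, mul_apply3, mulVec_apply3, vecMul_apply3, Matrix.add_apply,
        Matrix.smul_apply, Matrix.vecMulVec_apply, Pi.add_apply]
      simp [BmM, Bp]
      ring
    · refine HasFDerivAt.congr_fderiv (f := fun y => g y 2) h2 ?_
      apply clext; intro v
      simp only [Fin.zero_eta, Fin.mk_one, Fin.reduceFinMk, ContinuousLinearMap.add_apply, ContinuousLinearMap.smul_apply, ContinuousLinearMap.neg_apply,
        smul_eq_mul, row_apply, v0, v1, mul_apply3, mulVec_apply3, vecMul_apply3, Matrix.add_apply,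
        Matrix.smul_apply, Matrix.vecMulVec_apply, Pi.add_apply]
      simp [BmM, Bp]

/-- `M` is one of the linear pieces of `Dm` -/
def IsPM (M : Matrix (Fin 3) (Fin 3) ℝ) : Prop :=
  ∃ (i : Fin 5) (b1 b2 b3 : Bool), M = PM i (sgb b1) (sgb b2) (sgb b3)

lemma IsPM.det {M : Matrix (Fin 3) (Fin 3) ℝ} (h : IsPM M) : M.det = 2 := by
  obtain ⟨i, b1, b2, b3, rfl⟩ := h
  exact PM_det i b1 b2 b3

lemma Dm_step {g : E → E} {x : E} (hg : DifferentiableAt ℝ g x)
    (hD : DifferentiableAt ℝ (fun y => Dm (g y)) x) :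
    ∃ M, IsPM M ∧ Dm (g x) = clm M (g x) ∧
      fderiv ℝ (fun y => Dm (g y)) x = (clm M).comp (fderiv ℝ g x) := by
  obtain ⟨⟨i, b1, b2, b3⟩, h1, h2⟩ := fderiv_mem_pieces (ι := Fin 5 × Bool × Bool × Bool) hD
    (fun c y => clm (PM c.1 (sgb c.2.1) (sgb c.2.2.1) (sgb c.2.2.2)) (g y))
    (fun c => ((clm _).differentiableAt).comp x hg)
    (Eventually.of_forall fun y => by
      obtain ⟨i, b1, b2, b3, h⟩ := Dm_pieces (g y)
      exact ⟨(i, b1, b2, b3), h⟩)
  refine ⟨_, ⟨i, b1, b2, b3, rfl⟩, h1, ?_⟩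
  rw [h2]
  exact ((clm (PM i (sgb b1) (sgb b2) (sgb b3))).hasFDerivAt.comp x hg.hasFDerivAt).fderiv

lemma St.Dm {g : E → E} {x : E} {l : ℝ} {k : Fin 3 → ℝ} {Em G : Matrix (Fin 3) (Fin 3) ℝ}
    {q p : Fin 3 → ℝ} (h : St g x l k Em G q p)
    (hD : DifferentiableAt ℝ (fun y => Dm (g y)) x) :
    ∃ M, IsPM M ∧ St (fun y => Dm (g y)) x l k Em (M * G) (M *ᵥ q) (M *ᵥ p) := by
  obtain ⟨M, hM, h1, h2⟩ := Dm_step h.der.differentiableAt hD
  refine ⟨M, hM, ⟨?_, ?_⟩⟩
  · intro i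
    show FD.Dm (g x) i = _
    rw [h1, clm_apply, h.val, h.val, h.val, mulVec_apply3]; ring
  · have := hD.hasFDerivAt
    rw [h2, h.der.fderiv, ← clm_mul] at this
    convert this using 2
    rw [Matrix.mul_smul, ← Matrix.mul_assoc, Matrix.mul_add]
    congr 3
    ext i j
    rw [Matrix.vecMulVec_apply, mul_apply3, mulVec_apply3]
    simp only [Matrix.vecMulVec_apply]
    ring

end Pool.Agent.Helper13.FD
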