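import Mathlib
import Pool.Agent.Helper13.FD.Steps

/-!
Derivatives of the scalar parameters at a point off the coordinate planes.
-/

set_option autoImplicit false
set_option linter.unusedVariables false
set_option linter.unusedSimpArgs false
set_option linter.deprecated false

noncomputable section

open Filter Topology MeasureTheory Set Matrix

namespace Pool.Agent.Helper13.FD

/-- sign data at a point -/
structure Sg (x : E) (s0 s1 : ℝ) : Prop where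
  sq0 : s0 * s0 = 1
  sq1 : s1 * s1 = 1
  pos0 : 0 < s0 * x 0
  pos1 : 0 < s1 * x 1

lemma exists_Sg {x : E} (h0 : x 0 ≠ 0) (h1 : x 1 ≠ 0) : ∃ s0 s1, Sg x s0 s1 := by
  have key : ∀ a : ℝ, a ≠ 0 → ∃ s : ℝ, s * s = 1 ∧ 0 < s * a := by
    intro a ha
    rcases lt_or_gt_of_ne ha with h | h
    · exact ⟨-1, by norm_num, by linarith⟩
    · exact ⟨1, by norm_num, by linarith⟩
  obtain ⟨s0, a1, a2⟩ := key _ h0
  obtain ⟨s1, b1, b2⟩ := key _ h1
  exact ⟨s0, s1, a1, b1, a2, b2⟩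

lemma abs_of_sg {s a : ℝ} (hs : s * s = 1) (h : 0 < s * a) : |a| = s * a := by
  rcases mul_self_eq_one_iff.mp hs with rfl | rfl
  · rw [one_mul] at *; exact abs_of_pos h
  · rw [abs_of_neg (by linarith)]; ring

lemma Sg.eventually {x : E} {s0 s1 : ℝ} (h : Sg x s0 s1) :
    ∀ᶠ y in 𝓝 x, 0 < s0 * y 0 ∧ 0 < s1 * y 1 := by
  have c0 : Continuous (fun y : E => s0 * y 0) := continuous_const.mul (pr 0).continuous
  have c1 : Continuous (fun y : E => s1 * y 1) := continuous_const.mul (pr 1).continuous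
  exact (continuous_const.continuousAt.eventually_lt c0.continuousAt h.pos0).and
    (continuous_const.continuousAt.eventually_lt c1.continuousAt h.pos1)

lemma rr_of_sg {x : E} {s0 s1 : ℝ} (q0 : s0 * s0 = 1) (q1 : s1 * s1 = 1) (p0 : 0 < s0 * x 0)
    (p1 : 0 < s1 * x 1) : rr x = s0 * x 0 + s1 * x 1 := by
  unfold rr; rw [abs_of_sg q0 p0, abs_of_sg q1 p1]

lemma Sg.rr_eq {x : E} {s0 s1 : ℝ} (h : Sg x s0 s1) : rr x = s0 * x 0 + s1 * x 1 :=
  rr_of_sg h.sq0 h.sq1 h.pos0 h.pos1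

lemma Sg.rr_pos {x : E} {s0 s1 : ℝ} (h : Sg x s0 s1) : 0 < rr x := by
  rw [h.rr_eq]; linarith [h.pos0, h.pos1]

lemma hfd_of {f g : E → ℝ} {f' g' : E →L[ℝ] ℝ} {x : E} (h : HasFDerivAt g g' x)
    (hfg : ∀ y, f y = g y) (hd : ∀ v, g' v = f' v) : HasFDerivAt f f' x :=
  (h.congr_fderiv (clext hd)).congr_of_eventuallyEq (Eventually.of_forall hfg)

lemma hasFDerivAt_coord (i : Fin 3) (x : E) : HasFDerivAt (fun y : E => y i) (pr i) x :=
  (pr i).hasFDerivAt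

lemma Sg.hasFDerivAt_rr {x : E} {s0 s1 : ℝ} (h : Sg x s0 s1) :
    HasFDerivAt rr (row ![s0, s1, 0]) x := by
  have h1 : HasFDerivAt (fun y : E => s0 * y 0 + s1 * y 1) (row ![s0, s1, 0]) x := by
    have := ((hasFDerivAt_coord 0 x).const_mul s0).add ((hasFDerivAt_coord 1 x).const_mul s1)
    refine this.congr_fderiv ?_
    apply clext; intro v
    simp [row_apply]
  refine h1.congr_of_eventuallyEq ?_
  filter_upwards [h.eventually] with y hy
  exact rr_of_sg h.sq0 h.sq1 hy.1 hy.2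

lemma Sg.hasFDerivAt_aa {x : E} {s0 s1 : ℝ} (h : Sg x s0 s1) :
    HasFDerivAt aa (row ![1 / rr x - x 0 * s0 / rr x ^ 2, - (x 0 * s1 / rr x ^ 2), 0]) x := by
  have hr := h.rr_pos
  have h1 := (hasFDerivAt_coord 0 x).mul ((hasDerivAt_inv hr.ne').comp_hasFDerivAt x h.hasFDerivAt_rr)
  refine hfd_of h1 (fun y => rfl) fun v => ?_
  simp [row_apply]
  field_simp
  ring

lemma Sg.hasFDerivAt_bb {x : E} {s0 s1 : ℝ} (h : Sg x s0 s1) :
    HasFDerivAt bb (row ![- (x 1 * s0 / rr x ^ 2), 1 / rr x - x 1 * s1 / rr x ^ 2, 0]) x := by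
  have hr := h.rr_pos
  have h1 := (hasFDerivAt_coord 1 x).mul ((hasDerivAt_inv hr.ne').comp_hasFDerivAt x h.hasFDerivAt_rr)
  refine hfd_of h1 (fun y => rfl) fun v => ?_
  simp [row_apply]
  field_simp
  ring

lemma Sg.hasFDerivAt_tt {x : E} {s0 s1 : ℝ} (h : Sg x s0 s1) :
    HasFDerivAt tt (row ![-(s0 / rr x), -(s1 / rr x), 0]) x := by
  have hr := h.rr_pos
  have h1 := ((Real.hasDerivAt_log hr.ne').comp_hasFDerivAt x h.hasFDerivAt_rr).neg
  refine hfd_of h1 (fun y => rfl) fun v => ?_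
  simp [row_apply]
  field_simp
  ring

lemma Sg.hasFDerivAt_LL {x : E} {s0 s1 : ℝ} (h : Sg x s0 s1) (ht : 0 < tt x) :
    HasFDerivAt LL (row ![-(s0 / (rr x * tt x)), -(s1 / (rr x * tt x)), 0]) x := by
  have hr := h.rr_pos
  have h1 := ((Real.hasDerivAt_log ht.ne').comp_hasFDerivAt x h.hasFDerivAt_tt)
  refine hfd_of h1 (fun y => rfl) fun v => ?_
  simp [row_apply]
  field_simp

/-- gradient of `RR` -/
def gR (x : E) (s0 s1 : ℝ) : Fin 3 → ℝ :=
  ![-(RR x * ((x 2 + 1) / 2) * (s0 / (rr x * tt x))),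
    -(RR x * ((x 2 + 1) / 2) * (s1 / (rr x * tt x))), RR x * (LL x / 2)]

/-- gradient of `aa` -/
def gA (x : E) (s0 s1 : ℝ) : Fin 3 → ℝ :=
  ![1 / rr x - x 0 * s0 / rr x ^ 2, - (x 0 * s1 / rr x ^ 2), 0]

/-- gradient of `YY` -/
def gY (j : ℕ) (x : E) (s0 s1 : ℝ) : Fin 3 → ℝ :=
  ![-(YY j x * x 2 * (s0 / (rr x * tt x))), -(YY j x * x 2 * (s1 / (rr x * tt x))), YY j x * LL x]

/-- gradient of `kap` -/
def gK (x : E) (s0 s1 : ℝ) : Fin 3 → ℝ :=
  ![-((x 2 - 1) * (s0 / (rr x * tt x)) / (2 * Real.log 2)),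
    -((x 2 - 1) * (s1 / (rr x * tt x)) / (2 * Real.log 2)), LL x / (2 * Real.log 2)]

lemma Sg.hasFDerivAt_RR {x : E} {s0 s1 : ℝ} (h : Sg x s0 s1) (ht : 0 < tt x) :
    HasFDerivAt RR (row (gR x s0 s1)) x := by
  have h1 := ((((hasFDerivAt_coord 2 x).add_const 1).mul_const (2⁻¹)).mul (h.hasFDerivAt_LL ht)).exp
  refine hfd_of h1 (fun y => rfl) fun v => ?_
  simp [row_apply, gR, RR]
  ring_nf

lemma Sg.hasFDerivAt_NN {x : E} {s0 s1 : ℝ} (h : Sg x s0 s1) (ht : 0 < tt x) :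
    HasFDerivAt NN (row ![-(NN x * x 2 * (s0 / (rr x * tt x))),
      -(NN x * x 2 * (s1 / (rr x * tt x))), NN x * LL x]) x := by
  have h1 := ((hasFDerivAt_coord 2 x).mul (h.hasFDerivAt_LL ht)).exp
  refine hfd_of h1 (fun y => rfl) fun v => ?_
  simp [row_apply, NN]
  ring

lemma Sg.hasFDerivAt_YY {x : E} {s0 s1 : ℝ} (h : Sg x s0 s1) (ht : 0 < tt x) (j : ℕ) :
    HasFDerivAt (YY j) (row (gY j x s0 s1)) x := by
  have h1 := (h.hasFDerivAt_NN ht).mul_const ((4 ^ (j + 1) : ℝ)⁻¹)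
  refine hfd_of h1 (fun y => rfl) fun v => ?_
  simp [row_apply, gY, YY]
  ring

lemma Sg.hasFDerivAt_kap {x : E} {s0 s1 : ℝ} (h : Sg x s0 s1) (ht : 0 < tt x) :
    HasFDerivAt kap (row (gK x s0 s1)) x := by
  have h1 := (((hasFDerivAt_coord 2 x).sub_const 1).mul (h.hasFDerivAt_LL ht)).mul_const
    ((2 * Real.log 2)⁻¹)
  refine hfd_of h1 (fun y => rfl) fun v => ?_
  have h2 := Real.log_pos (by norm_num : (1 : ℝ) < 2)
  simp [row_apply, gK]
  field_simp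

/-- the matrix of gradients -/
def Emx (j : ℕ) (x : E) (s0 s1 : ℝ) : Matrix (Fin 3) (Fin 3) ℝ :=
  ![fun i => - gR x s0 s1 i, gA x s0 s1, gY j x s0 s1]

/-- coefficients of the gradient of `kap` -/
def kk (j : ℕ) (x : E) : Fin 3 → ℝ := ![1 / (RR x * Real.log 2), 0, 1 / (YY j x * Real.log 2)]

lemma RR_pos (x : E) : 0 < RR x := Real.exp_pos _
lemma NN_pos (x : E) : 0 < NN x := Real.exp_pos _
lemma YY_pos (j : ℕ) (x : E) : 0 < YY j x := by unfold YY; have := NN_pos x; positivity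

lemma gK_eq (j : ℕ) (x : E) (s0 s1 : ℝ) : gK x s0 s1 = kk j x ᵥ* Emx j x s0 s1 := by
  have h2 := Real.log_pos (by norm_num : (1 : ℝ) < 2)
  have hR := RR_pos x
  have hY := YY_pos j x
  ext i
  rw [vecMul_apply3]
  fin_cases i
  · simp [kk, Emx, gK, gR, gY]; field_simp; ring
  · simp [kk, Emx, gK, gR, gY]; field_simp; ring
  · simp [kk, Emx, gK, gR, gY]; field_simp; ring

lemma det_Emx (j : ℕ) {x : E} {s0 s1 : ℝ} (h : Sg x s0 s1) (ht : 0 < tt x) :
    (Emx j x s0 s1).det = - s1 * (RR x * YY j x * LL x / (2 * rr x ^ 2 * tt x)) := by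
  have hr := h.rr_pos
  rw [Matrix.det_fin_three]
  simp [Emx, gR, gA, gY]
  field_simp
  ring

end Pool.Agent.Helper13.FD
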