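import Mathlib
import Pool.Agent.Helper13.FD.Params

/-!
The innermost map `q0` and its linear pieces.
-/

set_option autoImplicit false
set_option linter.unusedVariables false
set_option linter.unusedSimpArgs false
set_option linter.deprecated false

noncomputable section

open Filter Topology MeasureTheory Set Matrix

namespace Pool.Agent.Helper13.FD

/-- truncated interpolation parameter -/
def ta (j : ℕ) (y : E) : ℝ := c01 (kap y - j)

/-- innermost map at level `j` -/
def q0 (j : ℕ) (y : E) : E := Real.exp (-RR y) • bas (j + 1) y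

/-- after the first `Dm` -/
def q2 (j : ℕ) (y : E) : E := Dm (Am (ta j y) (q0 j y))

/-- after the second `Dm` -/
def q4 (j : ℕ) (y : E) : E := Dm (Bm (ta j y) (q2 j y))

def eE : Fin 6 → ℝ := ![-1, 1, 1, -1, -1, 1]
def cE : Fin 6 → ℝ := ![-3, 1, 1, 1, 1, -3]
def fE : Fin 6 → ℝ := ![-1, -1, 1, 1, -1, -1]
def dE : Fin 6 → ℝ := ![-2, -2, 0, 0, 2, 2]

lemma eE_sq (i : Fin 6) : eE i * eE i = 1 := by fin_cases i <;> norm_num [eE]
lemma fE_sq (i : Fin 6) : fE i * fE i = 1 := by fin_cases i <;> norm_num [fE]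
lemma EF_rel (i : Fin 6) : cE i * fE i - eE i * dE i = 1 := by
  fin_cases i <;> simp [eE, cE, fE, dE] <;> norm_num

lemma TV_pieces {y : ℝ} (hy : |y| ≤ 3) (k : ℤ) : ∃ i : Fin 6,
    T (y + 4 * k) = eE i * y + cE i ∧ V (y + 4 * k) = fE i * y + dE i ∧
      |V (y + 4 * k)| = -(eE i) * V (y + 4 * k) := by
  have hy' := abs_le.mp hy
  have T1 : |y| ≤ 2 → T (y + 4 * k) = 1 - |y| := T_add_int y k
  have V1 : |y - 1| ≤ 2 → V (y + 4 * k) = 1 - |y - 1| := V_add_int y k
  have T2 : |y - 4| ≤ 2 → T (y + 4 * k) = 1 - |y - 4| := by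
    intro h
    have := T_add_int (y - 4) (k + 1) h
    rw [← this]; congr 1; push_cast; ring
  have T3 : |y + 4| ≤ 2 → T (y + 4 * k) = 1 - |y + 4| := by
    intro h
    have := T_add_int (y + 4) (k - 1) h
    rw [← this]; congr 1; push_cast; ring
  have V2 : |y + 3| ≤ 2 → V (y + 4 * k) = 1 - |y + 3| := by
    intro h
    have := V_add_int (y + 4) (k - 1) (by rw [show y + 4 - 1 = y + 3 by ring]; exact h)
    rw [show y + 4 - 1 = y + 3 by ring] at this
    rw [← this]; congr 1; push_cast; ring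
  rcases le_total y (-2) with h | h
  · have t := T3 (by rw [abs_le]; constructor <;> linarith)
    have v := V2 (by rw [abs_le]; constructor <;> linarith)
    rw [abs_of_nonneg (by linarith)] at t v
    refine ⟨0, by rw [t]; simp [eE, cE]; ring, by rw [v]; simp [fE, dE]; ring, ?_⟩
    rw [v, abs_of_nonneg (by linarith)]; simp [eE]
  rcases le_total y (-1) with h2 | h2
  · have t := T1 (by rw [abs_le]; constructor <;> linarith)
    have v := V2 (by rw [abs_le]; constructor <;> linarith)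
    rw [abs_of_nonpos (by linarith)] at t
    rw [abs_of_nonneg (by linarith)] at v
    refine ⟨1, by rw [t]; simp [eE, cE]; ring, by rw [v]; simp [fE, dE]; ring, ?_⟩
    rw [v, abs_of_nonpos (by linarith)]; simp [eE]
  rcases le_total y 0 with h3 | h3
  · have t := T1 (by rw [abs_le]; constructor <;> linarith)
    have v := V1 (by rw [abs_le]; constructor <;> linarith)
    rw [abs_of_nonpos (by linarith)] at t
    rw [abs_of_nonpos (by linarith)] at v
    refine ⟨2, by rw [t]; simp [eE, cE]; ring, by rw [v]; simp [fE, dE], ?_⟩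
    rw [v, abs_of_nonpos (by linarith)]; simp [eE]
  rcases le_total y 1 with h4 | h4
  · have t := T1 (by rw [abs_le]; constructor <;> linarith)
    have v := V1 (by rw [abs_le]; constructor <;> linarith)
    rw [abs_of_nonneg (by linarith)] at t
    rw [abs_of_nonpos (by linarith)] at v
    refine ⟨3, by rw [t]; simp [eE, cE]; ring, by rw [v]; simp [fE, dE], ?_⟩
    rw [v, abs_of_nonneg (by linarith)]; simp [eE]
  rcases le_total y 2 with h5 | h5
  · have t := T1 (by rw [abs_le]; constructor <;> linarith)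
    have v := V1 (by rw [abs_le]; constructor <;> linarith)
    rw [abs_of_nonneg (by linarith)] at t
    rw [abs_of_nonneg (by linarith)] at v
    refine ⟨4, by rw [t]; simp [eE, cE]; ring, by rw [v]; simp [fE, dE]; ring, ?_⟩
    rw [v, abs_of_nonneg (by linarith)]; simp [eE]
  · have t := T2 (by rw [abs_le]; constructor <;> linarith)
    have v := V1 (by rw [abs_le]; constructor <;> linarith)
    rw [abs_of_nonpos (by linarith)] at t
    rw [abs_of_nonneg (by linarith)] at v
    refine ⟨5, by rw [t]; simp [eE, cE]; ring, by rw [v]; simp [fE, dE]; ring, ?_⟩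
    rw [v, abs_of_nonpos (by linarith)]; simp [eE]

/-- coefficients of the last coordinate -/
def al0 (i : Fin 6) (b : Bool) (s1 : ℝ) : ℝ := cond b (-(eE i) * s1) (s1 * dE i)
def al1 (i : Fin 6) (b : Bool) (s0 s1 : ℝ) : ℝ := cond b (eE i * s0 * s1) 0
def al2 (i : Fin 6) (b : Bool) (s1 : ℝ) : ℝ := cond b 0 (s1 * fE i)

lemma base_pieces {a b s0 s1 y : ℝ} (k : ℤ) (hab : |a| + |b| = 1) (h0 : s0 * s0 = 1)
    (h1 : s1 * s1 = 1) (ha : |a| = s0 * a) (hb : |b| = s1 * b) (hy : |y| ≤ 3) :
    ∃ i bo, base a b (y + 4 * k) =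
      mk a (eE i * y + cE i) (al0 i bo s1 + al1 i bo s0 s1 * a + al2 i bo s1 * y) := by
  obtain ⟨i, hT, hV, hVa⟩ := TV_pieces hy k
  have he : -(eE i) * -(eE i) = 1 := by have := eE_sq i; linarith
  have hm := mm_sign h1 he hb hVa
  rcases le_total |b| |V (y + 4 * k)| with h | h
  · refine ⟨i, true, ?_⟩
    rw [min_eq_left h] at hm
    apply ext3
    · rfl
    · exact hT
    · show mm b (V (y + 4 * k)) = al0 i true s1 + al1 i true s0 s1 * a + al2 i true s1 * y
      rw [hm]
      have : |b| = 1 - s0 * a := by linarith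
      rw [this]
      simp [al0, al1, al2]; ring
  · refine ⟨i, false, ?_⟩
    rw [min_eq_right h, hVa] at hm
    apply ext3
    · rfl
    · exact hT
    · show mm b (V (y + 4 * k)) = al0 i false s1 + al1 i false s0 s1 * a + al2 i false s1 * y
      rw [hm, hV]
      have := eE_sq i
      simp [al0, al1, al2]
      linear_combination (s1 * (fE i * y + dE i)) * this

/-- the matrix of a piece -/
def Bx (i : Fin 6) (bo : Bool) (s0 s1 a y : ℝ) : Matrix (Fin 3) (Fin 3) ℝ :=
  !![a, 1, 0; eE i * y + cE i, 0, eE i;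
    al0 i bo s1 + al1 i bo s0 s1 * a + al2 i bo s1 * y, al1 i bo s0 s1, al2 i bo s1]

lemma det_Bx (i : Fin 6) (bo : Bool) (s0 s1 a y : ℝ) : (Bx i bo s0 s1 a y).det = -s1 := by
  rw [Matrix.det_fin_three]
  have h1 := eE_sq i
  have h2 := EF_rel i
  cases bo
  · simp [Bx, al0, al1, al2]
    linear_combination (-s1) * h2
  · simp [Bx, al0, al1, al2]
    linear_combination (-s1) * h1

/-- a piece of `q0` -/
def Q0 (j : ℕ) (k : ℤ) (i : Fin 6) (bo : Bool) (s0 s1 : ℝ) (y : E) : E :=
  Real.exp (-RR y) • mk (aa y) (eE i * (YY j y - 4 * k) + cE i)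
    (al0 i bo s1 + al1 i bo s0 s1 * aa y + al2 i bo s1 * (YY j y - 4 * k))

lemma hasFDerivAt_Q0 {x : E} {s0 s1 : ℝ} (h : Sg x s0 s1) (ht : 0 < tt x) (j : ℕ) (k : ℤ)
    (i : Fin 6) (bo : Bool) : HasFDerivAt (Q0 j k i bo s0 s1)
      (clm (Real.exp (-RR x) • (Bx i bo s0 s1 (aa x) (YY j x - 4 * k) * Emx j x s0 s1))) x := by
  have hR := (h.hasFDerivAt_RR ht).neg.exp
  have hA := h.hasFDerivAt_aa
  have hY := (h.hasFDerivAt_YY ht j).sub_const (4 * (k : ℝ))
  rw [hasFDerivAt_clm_iff]
  intro l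
  fin_cases l
  · have := hR.mul hA
    refine hfd_of this (fun y => rfl) fun v => ?_
    simp only [Fin.zero_eta, Fin.mk_one, Fin.reduceFinMk, ContinuousLinearMap.add_apply,
      ContinuousLinearMap.smul_apply, ContinuousLinearMap.neg_apply,
      smul_eq_mul, row_apply, mul_apply3, Matrix.smul_apply, Pi.neg_apply]
    simp [Bx, Emx, gA]
    ring
  · have := hR.mul ((hY.const_mul (eE i)).add_const (cE i))
    refine hfd_of this (fun y => rfl) fun v => ?_
    simp only [Fin.zero_eta, Fin.mk_one, Fin.reduceFinMk, ContinuousLinearMap.add_apply,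
      ContinuousLinearMap.smul_apply, ContinuousLinearMap.neg_apply,
      smul_eq_mul, row_apply, mul_apply3, Matrix.smul_apply, Pi.neg_apply]
    simp [Bx, Emx]
    ring
  · have := hR.mul (((hA.const_mul (al1 i bo s0 s1)).const_add (al0 i bo s1)).add
      (hY.const_mul (al2 i bo s1)))
    refine hfd_of this (fun y => rfl) fun v => ?_
    simp only [Fin.zero_eta, Fin.mk_one, Fin.reduceFinMk, ContinuousLinearMap.add_apply,
      ContinuousLinearMap.smul_apply, ContinuousLinearMap.neg_apply,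
      smul_eq_mul, row_apply, mul_apply3, Matrix.smul_apply, Pi.neg_apply]
    simp [Bx, Emx, gA]
    ring

lemma abs_le_one_of_sq {a : ℝ} (h : a * a = 1) : |a| ≤ 1 := by
  rcases mul_self_eq_one_iff.mp h with h | h <;> rw [h] <;> norm_num

lemma abs_al1 (i : Fin 6) (bo : Bool) {s0 s1 : ℝ} (h0 : s0 * s0 = 1) (h1 : s1 * s1 = 1) :
    |al1 i bo s0 s1| ≤ 1 := by
  cases bo
  · simp [al1]
  · simp only [al1, cond_true]
    rw [abs_mul, abs_mul]
    have a := abs_le_one_of_sq (eE_sq i)
    have b := abs_le_one_of_sq h0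
    have c := abs_le_one_of_sq h1
    have := mul_le_mul (mul_le_mul a b (abs_nonneg _) zero_le_one) c (abs_nonneg _) (by norm_num)
    simpa using this

lemma abs_al2 (i : Fin 6) (bo : Bool) {s1 : ℝ} (h1 : s1 * s1 = 1) :
    |al2 i bo s1| ≤ 1 := by
  cases bo
  · simp only [al2, cond_false]
    rw [abs_mul]
    have a := abs_le_one_of_sq (fE_sq i)
    have c := abs_le_one_of_sq h1
    have := mul_le_mul c a (abs_nonneg _) zero_le_one
    simpa using this
  · simp [al2]

lemma abs_aa_le {x : E} (hr : 0 < rr x) : |aa x| ≤ 1 := by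
  have := abs_aa_add_abs_bb hr
  have := abs_nonneg (bb x)
  linarith

lemma abs_bb_le {x : E} (hr : 0 < rr x) : |bb x| ≤ 1 := by
  have := abs_aa_add_abs_bb hr
  have := abs_nonneg (aa x)
  linarith

lemma St_q0 {x : E} {s0 s1 : ℝ} (h : Sg x s0 s1) (ht : 0 < tt x) (j : ℕ)
    (hd : DifferentiableAt ℝ (q0 j) x) :
    ∃ (B : Matrix (Fin 3) (Fin 3) ℝ) (p : Fin 3 → ℝ), B.det = -s1 ∧ (∀ i l, |B i l| ≤ 1) ∧
      (∀ i, |p i| ≤ 1) ∧ St (q0 j) x (Real.exp (-RR x)) (kk j x) (Emx j x s0 s1) B 0 p := by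
  obtain ⟨k, hk, -⟩ := exists_k (YY j x)
  have hYc : ContinuousAt (YY j) x := (h.hasFDerivAt_YY ht j).continuousAt
  have hev : ∀ᶠ y in 𝓝 x, |YY j y - 4 * (k : ℝ)| < 3 := by
    have c : ContinuousAt (fun y => |YY j y - 4 * (k : ℝ)|) x := (hYc.sub continuousAt_const).abs
    exact c.eventually_lt continuousAt_const (by linarith)
  have key : ∀ᶠ y in 𝓝 x, ∃ c : Fin 6 × Bool, q0 j y = Q0 j k c.1 c.2 s0 s1 y := by
    filter_upwards [hev, h.eventually] with y hy hs
    have hr := rr_of_sg h.sq0 h.sq1 hs.1 hs.2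
    have hrp : 0 < rr y := by rw [hr]; linarith [hs.1, hs.2]
    have ha : |aa y| = s0 * aa y := by
      unfold aa; rw [abs_div, abs_of_pos hrp, abs_of_sg h.sq0 hs.1]; ring
    have hb : |bb y| = s1 * bb y := by
      unfold bb; rw [abs_div, abs_of_pos hrp, abs_of_sg h.sq1 hs.2]; ring
    obtain ⟨i, bo, hb⟩ := base_pieces k (abs_aa_add_abs_bb hrp) h.sq0 h.sq1 ha hb hy.le
    refine ⟨(i, bo), ?_⟩
    show Real.exp (-RR y) • base (aa y) (bb y) (YY j y) = _
    rw [show YY j y = YY j y - 4 * k + 4 * k by ring, hb]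
    rfl
  obtain ⟨⟨i, bo⟩, h1, h2⟩ := fderiv_mem_pieces hd
    (fun (c : Fin 6 × Bool) y => Q0 j k c.1 c.2 s0 s1 y)
    (fun c => (hasFDerivAt_Q0 h ht j k c.1 c.2).differentiableAt) key
  have hQ := hasFDerivAt_Q0 h ht j k i bo
  have hr := h.rr_pos
  have hl := Real.exp_pos (-RR x)
  -- coordinates of base
  have c1 : eE i * (YY j x - 4 * k) + cE i = T (YY j x) := by
    have : q0 j x 1 = Q0 j k i bo s0 s1 x 1 := by rw [h1]
    have e : Real.exp (-RR x) * T (YY j x) = Real.exp (-RR x) * (eE i * (YY j x - 4 * k) + cE i) := this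
    exact (mul_left_cancel₀ hl.ne' e).symm
  have c2 : al0 i bo s1 + al1 i bo s0 s1 * aa x + al2 i bo s1 * (YY j x - 4 * k) =
      mm (bb x) (V (YY j x)) := by
    have : q0 j x 2 = Q0 j k i bo s0 s1 x 2 := by rw [h1]
    have e : Real.exp (-RR x) * mm (bb x) (V (YY j x)) = Real.exp (-RR x) *
      (al0 i bo s1 + al1 i bo s0 s1 * aa x + al2 i bo s1 * (YY j x - 4 * k)) := this
    exact (mul_left_cancel₀ hl.ne' e).symm
  have b0 := abs_aa_le hr
  have b1 := abs_T_le (YY j x)
  have b2 : |mm (bb x) (V (YY j x))| ≤ 1 := by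
    rw [abs_mm]; exact (min_le_left _ _).trans (abs_bb_le hr)
  refine ⟨Bx i bo s0 s1 (aa x) (YY j x - 4 * k), ![aa x, T (YY j x), mm (bb x) (V (YY j x))],
    det_Bx _ _ _ _ _ _, ?_, ?_, ?_, ?_⟩
  · intro m l
    have e1 := abs_le_one_of_sq (eE_sq i)
    have e2 := abs_al1 i bo h.sq0 h.sq1
    have e3 := abs_al2 i bo h.sq1
    rw [Bx, c1, c2]
    fin_cases m <;> fin_cases l <;> simp <;> assumption
  · intro m
    fin_cases m
    · exact b0
    · exact b1
    · exact b2
  · intro m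
    fin_cases m
    · rfl
    · rfl
    · rfl
  · have e := hd.hasFDerivAt
    rw [h2, hQ.fderiv] at e
    have z : Bx i bo s0 s1 (aa x) (YY j x - 4 * k) + vecMulVec 0 (kk j x) =
        Bx i bo s0 s1 (aa x) (YY j x - 4 * k) := by
      ext a b; simp [vecMulVec_apply]
    rw [z]
    exact e

end Pool.Agent.Helper13.FD
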