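import Mathlib
import Pool.Agent.Helper13.FD.Base

/-!
Lower bound of the determinant of the derivative.
-/

set_option autoImplicit false
set_option linter.unusedVariables false
set_option linter.unusedSimpArgs false
set_option linter.deprecated false

noncomputable section

open Filter Topology MeasureTheory Set Matrix

namespace Pool.Agent.Helper13.FD

/-- row sums bounded -/
def RS (s : ℝ) (A : Matrix (Fin 3) (Fin 3) ℝ) : Prop := ∀ i, |A i 0| + |A i 1| + |A i 2| ≤ s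

lemma bd_sum3 {a0 a1 a2 b0 b1 b2 s c : ℝ} (hs : |a0| + |a1| + |a2| ≤ s) (hc : 0 ≤ c)
    (h0 : |b0| ≤ c) (h1 : |b1| ≤ c) (h2 : |b2| ≤ c) : |a0 * b0 + a1 * b1 + a2 * b2| ≤ s * c := by
  have e1 := abs_add_le (a0 * b0 + a1 * b1) (a2 * b2)
  have e2 := abs_add_le (a0 * b0) (a1 * b1)
  rw [abs_mul, abs_mul] at e2
  rw [abs_mul a2] at e1
  have m0 := mul_le_mul_of_nonneg_left h0 (abs_nonneg a0)
  have m1 := mul_le_mul_of_nonneg_left h1 (abs_nonneg a1)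
  have m2 := mul_le_mul_of_nonneg_left h2 (abs_nonneg a2)
  have := mul_le_mul_of_nonneg_right hs hc
  linarith

lemma bd_mul {s c : ℝ} {A M : Matrix (Fin 3) (Fin 3) ℝ} (hA : RS s A)
    (hM : ∀ i l, |M i l| ≤ c) (i l : Fin 3) : |(A * M) i l| ≤ s * c := by
  rw [mul_apply3]
  exact bd_sum3 (hA i) ((abs_nonneg _).trans (hM 0 0)) (hM _ _) (hM _ _) (hM _ _)

lemma bd_mulVec {s c : ℝ} {A : Matrix (Fin 3) (Fin 3) ℝ} {v : Fin 3 → ℝ} (hA : RS s A)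
    (hM : ∀ i, |v i| ≤ c) (i : Fin 3) : |(A *ᵥ v) i| ≤ s * c := by
  rw [mulVec_apply3]
  exact bd_sum3 (hA i) ((abs_nonneg _).trans (hM 0)) (hM _) (hM _) (hM _)

lemma RS_AmM {t : ℝ} (h : 0 ≤ t) (h1 : t ≤ 1) : RS 1 (AmM t) := by
  intro i
  have a := abs_of_nonneg h
  have b := abs_of_nonneg (by linarith : 0 ≤ 1 - t)
  fin_cases i
  · simp [AmM, a, b]
  · simp [AmM, a, b]
  · simp [AmM]

lemma RS_BmM {t : ℝ} (h : 0 ≤ t) (h1 : t ≤ 1) : RS 1 (BmM t) := by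
  intro i
  have a := abs_of_nonneg h
  have b := abs_of_nonneg (by linarith : 0 ≤ 1 - t)
  fin_cases i
  · simp [BmM, a, b]
  · simp [BmM, a, b]
  · simp [BmM]

lemma RS_Ap : RS 2 Ap := by
  intro i; fin_cases i <;> simp [Ap] <;> norm_num

lemma RS_Bp : RS 2 Bp := by
  intro i; fin_cases i <;> simp [Bp] <;> norm_num

lemma abs_sgb (b : Bool) : |sgb b| = 1 := by cases b <;> simp [sgb]

lemma IsPM.RS {M : Matrix (Fin 3) (Fin 3) ℝ} (h : IsPM M) : RS 4 M := by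
  obtain ⟨i, b1, b2, b3, rfl⟩ := h
  have h1 := abs_sgb b1
  have h2 := abs_sgb b2
  have h3 := abs_sgb b3
  intro m
  fin_cases i <;> fin_cases m <;> simp [PM, abs_mul, h1, h2, h3] <;> norm_num

lemma det_AmM (t : ℝ) : (AmM t).det = (1 - t) ^ 2 + t ^ 2 := by
  rw [Matrix.det_fin_three]; simp [AmM]; ring

lemma det_BmM (t : ℝ) : (BmM t).det = (1 - t) ^ 2 + t ^ 2 := by
  rw [Matrix.det_fin_three]; simp [BmM]; ring

lemma minor_bd {a b c d e : ℝ} (ha : |a| ≤ e) (hb : |b| ≤ e) (hc : |c| ≤ e) (hd : |d| ≤ e) :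
    |a * b - c * d| ≤ 2 * e ^ 2 := by
  have he : 0 ≤ e := (abs_nonneg _).trans ha
  have e1 := abs_sub (a * b) (c * d)
  rw [abs_mul, abs_mul] at e1
  have m0 := mul_le_mul ha hb (abs_nonneg _) he
  have m1 := mul_le_mul hc hd (abs_nonneg _) he
  nlinarith

lemma det_pert {G : Matrix (Fin 3) (Fin 3) ℝ} {q k : Fin 3 → ℝ} {c c' : ℝ}
    (hG : ∀ i l, |G i l| ≤ c) (hq : ∀ i, |q i| ≤ c') :
    |(G + vecMulVec q k).det - G.det| ≤ 6 * c ^ 2 * c' * (|k 0| + |k 1| + |k 2|) := by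
  have hc' : 0 ≤ c' := (abs_nonneg _).trans (hq 0)
  have e : (G + vecMulVec q k).det - G.det =
      (q 0 * (G 1 1 * G 2 2 - G 1 2 * G 2 1) + q 1 * (G 0 2 * G 2 1 - G 0 1 * G 2 2) +
        q 2 * (G 0 1 * G 1 2 - G 0 2 * G 1 1)) * k 0 +
      (q 0 * (G 1 2 * G 2 0 - G 1 0 * G 2 2) + q 1 * (G 0 0 * G 2 2 - G 0 2 * G 2 0) +
        q 2 * (G 0 2 * G 1 0 - G 0 0 * G 1 2)) * k 1 +
      (q 0 * (G 1 0 * G 2 1 - G 1 1 * G 2 0) + q 1 * (G 0 1 * G 2 0 - G 0 0 * G 2 1) +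
        q 2 * (G 0 0 * G 1 1 - G 0 1 * G 1 0)) * k 2 := by
    rw [Matrix.det_fin_three, Matrix.det_fin_three]
    simp only [Matrix.add_apply, Matrix.vecMulVec_apply]
    ring
  rw [e]
  have hs : |q 0| + |q 1| + |q 2| ≤ 3 * c' := by linarith [hq 0, hq 1, hq 2]
  have h2c : (0 : ℝ) ≤ 2 * c ^ 2 := by positivity
  have A0 := bd_sum3 hs h2c (minor_bd (hG 1 1) (hG 2 2) (hG 1 2) (hG 2 1))
    (minor_bd (hG 0 2) (hG 2 1) (hG 0 1) (hG 2 2)) (minor_bd (hG 0 1) (hG 1 2) (hG 0 2) (hG 1 1))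
  have A1 := bd_sum3 hs h2c (minor_bd (hG 1 2) (hG 2 0) (hG 1 0) (hG 2 2))
    (minor_bd (hG 0 0) (hG 2 2) (hG 0 2) (hG 2 0)) (minor_bd (hG 0 2) (hG 1 0) (hG 0 0) (hG 1 2))
  have A2 := bd_sum3 hs h2c (minor_bd (hG 1 0) (hG 2 1) (hG 1 1) (hG 2 0))
    (minor_bd (hG 0 1) (hG 2 0) (hG 0 0) (hG 2 1)) (minor_bd (hG 0 0) (hG 1 1) (hG 0 1) (hG 1 0))
  have := bd_sum3 (a0 := k 0) (a1 := k 1) (a2 := k 2) le_rfl (by positivity) A0 A1 A2
  calc _ = _ := ?_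
    _ ≤ _ := this
    _ = _ := by ring
  congr 1; ring

/-- determinant of an endomorphism of `E` -/
def dt (A : E →L[ℝ] E) : ℝ := LinearMap.det A.toLinearMap

lemma dt_comp (A B : E →L[ℝ] E) : dt (A.comp B) = dt A * dt B := by
  unfold dt
  rw [← LinearMap.det_comp]; rfl

lemma dt_clm (M : Matrix (Fin 3) (Fin 3) ℝ) : dt (clm M) = M.det := det_clm M

lemma log2_gt : (0.69 : ℝ) < Real.log 2 := by have := Real.log_two_gt_d9; linarith

lemma RR_ge {x : E} (hx : x ∈ U0) : tt x ≤ RR x := by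
  have ht := tt_pos hx
  rw [RR_eq ht]
  have := MM_ge_one hx
  nlinarith

lemma YY_eq {x : E} (ht : 0 < tt x) (j : ℕ) : YY j x = MM x ^ 2 * tt x / 4 ^ (j + 1) := by
  unfold YY; rw [NN_eq ht]

lemma YY_ge {x : E} (hx : x ∈ U0) {j : ℕ} (h : (j : ℝ) ≤ kap x) : tt x / 4 ≤ YY j x := by
  have ht := tt_pos hx
  rw [YY_eq ht, div_le_div_iff₀ (by norm_num) (by positivity)]
  have hM := MM_ge h
  have h4 : (4 : ℝ) ^ (j + 1) = 4 * (2 ^ j) ^ 2 := by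
    rw [pow_succ, ← pow_mul, mul_comm j 2, pow_mul]; norm_num; ring
  have h5 : ((2 : ℝ) ^ j) ^ 2 ≤ MM x ^ 2 := by
    apply pow_le_pow_left₀ (by positivity) hM
  rw [h4]
  nlinarith

lemma YY_le {x : E} (hx : x ∈ U0) {j : ℕ} (h : kap x ≤ j + 1) : YY j x ≤ tt x := by
  have ht := tt_pos hx
  rw [YY_eq ht, div_le_iff₀ (by positivity)]
  have hM := MM_le h
  have h4 : (4 : ℝ) ^ (j + 1) = (2 ^ (j + 1)) ^ 2 := by
    rw [← pow_mul, mul_comm (j + 1) 2, pow_mul]; norm_num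
  have h5 : MM x ^ 2 ≤ ((2 : ℝ) ^ (j + 1)) ^ 2 := by
    apply pow_le_pow_left₀ (Real.exp_pos _).le hM
  rw [h4]
  nlinarith

lemma kk_bd {x : E} (hx : x ∈ U0) {j : ℕ} (h : (j : ℝ) ≤ kap x) :
    |kk j x 0| + |kk j x 1| + |kk j x 2| ≤ 8 / tt x := by
  have ht := tt_pos hx
  have hl := log2_gt
  have hR := RR_ge hx
  have hY := YY_ge hx h
  have hR0 := RR_pos x
  have hY0 := YY_pos j x
  simp only [kk, Matrix.cons_val_zero, Matrix.cons_val_one, Matrix.cons_val_two, Matrix.tail_cons,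
    Matrix.head_cons, abs_zero, Matrix.cons_val]
  rw [abs_of_nonneg (by positivity), abs_of_nonneg (by positivity)]
  have e1 : 1 / (RR x * Real.log 2) ≤ 1 / (tt x * 0.69) := by
    apply one_div_le_one_div_of_le (by positivity)
    exact mul_le_mul hR hl.le (by norm_num) hR0.le
  have e2 : 1 / (YY j x * Real.log 2) ≤ 1 / (tt x / 4 * 0.69) := by
    apply one_div_le_one_div_of_le (by positivity)
    exact mul_le_mul hY hl.le (by norm_num) hY0.le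
  have e3 : 1 / (tt x * 0.69) + 0 + 1 / (tt x / 4 * 0.69) ≤ 8 / tt x := by
    rw [div_add' _ _ _ (by positivity), div_add_div _ _ (by positivity) (by positivity),
      div_le_div_iff₀ (by positivity) ht]
    nlinarith [mul_pos (mul_pos ht ht) ht]
  linarith

lemma hasFDerivAt_ta {x : E} {s0 s1 : ℝ} (h : Sg x s0 s1) (ht : 0 < tt x) {j : ℕ}
    (h1 : (j : ℝ) < kap x) (h2 : kap x < j + 1) :
    HasFDerivAt (ta j) (row (kk j x ᵥ* Emx j x s0 s1)) x := by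
  rw [← gK_eq]
  have hk := h.hasFDerivAt_kap ht
  refine (hk.sub_const (j : ℝ)).congr_of_eventuallyEq ?_
  filter_upwards [continuousAt_const.eventually_lt hk.continuousAt h1,
    hk.continuousAt.eventually_lt continuousAt_const h2] with y hy1 hy2
  exact c01_of_mem (by linarith) (by linarith)

lemma St_q4 {x : E} {s0 s1 : ℝ} (hx : x ∈ U0) (h : Sg x s0 s1) {j : ℕ}
    (h1 : (j : ℝ) < kap x) (h2 : kap x < j + 1)
    (hd0 : DifferentiableAt ℝ (q0 j) x) (hd2 : DifferentiableAt ℝ (q2 j) x)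
    (hd4 : DifferentiableAt ℝ (q4 j) x) :
    ∃ (D : Matrix (Fin 3) (Fin 3) ℝ), HasFDerivAt (q4 j) (clm D) x ∧
      Real.exp (-RR x) ^ 3 * (3 / 8 * (RR x * YY j x * LL x / (rr x ^ 2 * tt x))) ≤ D.det := by
  have ht := tt_pos hx
  obtain ⟨B, p, hB, hBb, hpb, hS⟩ := St_q0 h ht j hd0
  have hτ := hasFDerivAt_ta h ht h1 h2
  have t0' : 0 ≤ ta j x := c01_nonneg _
  have t1' : ta j x ≤ 1 := c01_le_one _
  have S1 := hS.Am hτ
  obtain ⟨M1, hM1, S2⟩ := S1.Dm hd2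
  have S3 := S2.Bm hτ
  obtain ⟨M2, hM2, S4⟩ := S3.Dm hd4
  set A := AmM (ta j x)
  set C := BmM (ta j x)
  have rA := RS_AmM t0' t1'
  have rC := RS_BmM t0' t1'
  have r1 := hM1.RS
  have r2 := hM2.RS
  -- bounds
  have g4 : ∀ i l, |(M2 * (C * (M1 * (A * B)))) i l| ≤ 4 * (1 * (4 * (1 * 1))) :=
    bd_mul r2 (bd_mul rC (bd_mul r1 (bd_mul rA hBb)))
  have q1b : ∀ i, |(A *ᵥ (0 : Fin 3 → ℝ) + Ap *ᵥ p) i| ≤ 2 * 1 := by
    intro i
    rw [Matrix.mulVec_zero, zero_add]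
    exact bd_mulVec RS_Ap hpb i
  have q2b : ∀ i, |(M1 *ᵥ (A *ᵥ (0 : Fin 3 → ℝ) + Ap *ᵥ p)) i| ≤ 4 * (2 * 1) := bd_mulVec r1 q1b
  have p2b : ∀ i, |(M1 *ᵥ (A *ᵥ p)) i| ≤ 4 * (1 * 1) := bd_mulVec r1 (bd_mulVec rA hpb)
  have q3b : ∀ i, |(C *ᵥ (M1 *ᵥ (A *ᵥ (0 : Fin 3 → ℝ) + Ap *ᵥ p)) +
      Bp *ᵥ (M1 *ᵥ (A *ᵥ p))) i| ≤ 16 := by
    intro i
    rw [Pi.add_apply]
    have a := bd_mulVec rC q2b i
    have b := bd_mulVec RS_Bp p2b i
    have := abs_add_le ((C *ᵥ (M1 *ᵥ (A *ᵥ (0 : Fin 3 → ℝ) + Ap *ᵥ p))) i)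
      ((Bp *ᵥ (M1 *ᵥ (A *ᵥ p))) i)
    linarith
  have q4b := bd_mulVec r2 q3b
  have hpert := det_pert (k := kk j x) g4 q4b
  have hk := kk_bd hx h1.le
  have hdet : (M2 * (C * (M1 * (A * B)))).det =
      -s1 * (4 * ((1 - ta j x) ^ 2 + ta j x ^ 2) ^ 2) := by
    rw [Matrix.det_mul, Matrix.det_mul, Matrix.det_mul, Matrix.det_mul, hM1.det, hM2.det, hB,
      det_AmM, det_BmM]
    ring
  have hhalf : 1 / 2 ≤ (1 - ta j x) ^ 2 + ta j x ^ 2 := by nlinarith [sq_nonneg (1 - 2 * ta j x)]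
  have hge1 : 1 ≤ 4 * ((1 - ta j x) ^ 2 + ta j x ^ 2) ^ 2 := by nlinarith
  have htt := tt_gt hx
  have ht0 : t0 = 10 ^ 12 := rfl
  have hpert' : |(M2 * (C * (M1 * (A * B))) + vecMulVec (M2 *ᵥ (C *ᵥ (M1 *ᵥ (A *ᵥ
      (0 : Fin 3 → ℝ) + Ap *ᵥ p)) + Bp *ᵥ (M1 *ᵥ (A *ᵥ p)))) (kk j x)).det -
      (M2 * (C * (M1 * (A * B)))).det| ≤ 1 / 4 := by
    refine hpert.trans ?_
    calc _ ≤ 6 * (4 * (1 * (4 * (1 * 1)))) ^ 2 * (4 * 16) * (8 / tt x) :=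
          mul_le_mul_of_nonneg_left hk (by norm_num)
      _ ≤ 1 / 4 := by
          rw [mul_div_assoc', div_le_div_iff₀ ht (by norm_num)]
          rw [ht0] at htt
          linarith
  refine ⟨_, S4.der, ?_⟩
  rw [Matrix.det_smul, Matrix.det_mul, det_Emx j h ht]
  simp only [Fintype.card_fin]
  set δ := (M2 * (C * (M1 * (A * B))) + vecMulVec (M2 *ᵥ (C *ᵥ (M1 *ᵥ (A *ᵥ
      (0 : Fin 3 → ℝ) + Ap *ᵥ p)) + Bp *ᵥ (M1 *ᵥ (A *ᵥ p)))) (kk j x)).det with hδ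
  set δ0 := (M2 * (C * (M1 * (A * B)))).det with hδ0
  have hL := LL_pos hx
  have hR := RR_pos x
  have hY := YY_pos j x
  have hr := hx.1
  have hX : 0 ≤ RR x * YY j x * LL x / (2 * rr x ^ 2 * tt x) := by positivity
  have hsd : 3 / 4 ≤ -s1 * δ := by
    have hs0 : 1 ≤ -s1 * δ0 := by
      rw [hdet]
      have := h.sq1
      calc (1 : ℝ) ≤ 4 * ((1 - ta j x) ^ 2 + ta j x ^ 2) ^ 2 := hge1
        _ = (s1 * s1) * (4 * ((1 - ta j x) ^ 2 + ta j x ^ 2) ^ 2) := by rw [this, one_mul]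
        _ = _ := by ring
    have habs : |-s1 * (δ - δ0)| ≤ 1 / 4 := by
      rw [abs_mul, abs_neg]
      have a := abs_le_one_of_sq h.sq1
      calc |s1| * |δ - δ0| ≤ 1 * (1 / 4) := mul_le_mul a hpert' (abs_nonneg _) zero_le_one
        _ = _ := by ring
    have := (abs_le.mp habs).1
    linarith [mul_sub (-s1) δ δ0]
  have e : Real.exp (-RR x) ^ 3 * (δ * (-s1 * (RR x * YY j x * LL x / (2 * rr x ^ 2 * tt x)))) =
      Real.exp (-RR x) ^ 3 * ((-s1 * δ) * (RR x * YY j x * LL x / (2 * rr x ^ 2 * tt x))) := by ring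
  rw [e]
  apply mul_le_mul_of_nonneg_left _ (by positivity)
  have e2 : 3 / 8 * (RR x * YY j x * LL x / (rr x ^ 2 * tt x)) =
      3 / 4 * (RR x * YY j x * LL x / (2 * rr x ^ 2 * tt x)) := by
    field_simp; ring
  rw [e2]
  exact mul_le_mul_of_nonneg_right hsd hX

end Pool.Agent.Helper13.FD
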