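import Mathlib
import Pool.Agent.Helper13.FD.Det

/-!
The set of good points and its full measure; derivative estimates at good points.
-/

set_option autoImplicit false
set_option linter.unusedVariables false
set_option linter.unusedSimpArgs false
set_option linter.deprecated false

noncomputable section

open Filter Topology MeasureTheory Set Matrix

namespace Pool.Agent.Helper13.FD

/-- iterates -/
def W (j i : ℕ) (y : E) : E := Lm^[i] (q4 j y)
/-- half step -/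
def Vm (j i : ℕ) (y : E) : E := Dm (Am 1 (W j i y))
/-- without the exponential factor -/
def s4 (j : ℕ) (y : E) : E := wm (ta j y) (bas (j + 1) y)
/-- without the exponential factor -/
def Sj (j : ℕ) (y : E) : E := Lm^[j] (s4 j y)

/-! ### local Lipschitz -/

lemma lLip_Dm (p : E) : LLip Dm p :=
  lLip_of_bound (s := univ) univ_mem (by norm_num : (0 : ℝ) ≤ 12) fun p _ q _ => Dm_lip p q

lemma lLip_Lm_iter (j : ℕ) (p : E) : LLip (Lm^[j]) p :=
  lLip_of_bound (s := univ) univ_mem (by positivity : (0 : ℝ) ≤ 44 * 2 ^ j)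
    fun p _ q _ => Lm_iter_lip j p q

/-- joint map -/
def AmC (p : ℝ × E) : E := Am (c01 p.1) p.2

lemma lLip_AmC (p : ℝ × E) : LLip AmC p := by
  refine lLip_of_bound (s := Metric.ball p 1) (Metric.ball_mem_nhds p one_pos)
    (K := 5 + 4 * (‖p.2‖ + 1)) (by positivity) ?_
  intro u hu v hv
  have h1 := norm_Am_sub_le (t' := c01 v.1) (c01_nonneg u.1) (c01_le_one u.1) u.2 v.2
  have h2 := c01_lip u.1 v.1
  have n1 : |u.1 - v.1| ≤ ‖u - v‖ := fst_norm_le u v
  have n2 : ‖u.2 - v.2‖ ≤ ‖u - v‖ := snd_norm_le u v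
  have n3 : ‖v.2‖ ≤ ‖p.2‖ + 1 := by
    have h3 : ‖v - p‖ < 1 := by rw [← dist_eq_norm]; exact hv
    have h4 : ‖v.2 - p.2‖ ≤ ‖v - p‖ := snd_norm_le v p
    have h5 := norm_le_norm_add_norm_sub' v.2 p.2
    linarith
  have h6 : |c01 u.1 - c01 v.1| * ‖v.2‖ ≤ ‖u - v‖ * (‖p.2‖ + 1) :=
    mul_le_mul (h2.trans n1) n3 (norm_nonneg _) (norm_nonneg _)
  show ‖Am (c01 u.1) u.2 - Am (c01 v.1) v.2‖ ≤ _
  nlinarith

lemma lLip_kapsub {x : E} (hx : 0 < rr x) (ht : 0 < tt x) (j : ℕ) :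
    LLip (fun y => kap y - (j : ℝ)) x := (lLip_kap hx ht).sub (lLip_const _ x)

lemma lLip_expR {x : E} (hx : 0 < rr x) (ht : 0 < tt x) : LLip (fun y => Real.exp (-RR y)) x :=
  lLip_real (g := Real.exp) Real.contDiff_exp.contDiffAt (lLip_RR hx ht).neg

lemma lLip_q0 {x : E} (hx : 0 < rr x) (ht : 0 < tt x) (j : ℕ) : LLip (q0 j) x :=
  (lLip_expR hx ht).smul (lLip_bas (j + 1) hx ht)

lemma lLip_Amq0 {x : E} (hx : 0 < rr x) (ht : 0 < tt x) (j : ℕ) :
    LLip (fun y => Am (ta j y) (q0 j y)) x :=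
  LLip.comp (f := fun y => (kap y - (j : ℝ), q0 j y)) (g := AmC) (x := x) (lLip_AmC _)
    (LLip.prodMk (f := fun y => kap y - (j : ℝ)) (g := q0 j) (lLip_kapsub hx ht j) (lLip_q0 hx ht j))

lemma lLip_q2 {x : E} (hx : 0 < rr x) (ht : 0 < tt x) (j : ℕ) : LLip (q2 j) x :=
  LLip.comp (f := fun y => Am (ta j y) (q0 j y)) (g := Dm) (x := x) (lLip_Dm _) (lLip_Amq0 hx ht j)

/-- joint map -/
def wmC (p : ℝ × E) : E := wm (c01 p.1) p.2

lemma lLip_wmC (p : ℝ × E) : LLip wmC p := lLip_wm01 p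

lemma q4_eq (j : ℕ) (y : E) : q4 j y = wm (ta j y) (q0 j y) := rfl

lemma lLip_q4 {x : E} (hx : 0 < rr x) (ht : 0 < tt x) (j : ℕ) : LLip (q4 j) x :=
  LLip.comp (f := fun y => (kap y - (j : ℝ), q0 j y)) (g := wmC) (x := x) (lLip_wmC _)
    (LLip.prodMk (f := fun y => kap y - (j : ℝ)) (g := q0 j) (lLip_kapsub hx ht j) (lLip_q0 hx ht j))

lemma lLip_s4 {x : E} (hx : 0 < rr x) (ht : 0 < tt x) (j : ℕ) : LLip (s4 j) x :=
  LLip.comp (f := fun y => (kap y - (j : ℝ), bas (j + 1) y)) (g := wmC) (x := x) (lLip_wmC _)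
    (LLip.prodMk (f := fun y => kap y - (j : ℝ)) (g := bas (j + 1)) (lLip_kapsub hx ht j)
      (lLip_bas (j + 1) hx ht))

lemma lLip_W {x : E} (hx : 0 < rr x) (ht : 0 < tt x) (j i : ℕ) : LLip (W j i) x :=
  LLip.comp (f := q4 j) (g := Lm^[i]) (x := x) (lLip_Lm_iter i _) (lLip_q4 hx ht j)

lemma lLip_Sj {x : E} (hx : 0 < rr x) (ht : 0 < tt x) (j : ℕ) : LLip (Sj j) x :=
  LLip.comp (f := s4 j) (g := Lm^[j]) (x := x) (lLip_Lm_iter j _) (lLip_s4 hx ht j)

lemma Am_eq_clm (t : ℝ) (p : E) : Am t p = clm (AmM t) p := by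
  apply ext3 <;> rw [clm_apply] <;> simp [AmM]

lemma Bm_eq_clm (t : ℝ) (p : E) : Bm t p = clm (BmM t) p := by
  apply ext3 <;> rw [clm_apply] <;> simp [BmM]
  ring

lemma lLip_clm (M : Matrix (Fin 3) (Fin 3) ℝ) (p : E) : LLip (clm M) p :=
  ((clm M).contDiff.contDiffAt : ContDiffAt ℝ 1 (clm M) p).lLip

lemma lLip_Vm {x : E} (hx : 0 < rr x) (ht : 0 < tt x) (j i : ℕ) : LLip (Vm j i) x := by
  have h1 : LLip (fun y => Am 1 (W j i y)) x := by
    have := LLip.comp (f := W j i) (g := clm (AmM 1)) (x := x) (lLip_clm _ _) (lLip_W hx ht j i)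
    exact this.congr (Eventually.of_forall fun y => (Am_eq_clm 1 _).symm)
  exact LLip.comp (f := fun y => Am 1 (W j i y)) (g := Dm) (x := x) (lLip_Dm _) h1

/-! ### good points -/

/-- good points -/
structure Good (x : E) : Prop where
  mem : x ∈ U0
  h0 : x 0 ≠ 0
  h1 : x 1 ≠ 0
  hk : ∀ j : ℕ, kap x ≠ j
  d0 : ∀ j, DifferentiableAt ℝ (q0 j) x
  d2 : ∀ j, DifferentiableAt ℝ (q2 j) x
  d4 : ∀ j, DifferentiableAt ℝ (q4 j) x
  ds : ∀ j, DifferentiableAt ℝ (s4 j) x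
  db : ∀ j, DifferentiableAt ℝ (bas j) x
  dS : ∀ j, DifferentiableAt ℝ (Sj j) x
  dW : ∀ j i, DifferentiableAt ℝ (W j i) x
  dV : ∀ j i, DifferentiableAt ℝ (Vm j i) x

lemma ae_coord_ne (i : Fin 3) : ∀ᵐ x : E ∂volume, x i ≠ 0 := by
  have h := MeasureTheory.Measure.addHaar_submodule (volume : Measure E)
    (LinearMap.ker (pr i).toLinearMap) (by
      intro hcon
      have : (EuclideanSpace.single i (1 : ℝ) : E) ∈ LinearMap.ker (pr i).toLinearMap := by
        rw [hcon]; trivial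
      rw [LinearMap.mem_ker] at this
      have h2 : (EuclideanSpace.single i (1 : ℝ) : E) i = 0 := this
      simp at h2)
  rw [ae_iff]
  refine measure_mono_null ?_ h
  intro x hx
  simp only [ne_eq, not_not, mem_setOf_eq] at hx
  exact hx

lemma ae_kap_ne (j : ℕ) : ∀ᵐ x : E ∂volume, x ∈ U0 → x 0 ≠ 0 → x 1 ≠ 0 → kap x ≠ j := by
  have hL : ∀ x ∈ U0, LLip (fun y => |kap y - (j : ℝ)|) x := by
    intro x hx
    have h1 : LLip (fun t : ℝ => |t|) (kap x - j) :=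
      lLip_of_bound (s := univ) univ_mem zero_le_one fun p _ q _ => by
        rw [Real.norm_eq_abs, Real.norm_eq_abs, one_mul]; exact abs_abs_sub_abs_le_abs_sub p q
    exact LLip.comp (f := fun y => kap y - (j : ℝ)) (g := fun t : ℝ => |t|) (x := x) h1
      (lLip_kapsub hx.1 (tt_pos hx) j)
  filter_upwards [ae_differentiableAt_of_lLip volume hL] with x hd hx h0 h1 hk
  have hdx := hd hx
  obtain ⟨s0, s1, hs⟩ := exists_Sg h0 h1
  have hK := (hs.hasFDerivAt_kap (tt_pos hx)).sub_const (j : ℝ)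
  have hmin : IsLocalMin (fun y => |kap y - (j : ℝ)|) x := by
    refine Eventually.of_forall fun y => ?_
    show |kap x - (j : ℝ)| ≤ |kap y - (j : ℝ)|
    rw [hk, sub_self, abs_zero]; exact abs_nonneg _
  have hz := hmin.fderiv_eq_zero
  obtain ⟨b, -, hb⟩ := fderiv_mem_pieces (ι := Bool) hK.differentiableAt
    (fun b y => cond b (|kap y - (j : ℝ)|) (-|kap y - (j : ℝ)|))
    (fun b => by cases b; exact hdx.neg; exact hdx)
    (Eventually.of_forall fun y => by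
      rcases abs_choice (kap y - (j : ℝ)) with h | h
      · exact ⟨true, by simp [h]⟩
      · exact ⟨false, by simp [h]⟩)
  rw [hK.fderiv] at hb
  have hz' : row (gK x s0 s1) = 0 := by
    rw [hb]
    cases b
    · simp only [cond_false]
      have : (fun y => -|kap y - (j : ℝ)|) = - (fun y => |kap y - (j : ℝ)|) := rfl
      rw [this, fderiv_neg, hz, neg_zero]
    · simpa using hz
  have hv := congrArg (fun f : E →L[ℝ] ℝ => f (mk 0 0 1)) hz'
  simp only [row_apply, mk_0, mk_1, mk_2, mul_zero, mul_one, zero_add] at hv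
  have h3 : LL x / (2 * Real.log 2) = 0 := hv
  have hLL := LL_pos hx
  have h2 := Real.log_pos (by norm_num : (1 : ℝ) < 2)
  have : 0 < LL x / (2 * Real.log 2) := by positivity
  linarith

lemma good_ae : ∀ᵐ x : E ∂volume, x ∈ U0 → Good x := by
  have hk : ∀ᵐ x : E ∂volume, ∀ j : ℕ, x ∈ U0 → x 0 ≠ 0 → x 1 ≠ 0 → kap x ≠ j :=
    ae_all_iff.mpr ae_kap_ne
  have a0 : ∀ᵐ x : E ∂volume, ∀ j, x ∈ U0 → DifferentiableAt ℝ (q0 j) x :=
    ae_all_iff.mpr fun j => ae_differentiableAt_of_lLip volume fun x hx => lLip_q0 hx.1 (tt_pos hx) j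
  have a2 : ∀ᵐ x : E ∂volume, ∀ j, x ∈ U0 → DifferentiableAt ℝ (q2 j) x :=
    ae_all_iff.mpr fun j => ae_differentiableAt_of_lLip volume fun x hx => lLip_q2 hx.1 (tt_pos hx) j
  have a4 : ∀ᵐ x : E ∂volume, ∀ j, x ∈ U0 → DifferentiableAt ℝ (q4 j) x :=
    ae_all_iff.mpr fun j => ae_differentiableAt_of_lLip volume fun x hx => lLip_q4 hx.1 (tt_pos hx) j
  have as : ∀ᵐ x : E ∂volume, ∀ j, x ∈ U0 → DifferentiableAt ℝ (s4 j) x :=
    ae_all_iff.mpr fun j => ae_differentiableAt_of_lLip volume fun x hx => lLip_s4 hx.1 (tt_pos hx) j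
  have ab : ∀ᵐ x : E ∂volume, ∀ j, x ∈ U0 → DifferentiableAt ℝ (bas j) x :=
    ae_all_iff.mpr fun j => ae_differentiableAt_of_lLip volume fun x hx => lLip_bas j hx.1 (tt_pos hx)
  have aS : ∀ᵐ x : E ∂volume, ∀ j, x ∈ U0 → DifferentiableAt ℝ (Sj j) x :=
    ae_all_iff.mpr fun j => ae_differentiableAt_of_lLip volume fun x hx => lLip_Sj hx.1 (tt_pos hx) j
  have aW : ∀ᵐ x : E ∂volume, ∀ j i, x ∈ U0 → DifferentiableAt ℝ (W j i) x :=
    ae_all_iff.mpr fun j => ae_all_iff.mpr fun i =>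
      ae_differentiableAt_of_lLip volume fun x hx => lLip_W hx.1 (tt_pos hx) j i
  have aV : ∀ᵐ x : E ∂volume, ∀ j i, x ∈ U0 → DifferentiableAt ℝ (Vm j i) x :=
    ae_all_iff.mpr fun j => ae_all_iff.mpr fun i =>
      ae_differentiableAt_of_lLip volume fun x hx => lLip_Vm hx.1 (tt_pos hx) j i
  filter_upwards [hk, a0, a2, a4, as, ab, aS, aW, aV, ae_coord_ne 0, ae_coord_ne 1] with
    x hk a0 a2 a4 as ab aS aW aV h0 h1 hx
  exact ⟨hx, h0, h1, fun j => hk j hx h0 h1, fun j => a0 j hx, fun j => a2 j hx, fun j => a4 j hx,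
    fun j => as j hx, fun j => ab j hx, fun j => aS j hx, fun j i => aW j i hx, fun j i => aV j i hx⟩

/-! ### determinant at good points -/

lemma dt_Dm_step {g : E → E} {x : E} (hg : DifferentiableAt ℝ g x)
    (hD : DifferentiableAt ℝ (fun y => Dm (g y)) x) :
    dt (fderiv ℝ (fun y => Dm (g y)) x) = 2 * dt (fderiv ℝ g x) := by
  obtain ⟨M, hM, -, h⟩ := Dm_step hg hD
  rw [h, dt_comp, dt_clm, hM.det]

lemma dt_W {x : E} (hx : Good x) (j i : ℕ) :
    dt (fderiv ℝ (W j i) x) = 4 ^ i * dt (fderiv ℝ (q4 j) x) := by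
  induction i with
  | zero =>
    have : W j 0 = q4 j := rfl
    rw [this]; simp
  | succ i ih =>
    have hA : HasFDerivAt (fun y => Am 1 (W j i y)) ((clm (AmM 1)).comp (fderiv ℝ (W j i) x)) x := by
      have := (clm (AmM 1)).hasFDerivAt.comp x (hx.dW j i).hasFDerivAt
      refine this.congr_of_eventuallyEq (Eventually.of_forall fun y => ?_)
      exact Am_eq_clm 1 _
    have hV := dt_Dm_step hA.differentiableAt (hx.dV j i)
    have hB : HasFDerivAt (fun y => Bm 1 (Vm j i y)) ((clm (BmM 1)).comp (fderiv ℝ (Vm j i) x)) x := by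
      have := (clm (BmM 1)).hasFDerivAt.comp x (hx.dV j i).hasFDerivAt
      refine this.congr_of_eventuallyEq (Eventually.of_forall fun y => ?_)
      exact Bm_eq_clm 1 _
    have hW : W j (i + 1) = fun y => Dm (Bm 1 (Vm j i y)) := by
      funext y
      show Lm^[i + 1] (q4 j y) = _
      rw [Function.iterate_succ_apply']
      rfl
    have hdW := hx.dW j (i + 1)
    rw [hW] at hdW ⊢
    rw [dt_Dm_step hB.differentiableAt hdW, hB.fderiv, dt_comp, dt_clm, det_BmM]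
    have hV' : dt (fderiv ℝ (Vm j i) x) = 2 * dt (fderiv ℝ (fun y => Am 1 (W j i y)) x) := hV
    rw [hV', hA.fderiv, dt_comp, dt_clm, det_AmM, ih]
    ring

lemma ff_eventuallyEq {x : E} (hx : x ∈ U0) {j : ℕ} (h1 : (j : ℝ) < kap x) (h2 : kap x < j + 1) :
    ff =ᶠ[𝓝 x] fun y => Real.exp (-RR y) • Sj j y := by
  have hk := (lLip_kap hx.1 (tt_pos hx)).continuousAt
  filter_upwards [continuousAt_const.eventually_lt hk h1, hk.eventually_lt continuousAt_const h2,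
    isOpen_U0.mem_nhds hx] with y hy1 hy2 hyU
  rw [ff_eq' hyU.1 hy1.le hy2.le]
  have : ta j y = kap y - j := c01_of_mem (by linarith) (by linarith)
  unfold Sj s4
  rw [this]
  rfl

lemma expSj_eq (j : ℕ) (y : E) : Real.exp (-RR y) • Sj j y = W j j y := by
  unfold Sj s4 W
  rw [q4_eq, q0, wm_smul _ (Real.exp_pos _).le, Lm_iter_smul j (Real.exp_pos _).le]

lemma ff_eventuallyEq_W {x : E} (hx : x ∈ U0) {j : ℕ} (h1 : (j : ℝ) < kap x)
    (h2 : kap x < j + 1) : ff =ᶠ[𝓝 x] W j j := by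
  filter_upwards [ff_eventuallyEq hx h1 h2] with y hy
  rw [hy, expSj_eq]

lemma Good.level {x : E} (hx : Good x) : ∃ j : ℕ, (j : ℝ) < kap x ∧ kap x < j + 1 := by
  obtain ⟨j, h1, h2⟩ := exists_level hx.mem
  refine ⟨j, lt_of_le_of_ne h1 (Ne.symm (hx.hk j)), lt_of_le_of_ne h2 ?_⟩
  have := hx.hk (j + 1)
  push_cast at this
  exact this

lemma Good.diff {x : E} (hx : Good x) : DifferentiableAt ℝ ff x := by
  obtain ⟨j, h1, h2⟩ := hx.level
  exact (hx.dW j j).congr_of_eventuallyEq (ff_eventuallyEq_W hx.mem h1 h2)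

/-- lower bound of the Jacobian -/
lemma Good.det_ge {x : E} (hx : Good x) :
    3 / 32 * (Real.exp (-RR x) ^ 3 * MM x ^ 3 * tt x * LL x / rr x ^ 2) ≤ dt (fderiv ℝ ff x) := by
  obtain ⟨j, h1, h2⟩ := hx.level
  obtain ⟨s0, s1, hs⟩ := exists_Sg hx.h0 hx.h1
  obtain ⟨D, hD, hdet⟩ := St_q4 hx.mem hs h1 h2 (hx.d0 j) (hx.d2 j) (hx.d4 j)
  have ht := tt_pos hx.mem
  rw [(ff_eventuallyEq_W hx.mem h1 h2).fderiv_eq, dt_W hx, hD.fderiv, dt_clm]
  have h4 : (0 : ℝ) < 4 ^ j := by positivity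
  have := mul_le_mul_of_nonneg_left hdet h4.le
  refine le_trans (le_of_eq ?_) this
  rw [YY_eq ht, RR_eq ht, pow_succ]
  have hr := hx.mem.1
  field_simp
  ring

end Pool.Agent.Helper13.FD
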