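import Mathlib
import Pool.Agent.Helper13.FD.AE

/-!
Upper bound of the norm of the derivative at good points.
-/

set_option autoImplicit false
set_option linter.unusedVariables false
set_option linter.unusedSimpArgs false
set_option linter.deprecated false

noncomputable section

open Filter Topology MeasureTheory Set Matrix

namespace Pool.Agent.Helper13.FD

lemma norm_row_le (v : Fin 3 → ℝ) : ‖row v‖ ≤ |v 0| + |v 1| + |v 2| := by
  refine ContinuousLinearMap.opNorm_le_bound _ (by positivity) fun x => ?_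
  rw [row_apply, Real.norm_eq_abs]
  have h := bd_sum3 (a0 := v 0) (a1 := v 1) (a2 := v 2) le_rfl (norm_nonneg x) (abs_le_norm x 0)
    (abs_le_norm x 1) (abs_le_norm x 2)
  exact h

lemma exp_tt {x : E} (hx : x ∈ U0) : Real.exp (tt x) = 1 / rr x := by
  have h := exp_neg_tt hx.1
  rw [Real.exp_neg] at h
  rw [← h]; simp

lemma LL_le {x : E} (hx : x ∈ U0) : LL x ≤ tt x := by
  have := Real.log_le_sub_one_of_pos (tt_pos hx)
  unfold LL; linarith

lemma tL_le {x : E} (hx : x ∈ U0) : tt x * LL x ≤ 1 / rr x := by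
  have ht := tt_pos hx
  have hgt := tt_gt hx
  have h0 : t0 = 10 ^ 12 := rfl
  rw [h0] at hgt
  have h3 := Real.pow_div_factorial_le_exp (tt x) ht.le 3
  have hf : ((3 : ℕ).factorial : ℝ) = 6 := by norm_num [Nat.factorial]
  rw [hf, exp_tt hx] at h3
  have hL := LL_le hx
  have h4 : tt x * LL x ≤ tt x ^ 2 := by nlinarith
  have h5 : tt x ^ 2 ≤ tt x ^ 3 / 6 := by
    rw [le_div_iff₀ (by norm_num)]
    nlinarith [sq_nonneg (tt x)]
  linarith

lemma one_le_inv_rr {x : E} (hx : x ∈ U0) : tt x ≤ 1 / rr x := by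
  rw [← exp_tt hx]
  have := Real.add_one_le_exp (tt x)
  linarith

lemma abs_coord_div {x : E} {s0 s1 : ℝ} (h : Sg x s0 s1) :
    |s0| = 1 ∧ |s1| = 1 ∧ 0 ≤ x 0 * s0 ∧ x 0 * s0 ≤ rr x ∧ 0 ≤ x 1 * s1 ∧ x 1 * s1 ≤ rr x ∧
      |x 0| ≤ rr x ∧ |x 1| ≤ rr x := by
  have h0 := abs_of_sg h.sq0 h.pos0
  have h1 := abs_of_sg h.sq1 h.pos1
  have hr := h.rr_eq
  have p0 := h.pos0
  have p1 := h.pos1
  have a0 : |s0| = 1 := by
    rcases mul_self_eq_one_iff.mp h.sq0 with h | h <;> rw [h] <;> norm_num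
  have a1 : |s1| = 1 := by
    rcases mul_self_eq_one_iff.mp h.sq1 with h | h <;> rw [h] <;> norm_num
  refine ⟨a0, a1, by linarith, by linarith, by linarith, by linarith, by linarith, by linarith⟩

lemma norm_gA {x : E} {s0 s1 : ℝ} (h : Sg x s0 s1) : ‖row (gA x s0 s1)‖ ≤ 2 / rr x := by
  obtain ⟨a0, a1, p0, l0, p1, l1, m0, m1⟩ := abs_coord_div h
  have hr := h.rr_pos
  refine (norm_row_le _).trans ?_
  simp only [gA, Matrix.cons_val_zero, Matrix.cons_val_one, Matrix.cons_val_two, Matrix.tail_cons,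
    Matrix.head_cons, abs_zero, Matrix.cons_val]
  have e1 : |1 / rr x - x 0 * s0 / rr x ^ 2| ≤ 1 / rr x := by
    have e : 1 / rr x - x 0 * s0 / rr x ^ 2 = (rr x - x 0 * s0) / rr x ^ 2 := by
      field_simp
    rw [e, abs_of_nonneg (div_nonneg (by linarith) (by positivity)),
      div_le_div_iff₀ (by positivity) hr]
    nlinarith
  have e2 : |-(x 0 * s1 / rr x ^ 2)| ≤ 1 / rr x := by
    rw [abs_neg, abs_div, abs_mul, a1, mul_one, abs_of_pos (by positivity : 0 < rr x ^ 2),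
      div_le_div_iff₀ (by positivity) hr]
    nlinarith
  have : 2 / rr x = 1 / rr x + 1 / rr x := by ring
  linarith

lemma norm_gB {x : E} {s0 s1 : ℝ} (h : Sg x s0 s1) :
    ‖row ![- (x 1 * s0 / rr x ^ 2), 1 / rr x - x 1 * s1 / rr x ^ 2, 0]‖ ≤ 2 / rr x := by
  obtain ⟨a0, a1, p0, l0, p1, l1, m0, m1⟩ := abs_coord_div h
  have hr := h.rr_pos
  refine (norm_row_le _).trans ?_
  simp only [Matrix.cons_val_zero, Matrix.cons_val_one, Matrix.cons_val_two, Matrix.tail_cons,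
    Matrix.head_cons, abs_zero, Matrix.cons_val]
  have e1 : |1 / rr x - x 1 * s1 / rr x ^ 2| ≤ 1 / rr x := by
    have e : 1 / rr x - x 1 * s1 / rr x ^ 2 = (rr x - x 1 * s1) / rr x ^ 2 := by
      field_simp
    rw [e, abs_of_nonneg (div_nonneg (by linarith) (by positivity)),
      div_le_div_iff₀ (by positivity) hr]
    nlinarith
  have e2 : |-(x 1 * s0 / rr x ^ 2)| ≤ 1 / rr x := by
    rw [abs_neg, abs_div, abs_mul, a0, mul_one, abs_of_pos (by positivity : 0 < rr x ^ 2),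
      div_le_div_iff₀ (by positivity) hr]
    nlinarith
  have : 2 / rr x = 1 / rr x + 1 / rr x := by ring
  linarith

lemma w_bd {x : E} {s0 s1 : ℝ} (hx : x ∈ U0) (h : Sg x s0 s1) :
    |s0 / (rr x * tt x)| = 1 / (rr x * tt x) ∧ |s1 / (rr x * tt x)| = 1 / (rr x * tt x) := by
  obtain ⟨a0, a1, -⟩ := abs_coord_div h
  have hr := h.rr_pos
  have ht := tt_pos hx
  have hp : 0 < rr x * tt x := by positivity
  constructor
  · rw [abs_div, a0, abs_of_pos hp]
  · rw [abs_div, a1, abs_of_pos hp]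

lemma norm_gR {x : E} {s0 s1 : ℝ} (hx : x ∈ U0) (h : Sg x s0 s1) :
    ‖row (gR x s0 s1)‖ ≤ 4 * MM x / rr x := by
  obtain ⟨w0, w1⟩ := w_bd hx h
  have hr := hx.1
  have ht := tt_pos hx
  have hM : 0 < MM x := Real.exp_pos _
  have hL := LL_pos hx
  have hR := RR_pos x
  have x2a := hx.2.2.1
  have x2b := hx.2.2.2
  refine (norm_row_le _).trans ?_
  simp only [gR, Matrix.cons_val_zero, Matrix.cons_val_one, Matrix.cons_val_two, Matrix.tail_cons,
    Matrix.head_cons, Matrix.cons_val]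
  rw [abs_neg, abs_neg, abs_mul (RR x * ((x 2 + 1) / 2)), abs_mul (RR x * ((x 2 + 1) / 2)), w0, w1,
    abs_of_pos (by have : 0 < (x 2 + 1) / 2 := by linarith
                   positivity),
    abs_of_pos (by positivity), RR_eq ht]
  have e1 : MM x * tt x * ((x 2 + 1) / 2) * (1 / (rr x * tt x)) ≤ 3 / 2 * (MM x / rr x) := by
    have : MM x * tt x * ((x 2 + 1) / 2) * (1 / (rr x * tt x)) = ((x 2 + 1) / 2) * (MM x / rr x) := by
      field_simp
    rw [this]
    exact mul_le_mul_of_nonneg_right (by linarith) (by positivity)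
  have e2 : MM x * tt x * (LL x / 2) ≤ 1 / 2 * (MM x / rr x) := by
    have := mul_le_mul_of_nonneg_left (tL_le hx) hM.le
    have e : MM x / rr x = MM x * (1 / rr x) := by ring
    rw [e]; nlinarith
  have e3 : 4 * MM x / rr x = 4 * (MM x / rr x) := by ring
  have e4 : 0 < MM x / rr x := by positivity
  rw [e3]; linarith

lemma norm_gY {x : E} {s0 s1 : ℝ} (hx : x ∈ U0) (h : Sg x s0 s1) {j : ℕ} (h2 : kap x ≤ j + 1) :
    ‖row (gY j x s0 s1)‖ ≤ 5 / rr x := by
  obtain ⟨w0, w1⟩ := w_bd hx h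
  have hr := hx.1
  have ht := tt_pos hx
  have hL := LL_pos hx
  have hY := YY_pos j x
  have hYt := YY_le hx h2
  have x2a := hx.2.2.1
  have x2b := hx.2.2.2
  refine (norm_row_le _).trans ?_
  simp only [gY, Matrix.cons_val_zero, Matrix.cons_val_one, Matrix.cons_val_two, Matrix.tail_cons,
    Matrix.head_cons, Matrix.cons_val]
  rw [abs_neg, abs_neg, abs_mul (YY j x * x 2), abs_mul (YY j x * x 2), w0, w1,
    abs_of_pos (by have : 0 < x 2 := by linarith
                   positivity),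
    abs_of_pos (by positivity)]
  have e1 : YY j x * x 2 * (1 / (rr x * tt x)) ≤ 2 / rr x := by
    have a : YY j x * x 2 ≤ tt x * 2 := mul_le_mul hYt x2b.le (by linarith) ht.le
    calc YY j x * x 2 * (1 / (rr x * tt x)) ≤ tt x * 2 * (1 / (rr x * tt x)) :=
          mul_le_mul_of_nonneg_right a (by positivity)
      _ = 2 / rr x := by field_simp
  have e2 : YY j x * LL x ≤ 1 / rr x :=
    (mul_le_mul_of_nonneg_right hYt hL.le).trans (tL_le hx)
  have e3 : 5 / rr x = 2 / rr x + 2 / rr x + 1 / rr x := by ring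
  rw [e3]; linarith

lemma norm_gK {x : E} {s0 s1 : ℝ} (hx : x ∈ U0) (h : Sg x s0 s1) :
    ‖row (gK x s0 s1)‖ ≤ 5 / rr x := by
  obtain ⟨w0, w1⟩ := w_bd hx h
  have hr := hx.1
  have ht := tt_pos hx
  have hL := LL_pos hx
  have hLt := LL_le hx
  have x2a := hx.2.2.1
  have x2b := hx.2.2.2
  have hl := log2_gt
  have htr := one_le_inv_rr hx
  have hgt := tt_gt hx
  have h0 : t0 = 10 ^ 12 := rfl
  rw [h0] at hgt
  refine (norm_row_le _).trans ?_
  simp only [gK, Matrix.cons_val_zero, Matrix.cons_val_one, Matrix.cons_val_two, Matrix.tail_cons,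
    Matrix.head_cons, Matrix.cons_val]
  have hl2 : 0 < 2 * Real.log 2 := by linarith
  have hw : 1 / (rr x * tt x) ≤ 1 / rr x := by
    apply one_div_le_one_div_of_le hr
    nlinarith
  have hwp : 0 < 1 / (rr x * tt x) := by positivity
  have c : ∀ s : ℝ, |s / (rr x * tt x)| = 1 / (rr x * tt x) →
      |-((x 2 - 1) * (s / (rr x * tt x)) / (2 * Real.log 2))| ≤ 1 / rr x := by
    intro s hs
    rw [abs_neg, abs_div, abs_mul, hs, abs_of_pos (by linarith : 0 < x 2 - 1), abs_of_pos hl2,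
      div_le_iff₀ hl2]
    have a : (x 2 - 1) * (1 / (rr x * tt x)) ≤ 1 * (1 / rr x) :=
      mul_le_mul (by linarith) hw hwp.le zero_le_one
    have b : (0 : ℝ) < 1 / rr x := by positivity
    nlinarith
  have e1 := c s0 w0
  have e2 := c s1 w1
  have e3 : |LL x / (2 * Real.log 2)| ≤ 1 / rr x := by
    rw [abs_of_pos (by positivity), div_le_iff₀ hl2]
    have b : (0 : ℝ) < 1 / rr x := by positivity
    nlinarith
  have e5 : (0 : ℝ) < 1 / rr x := by positivity
  have e4 : 5 / rr x = 5 * (1 / rr x) := by ring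
  rw [e4]; linarith

lemma norm_prod_le' {F G : Type*} [NormedAddCommGroup F] [NormedSpace ℝ F] [NormedAddCommGroup G]
    [NormedSpace ℝ G] {f : E →L[ℝ] F} {g : E →L[ℝ] G} {c : ℝ} (hf : ‖f‖ ≤ c) (hg : ‖g‖ ≤ c) :
    ‖f.prod g‖ ≤ c := by
  rw [ContinuousLinearMap.opNorm_prod]
  exact max_le hf hg

/-- norm of the derivative of the base -/
lemma norm_fderiv_bas {x : E} {s0 s1 : ℝ} (hx : Good x) (h : Sg x s0 s1) {j : ℕ}
    (h2 : kap x < j + 1) : ‖fderiv ℝ (bas (j + 1)) x‖ ≤ 20 / rr x := by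
  have ht := tt_pos hx.mem
  have hA := h.hasFDerivAt_aa
  have hB := h.hasFDerivAt_bb
  have hY := h.hasFDerivAt_YY ht j
  have hT : HasFDerivAt (tri (j + 1)) ((row (gA x s0 s1)).prod
    ((row ![- (x 1 * s0 / rr x ^ 2), 1 / rr x - x 1 * s1 / rr x ^ 2, 0]).prod
      (row (gY j x s0 s1)))) x := hA.prodMk (hB.prodMk hY)
  have hr := hx.mem.1
  have h25 : 2 / rr x ≤ 5 / rr x := by
    apply div_le_div_of_nonneg_right _ hr.le; norm_num
  have hn : ‖fderiv ℝ (tri (j + 1)) x‖ ≤ 5 / rr x := by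
    rw [hT.fderiv]
    exact norm_prod_le' ((norm_gA h).trans h25)
      (norm_prod_le' ((norm_gB h).trans h25) (norm_gY hx.mem h h2.le))
  have := norm_fderiv_comp_le (g := base3) (h := tri (j + 1)) (x := x) (s := univ) (K := 4)
    (by norm_num) (fun p _ q _ => base3_lip p q) (Eventually.of_forall fun _ => trivial)
    hT.differentiableAt (f := bas (j + 1)) (Eventually.of_forall fun y => rfl) (hx.db _)
  refine this.trans ?_
  have e : 20 / rr x = 4 * (5 / rr x) := by ring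
  rw [e]
  exact mul_le_mul_of_nonneg_left hn (by norm_num)

lemma norm_fderiv_s4 {x : E} {s0 s1 : ℝ} (hx : Good x) (h : Sg x s0 s1) {j : ℕ}
    (h1 : (j : ℝ) < kap x) (h2 : kap x < j + 1) : ‖fderiv ℝ (s4 j) x‖ ≤ 360000 / rr x := by
  have ht := tt_pos hx.mem
  have hr := hx.mem.1
  have hτ := hasFDerivAt_ta h ht h1 h2
  rw [← gK_eq] at hτ
  have hb := (hx.db (j + 1)).hasFDerivAt
  have hP : HasFDerivAt (fun y => (ta j y, bas (j + 1) y))
    ((row (gK x s0 s1)).prod (fderiv ℝ (bas (j + 1)) x)) x := hτ.prodMk hb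
  have hn : ‖fderiv ℝ (fun y => (ta j y, bas (j + 1) y)) x‖ ≤ 20 / rr x := by
    rw [hP.fderiv]
    have : 5 / rr x ≤ 20 / rr x := by
      apply div_le_div_of_nonneg_right _ hr.le; norm_num
    exact norm_prod_le' ((norm_gK hx.mem h).trans this) (norm_fderiv_bas hx h h2)
  have hev : ∀ᶠ y in 𝓝 x, (ta j y, bas (j + 1) y) ∈
      {u : ℝ × E | 0 ≤ u.1 ∧ u.1 ≤ 1 ∧ ‖u.2‖ ≤ 2} := by
    filter_upwards [isOpen_U0.mem_nhds hx.mem] with y hy
    exact ⟨c01_nonneg _, c01_le_one _, norm_base_le (abs_aa_add_abs_bb hy.1) _⟩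
  have := norm_fderiv_comp_le (g := fun u : ℝ × E => wm u.1 u.2)
    (h := fun y => (ta j y, bas (j + 1) y)) (x := x)
    (s := {u : ℝ × E | 0 ≤ u.1 ∧ u.1 ≤ 1 ∧ ‖u.2‖ ≤ 2}) (K := 18000)
    (by norm_num) (by
      rintro u ⟨u0, u1, u2⟩ v ⟨v0, v1, v2⟩
      have a := wm_lip u0 u1 v0 v1 u.2 v.2
      have n1 : |u.1 - v.1| ≤ ‖u - v‖ := fst_norm_le u v
      have n2 : ‖u.2 - v.2‖ ≤ ‖u - v‖ := snd_norm_le u v
      have b : |u.1 - v.1| * ‖v.2‖ ≤ ‖u - v‖ * 2 :=
        mul_le_mul n1 v2 (norm_nonneg _) (norm_nonneg _)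
      nlinarith) hev hP.differentiableAt (f := s4 j) (Eventually.of_forall fun y => rfl) (hx.ds _)
  refine this.trans ?_
  have e : 360000 / rr x = 18000 * (20 / rr x) := by ring
  rw [e]
  exact mul_le_mul_of_nonneg_left hn (by norm_num)

lemma norm_fderiv_Sj {x : E} {s0 s1 : ℝ} (hx : Good x) (h : Sg x s0 s1) {j : ℕ}
    (h1 : (j : ℝ) < kap x) (h2 : kap x < j + 1) :
    ‖fderiv ℝ (Sj j) x‖ ≤ 15840000 * (MM x / rr x) := by
  have hr := hx.mem.1
  have := norm_fderiv_comp_le (g := Lm^[j]) (h := s4 j) (x := x) (s := univ) (K := 44 * 2 ^ j)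
    (by positivity) (fun p _ q _ => Lm_iter_lip j p q) (Eventually.of_forall fun _ => trivial)
    (hx.ds j) (f := Sj j) (Eventually.of_forall fun y => rfl) (hx.dS j)
  refine this.trans ?_
  have hM := MM_ge h1.le
  calc 44 * 2 ^ j * ‖fderiv ℝ (s4 j) x‖ ≤ 44 * MM x * (360000 / rr x) :=
        mul_le_mul (by linarith) (norm_fderiv_s4 hx h h1 h2) (norm_nonneg _)
          (by have := Real.exp_pos ((x 2 - 1) / 2 * LL x); unfold MM; positivity)
    _ = _ := by ring

/-- upper bound of the norm of the derivative -/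
lemma Good.norm_le {x : E} (hx : Good x) :
    ‖fderiv ℝ ff x‖ ≤ 17000000 * (Real.exp (-RR x) * MM x / rr x) := by
  obtain ⟨j, h1, h2⟩ := hx.level
  obtain ⟨s0, s1, hs⟩ := exists_Sg hx.h0 hx.h1
  have ht := tt_pos hx.mem
  have hr := hx.mem.1
  have hE := (hs.hasFDerivAt_RR ht).neg.exp
  have hSd := hx.dS j
  have hF := hE.smul hSd.hasFDerivAt
  rw [(ff_eventuallyEq hx.mem h1 h2).fderiv_eq]
  have hF' : HasFDerivAt (fun y => Real.exp (-RR y) • Sj j y) _ x := hF
  rw [hF'.fderiv]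
  have hl := Real.exp_pos (-RR x)
  have hM : 0 < MM x := Real.exp_pos _
  have n1 := norm_fderiv_Sj hx hs h1 h2
  have n2 := norm_gR hx.mem hs
  have n3 : ‖Sj j x‖ ≤ 48000 := by
    have := norm_SS_le hx.mem h1.le h2.le
    have e : ta j x = kap x - j := c01_of_mem (by linarith) (by linarith)
    unfold Sj s4
    rw [e]
    exact this
  refine (norm_add_le _ _).trans ?_
  have e1 : ‖(Real.exp ((-RR) x)) • fderiv ℝ (Sj j) x‖ ≤
      Real.exp (-RR x) * (15840000 * (MM x / rr x)) := by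
    rw [norm_smul, Real.norm_eq_abs]
    rw [show Real.exp ((-RR) x) = Real.exp (-RR x) from rfl, abs_of_pos hl]
    exact mul_le_mul_of_nonneg_left n1 hl.le
  have e2 : ‖(Real.exp ((-RR) x) • -row (gR x s0 s1)).smulRight (Sj j x)‖ ≤
      Real.exp (-RR x) * (4 * MM x / rr x) * 48000 := by
    rw [ContinuousLinearMap.norm_smulRight_apply, norm_smul, norm_neg, Real.norm_eq_abs]
    rw [show Real.exp ((-RR) x) = Real.exp (-RR x) from rfl, abs_of_pos hl]
    exact mul_le_mul (mul_le_mul_of_nonneg_left n2 hl.le) n3 (norm_nonneg _) (by positivity)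
  have hp : 0 < Real.exp (-RR x) * (MM x / rr x) := by positivity
  calc _ ≤ Real.exp (-RR x) * (15840000 * (MM x / rr x)) +
        Real.exp (-RR x) * (4 * MM x / rr x) * 48000 := add_le_add e1 e2
    _ = 16032000 * (Real.exp (-RR x) * (MM x / rr x)) := by ring
    _ ≤ 17000000 * (Real.exp (-RR x) * (MM x / rr x)) := by nlinarith
    _ = _ := by ring

/-- uniform bound of the derivative -/
lemma Good.norm_le' {x : E} (hx : Good x) : ‖fderiv ℝ ff x‖ ≤ 17000000 := by
  refine hx.norm_le.trans ?_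
  have ht := tt_pos hx.mem
  have hgt := tt_gt hx.mem
  have h0 : t0 = 10 ^ 12 := rfl
  rw [h0] at hgt
  have hM := MM_ge_one hx.mem
  have hr := hx.mem.1
  have key : Real.exp (-RR x) * MM x / rr x ≤ 1 := by
    rw [div_eq_mul_one_div, ← exp_tt hx.mem, RR_eq ht, mul_assoc, mul_comm (MM x) (Real.exp (tt x)),
      ← mul_assoc, ← Real.exp_add]
    have h1 : -(MM x * tt x) + tt x ≤ -(MM x - 1) := by nlinarith
    have h2 : MM x ≤ Real.exp (MM x - 1) := by
      have := Real.add_one_le_exp (MM x - 1); linarith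
    calc Real.exp (-(MM x * tt x) + tt x) * MM x
        ≤ Real.exp (-(MM x - 1)) * Real.exp (MM x - 1) :=
          mul_le_mul (Real.exp_le_exp.mpr h1) h2 (by linarith) (Real.exp_pos _).le
      _ = 1 := by rw [← Real.exp_add]; simp
  linarith

/-- the distortion bound -/
lemma Good.K_le {x : E} (hx : Good x) : 0 < dt (fderiv ℝ ff x) ∧
    ‖fderiv ℝ ff x‖ ^ 3 / dt (fderiv ℝ ff x) ≤ 10 ^ 23 / (rr x * tt x * LL x) := by
  have ht := tt_pos hx.mem
  have hr := hx.mem.1
  have hL := LL_pos hx.mem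
  have hM : 0 < MM x := Real.exp_pos _
  have hl := Real.exp_pos (-RR x)
  have hJ := hx.det_ge
  have hX : 0 < Real.exp (-RR x) ^ 3 * MM x ^ 3 * tt x * LL x / rr x ^ 2 := by positivity
  have hJ0 : 0 < dt (fderiv ℝ ff x) := by linarith
  refine ⟨hJ0, ?_⟩
  rw [div_le_div_iff₀ hJ0 (by positivity)]
  have hn := pow_le_pow_left₀ (norm_nonneg _) hx.norm_le 3
  calc ‖fderiv ℝ ff x‖ ^ 3 * (rr x * tt x * LL x)
      ≤ (17000000 * (Real.exp (-RR x) * MM x / rr x)) ^ 3 * (rr x * tt x * LL x) :=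
        mul_le_mul_of_nonneg_right hn (by positivity)
    _ = 17000000 ^ 3 * (Real.exp (-RR x) ^ 3 * MM x ^ 3 * tt x * LL x / rr x ^ 2) := by
        field_simp
    _ ≤ 10 ^ 23 * (3 / 32 * (Real.exp (-RR x) ^ 3 * MM x ^ 3 * tt x * LL x / rr x ^ 2)) := by
        rw [← mul_assoc (10 ^ 23 : ℝ)]
        apply mul_le_mul_of_nonneg_right _ hX.le
        norm_num
    _ ≤ 10 ^ 23 * dt (fderiv ℝ ff x) := mul_le_mul_of_nonneg_left hJ (by norm_num)

end Pool.Agent.Helper13.FD
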