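import Mathlib
import Pool.Agent.Helper13.FD.Norm

/-!
Integrability of `1/(r² t log² t)` and of the distortion functional.
-/

set_option autoImplicit false
set_option linter.unusedVariables false
set_option linter.unusedSimpArgs false
set_option linter.deprecated false

noncomputable section

open Filter Topology MeasureTheory Set Matrix
open scoped ENNReal

namespace Pool.Agent.Helper13.FD

/-! ### a convergent series -/

lemma log_diff_ge {m : ℝ} (hm : 1 < m) : 1 / m ≤ Real.log m - Real.log (m - 1) := by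
  have h1 : Real.log ((m - 1) / m) ≤ (m - 1) / m - 1 := Real.log_le_sub_one_of_pos (by
    apply div_pos <;> linarith)
  rw [Real.log_div (by linarith) (by linarith)] at h1
  have h2 : (m - 1) / m - 1 = - (1 / m) := by field_simp; ring
  linarith

lemma term_le {m : ℝ} (hm : 2 < m) :
    1 / (m * Real.log m ^ 2) ≤ 1 / Real.log (m - 1) - 1 / Real.log m := by
  have h1 := log_diff_ge (by linarith : 1 < m)
  have l1 : 0 < Real.log (m - 1) := Real.log_pos (by linarith)
  have l2 : 0 < Real.log m := Real.log_pos (by linarith)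
  have l3 : Real.log (m - 1) ≤ Real.log m := Real.log_le_log (by linarith) (by linarith)
  rw [div_sub_div _ _ l1.ne' l2.ne', one_mul, mul_one, div_le_div_iff₀ (by positivity) (by positivity)]
  have h3 : 1 ≤ m * (Real.log m - Real.log (m - 1)) := by
    have := mul_le_mul_of_nonneg_left h1 (by linarith : 0 ≤ m)
    rwa [mul_one_div_cancel (by linarith)] at this
  calc 1 * (Real.log (m - 1) * Real.log m) ≤ 1 * (Real.log m * Real.log m) := by
        apply mul_le_mul_of_nonneg_left _ zero_le_one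
        exact mul_le_mul_of_nonneg_right l3 l2.le
    _ ≤ (m * (Real.log m - Real.log (m - 1))) * (Real.log m * Real.log m) :=
        mul_le_mul_of_nonneg_right h3 (by positivity)
    _ = _ := by ring

lemma summable_series : Summable fun n : ℕ => 1 / (((n : ℝ) + 3) * Real.log ((n : ℝ) + 3) ^ 2) := by
  have hs : ∀ N : ℕ, ∑ n ∈ Finset.range N, 1 / (((n : ℝ) + 3) * Real.log ((n : ℝ) + 3) ^ 2) ≤
      1 / Real.log 2 - 1 / Real.log ((N : ℝ) + 2) := by
    intro N
    induction N with
    | zero => simp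
    | succ n ih =>
      rw [Finset.sum_range_succ]
      have := term_le (m := (n : ℝ) + 3) (by have := Nat.cast_nonneg (α := ℝ) n; linarith)
      rw [show (n : ℝ) + 3 - 1 = n + 2 by ring] at this
      push_cast
      rw [show (n : ℝ) + 1 + 2 = n + 3 by ring]
      linarith
  refine summable_of_sum_range_le (c := 1 / Real.log 2) (fun n => by positivity) fun N => ?_
  have h1 := hs N
  have : 0 ≤ 1 / Real.log ((N : ℝ) + 2) := by
    apply div_nonneg zero_le_one
    apply Real.log_nonneg
    have := Nat.cast_nonneg (α := ℝ) N; linarith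
  linarith

/-! ### the shells -/

/-- dominating function -/
def ph (x : E) : ℝ := 1 / (rr x ^ 2 * tt x * LL x ^ 2)

lemma measurable_rr : Measurable rr := continuous_rr.measurable
lemma measurable_tt : Measurable tt := (Real.measurable_log.comp measurable_rr).neg
lemma measurable_LL : Measurable LL := Real.measurable_log.comp measurable_tt
lemma measurable_ph : Measurable ph := by
  unfold ph
  exact measurable_const.div (((measurable_rr.pow_const 2).mul measurable_tt).mul
    (measurable_LL.pow_const 2))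

/-- box around the axis -/
def bx (δ : ℝ) : Set E := {x | |x 0| ≤ δ ∧ |x 1| ≤ δ ∧ 1 < x 2 ∧ x 2 < 2}

lemma volume_bx (δ : ℝ) (hδ : 0 ≤ δ) : volume (bx δ) = ENNReal.ofReal (4 * δ ^ 2) := by
  let I : Fin 3 → Set ℝ := ![Icc (-δ) δ, Icc (-δ) δ, Ioo 1 2]
  have hI : ∀ i, MeasurableSet (I i) := by
    intro i; fin_cases i
    · exact measurableSet_Icc
    · exact measurableSet_Icc
    · exact measurableSet_Ioo
  have e : bx δ = (WithLp.ofLp) ⁻¹' (Set.pi univ I) := by
    ext x
    simp only [bx, mem_setOf_eq, mem_preimage, Set.mem_pi, mem_univ, forall_true_left]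
    constructor
    · rintro ⟨h0, h1, h2, h3⟩ i
      fin_cases i
      · exact abs_le.mp h0
      · exact abs_le.mp h1
      · exact ⟨h2, h3⟩
    · intro h
      exact ⟨abs_le.mpr (h 0), abs_le.mpr (h 1), (h 2).1, (h 2).2⟩
  rw [e, (PiLp.volume_preserving_ofLp (Fin 3)).measure_preimage
    (MeasurableSet.univ_pi hI).nullMeasurableSet, volume_pi_pi, Fin.prod_univ_three]
  show volume (Icc (-δ) δ) * volume (Icc (-δ) δ) * volume (Ioo (1 : ℝ) 2) = _
  rw [Real.volume_Icc, Real.volume_Ioo, ← ENNReal.ofReal_mul (by linarith),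
    ← ENNReal.ofReal_mul (by nlinarith)]
  congr 1; ring

/-- the shells -/
def sh (n : ℕ) : Set E := {x | x ∈ U0 ∧ (n : ℝ) + 3 ≤ tt x ∧ tt x < (n : ℝ) + 4}

lemma U0_subset : U0 ⊆ ⋃ n, sh n := by
  intro x hx
  have h := tt_gt hx
  have h0 : t0 = 10 ^ 12 := rfl
  rw [h0] at h
  rw [mem_iUnion]
  refine ⟨⌊tt x - 3⌋₊, hx, ?_, ?_⟩
  · have := Nat.floor_le (by linarith : 0 ≤ tt x - 3)
    linarith
  · have := Nat.lt_floor_add_one (tt x - 3)
    linarith

lemma lintegral_sh (n : ℕ) : ∫⁻ x in sh n, ENNReal.ofReal (ph x) ≤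
    ENNReal.ofReal (4 * Real.exp 2 * (1 / (((n : ℝ) + 3) * Real.log ((n : ℝ) + 3) ^ 2))) := by
  have hn := Nat.cast_nonneg (α := ℝ) n
  have hlog : 0 < Real.log ((n : ℝ) + 3) := Real.log_pos (by linarith)
  set c := Real.exp (2 * (n + 4)) * (1 / (((n : ℝ) + 3) * Real.log ((n : ℝ) + 3) ^ 2)) with hc
  have hc0 : 0 ≤ c := by positivity
  have h1 : ∀ x ∈ sh n, ENNReal.ofReal (ph x) ≤ ENNReal.ofReal c := by
    rintro x ⟨hx, h3, h4⟩
    apply ENNReal.ofReal_le_ofReal
    have hr := hx.1
    have ht := tt_pos hx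
    have hL := LL_pos hx
    have e1 : ph x = Real.exp (2 * tt x) * (1 / (tt x * LL x ^ 2)) := by
      have : Real.exp (2 * tt x) = (1 / rr x) ^ 2 := by
        rw [← exp_tt hx, ← Real.exp_nat_mul]; norm_num
      rw [this]; unfold ph; field_simp
    rw [e1, hc]
    apply mul_le_mul
    · apply Real.exp_le_exp.mpr; linarith
    · apply one_div_le_one_div_of_le (by positivity)
      have hl : Real.log ((n : ℝ) + 3) ≤ LL x := Real.log_le_log (by linarith) h3
      have hl2 : Real.log ((n : ℝ) + 3) ^ 2 ≤ LL x ^ 2 := pow_le_pow_left₀ hlog.le hl 2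
      exact mul_le_mul h3 hl2 (by positivity) ht.le
    · positivity
    · positivity
  have h2 : sh n ⊆ bx (Real.exp (-((n : ℝ) + 3))) := by
    rintro x ⟨hx, h3, h4⟩
    have hr : rr x ≤ Real.exp (-((n : ℝ) + 3)) := by
      rw [← exp_neg_tt hx.1]; apply Real.exp_le_exp.mpr; linarith
    have h0 : |x 0| ≤ rr x := by unfold rr; have := abs_nonneg (x 1); linarith
    have h1 : |x 1| ≤ rr x := by unfold rr; have := abs_nonneg (x 0); linarith
    exact ⟨h0.trans hr, h1.trans hr, hx.2.2.1, hx.2.2.2⟩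
  have hms : MeasurableSet (sh n) := by
    have : sh n = U0 ∩ ({x | (n : ℝ) + 3 ≤ tt x} ∩ {x | tt x < (n : ℝ) + 4}) := by
      ext x; rfl
    rw [this]
    exact isOpen_U0.measurableSet.inter ((measurableSet_le measurable_const measurable_tt).inter
      (measurableSet_lt measurable_tt measurable_const))
  calc ∫⁻ x in sh n, ENNReal.ofReal (ph x) ≤ ∫⁻ x in sh n, ENNReal.ofReal c :=
        setLIntegral_mono' hms h1
    _ = ENNReal.ofReal c * volume (sh n) := by rw [setLIntegral_const]
    _ ≤ ENNReal.ofReal c * volume (bx (Real.exp (-((n : ℝ) + 3)))) := by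
        gcongr
    _ = ENNReal.ofReal c * ENNReal.ofReal (4 * Real.exp (-((n : ℝ) + 3)) ^ 2) := by
        rw [volume_bx _ (Real.exp_pos _).le]
    _ = ENNReal.ofReal (c * (4 * Real.exp (-((n : ℝ) + 3)) ^ 2)) := by
        rw [ENNReal.ofReal_mul hc0]
    _ = _ := by
        congr 1
        rw [hc, ← Real.exp_nat_mul]
        have : Real.exp 2 = Real.exp (2 * ((n : ℝ) + 4)) * Real.exp ((2 : ℕ) * (-((n : ℝ) + 3))) := by
          rw [← Real.exp_add]; congr 1; push_cast; ring
        rw [this]; ring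

lemma lintegral_U0 : ∫⁻ x in U0, ENNReal.ofReal (ph x) < ∞ := by
  calc ∫⁻ x in U0, ENNReal.ofReal (ph x) ≤ ∫⁻ x in ⋃ n, sh n, ENNReal.ofReal (ph x) :=
        lintegral_mono_set U0_subset
    _ ≤ ∑' n, ∫⁻ x in sh n, ENNReal.ofReal (ph x) := lintegral_iUnion_le _ _
    _ ≤ ∑' n : ℕ, ENNReal.ofReal (4 * Real.exp 2 *
          (1 / (((n : ℝ) + 3) * Real.log ((n : ℝ) + 3) ^ 2))) := ENNReal.tsum_le_tsum lintegral_sh
    _ < ∞ := (summable_series.mul_left _).tsum_ofReal_lt_top

lemma ae_mem_U0 : ∀ᵐ x : E ∂(volume.restrict Om), x ∈ U0 := by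
  have h := ae_restrict_of_ae (s := Om) (ae_coord_ne 0)
  filter_upwards [h, ae_restrict_mem isOpen_Om.measurableSet] with x h0 hx
  refine ⟨?_, hx⟩
  unfold rr
  have := abs_pos.mpr h0
  have := abs_nonneg (x 1)
  linarith

lemma good_ae_Om : ∀ᵐ x : E ∂(volume.restrict Om), Good x := by
  filter_upwards [ae_restrict_of_ae (s := Om) good_ae, ae_mem_U0] with x h1 h2
  exact h1 h2

lemma integrable_ph : Integrable ph (volume.restrict Om) := by
  refine ⟨measurable_ph.aestronglyMeasurable, ?_⟩
  have e1 : ∫⁻ x in Om, ‖ph x‖ₑ = ∫⁻ x in Om, ENNReal.ofReal (ph x) := by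
    apply lintegral_congr_ae
    filter_upwards [ae_mem_U0] with x hx
    have hr := hx.1
    have ht := tt_pos hx
    have hL := LL_pos hx
    rw [Real.enorm_eq_ofReal]
    unfold ph; positivity
  show ∫⁻ x in Om, ‖ph x‖ₑ < ∞
  rw [e1]
  refine lt_of_le_of_lt ?_ lintegral_U0
  have : ∫⁻ x in Om, ENNReal.ofReal (ph x) = ∫⁻ x in U0, ENNReal.ofReal (ph x) := by
    have hae : Om =ᵐ[volume] U0 := by
      filter_upwards [ae_coord_ne 0] with x h0
      have : x ∈ Om ↔ x ∈ U0 := by
        constructor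
        · intro hx
          refine ⟨?_, hx⟩
          unfold rr
          have := abs_pos.mpr h0
          have := abs_nonneg (x 1)
          linarith
        · intro hx; exact hx.2
      exact propext this
    exact setLIntegral_congr hae
  rw [this]

/-! ### the distortion functional -/

/-- the Jacobian -/
def Jf (x : E) : ℝ := dt (fderiv ℝ ff x)

/-- the distortion -/
def Kf (x : E) : ℝ := if 0 < Jf x then ‖fderiv ℝ ff x‖ ^ 3 / Jf x else 1

lemma Good.Kf_bound {x : E} (hx : Good x) :
    0 ≤ Kf x ∧ Kf x ^ 2 * Real.log (Real.exp 1 + Kf x) ≤ 2 * 10 ^ 46 * ph x := by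
  obtain ⟨hJ, hK⟩ := hx.K_le
  have e : Kf x = ‖fderiv ℝ ff x‖ ^ 3 / dt (fderiv ℝ ff x) := by
    have hJ' : 0 < Jf x := hJ
    unfold Kf; rw [if_pos hJ']; rfl
  have hK0 : 0 ≤ Kf x := by rw [e]; positivity
  refine ⟨hK0, ?_⟩
  rw [← e] at hK
  have hm := hx.mem
  have ht := tt_pos hm
  have hr := hm.1
  have hL := LL_pos hm
  have hL1 := LL_gt_one hm
  have hgt := tt_gt hm
  have h0 : t0 = 10 ^ 12 := rfl
  rw [h0] at hgt
  have h1 : Kf x ≤ 10 ^ 23 * (1 / rr x) := by
    refine hK.trans ?_
    rw [← mul_one_div]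
    apply mul_le_mul_of_nonneg_left _ (by norm_num)
    apply one_div_le_one_div_of_le hr
    have : 1 ≤ tt x * LL x := by nlinarith
    calc rr x = rr x * 1 := by ring
      _ ≤ rr x * (tt x * LL x) := mul_le_mul_of_nonneg_left this hr.le
      _ = _ := by ring
  have hrr1 : 1 ≤ 1 / rr x := by have := one_le_inv_rr hm; linarith
  have he : Real.exp 1 < 3 := by have := Real.exp_one_lt_d9; linarith
  have h2 : Real.exp 1 + Kf x ≤ 10 ^ 24 * Real.exp (tt x) := by
    rw [exp_tt hm]; nlinarith
  have h3 : Real.log (Real.exp 1 + Kf x) ≤ 2 * tt x := by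
    have hpos : 0 < Real.exp 1 + Kf x := by have := Real.exp_pos 1; linarith
    refine (Real.log_le_log hpos h2).trans ?_
    rw [Real.log_mul (by norm_num) (Real.exp_pos _).ne', Real.log_exp]
    have : Real.log ((10 : ℝ) ^ 24) ≤ 10 ^ 12 := by
      rw [Real.log_pow]
      have := Real.log_le_sub_one_of_pos (by norm_num : (0 : ℝ) < 10)
      push_cast
      linarith
    linarith
  have h4 : Kf x ^ 2 ≤ (10 ^ 23 / (rr x * tt x * LL x)) ^ 2 := pow_le_pow_left₀ hK0 hK 2
  have hlog0 : 0 ≤ Real.log (Real.exp 1 + Kf x) := by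
    apply Real.log_nonneg
    have := Real.add_one_le_exp (1 : ℝ)
    linarith
  calc Kf x ^ 2 * Real.log (Real.exp 1 + Kf x)
      ≤ (10 ^ 23 / (rr x * tt x * LL x)) ^ 2 * (2 * tt x) :=
        mul_le_mul h4 h3 hlog0 (by positivity)
    _ = 2 * 10 ^ 46 * ph x := by
        unfold ph; field_simp

lemma measurable_Jf : Measurable Jf := by
  have h1 : Measurable (fun x => fderiv ℝ ff x) := measurable_fderiv ℝ ff
  have h2 : Continuous (fun A : E →L[ℝ] E => dt A) := by
    unfold dt
    exact ContinuousLinearMap.continuous_det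
  exact h2.measurable.comp h1

lemma measurable_Kf : Measurable Kf := by
  have h1 : Measurable (fun x => fderiv ℝ ff x) := measurable_fderiv ℝ ff
  unfold Kf
  refine Measurable.ite ?_ ?_ measurable_const
  · exact measurableSet_lt measurable_const measurable_Jf
  · exact (h1.norm.pow_const 3).div measurable_Jf

lemma integrable_Kf : Integrable (fun x => Kf x ^ 2 * Real.log (Real.exp 1 + Kf x))
    (volume.restrict Om) := by
  refine Integrable.mono' (integrable_ph.const_mul (2 * 10 ^ 46)) ?_ ?_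
  · exact ((measurable_Kf.pow_const 2).mul
      (Real.measurable_log.comp (measurable_const.add measurable_Kf))).aestronglyMeasurable
  · filter_upwards [good_ae_Om] with x hx
    obtain ⟨h1, h2⟩ := hx.Kf_bound
    rw [Real.norm_eq_abs, abs_of_nonneg]
    · exact h2
    · apply mul_nonneg (by positivity)
      apply Real.log_nonneg
      have := Real.add_one_le_exp (1 : ℝ)
      linarith

end Pool.Agent.Helper13.FD
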