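import Mathlib
import Pool.Agent.Helper13.FD.Integr

/-!
The classical derivative is the weak derivative.
-/

set_option autoImplicit false
set_option linter.unusedVariables false
set_option linter.unusedSimpArgs false
set_option linter.deprecated false

noncomputable section

open Filter Topology MeasureTheory Set Matrix
open scoped ENNReal NNReal

namespace Pool.Agent.Helper13.FD

/-- a compactly supported everywhere locally Lipschitz map is Lipschitz -/
lemma exists_lipschitzWith {G : E → E} (hG : ∀ x, LLip G x) (hc : HasCompactSupport G) :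
    ∃ K : ℝ≥0, LipschitzWith K G := by
  obtain ⟨R, hR⟩ := hc.isBounded.subset_closedBall (0 : E)
  have hz : ∀ x, x ∉ Metric.closedBall (0 : E) R → G x = 0 := fun x hx =>
    image_eq_zero_of_notMem_tsupport fun h => hx (hR h)
  have hcont : Continuous G := continuous_iff_continuousAt.mpr fun x => (hG x).continuousAt
  have hL : LocallyLipschitzOn (Metric.closedBall (0 : E) (R + 1)) G := by
    intro x _
    obtain ⟨K, s, hs, hK⟩ := hG x
    exact ⟨K, s, mem_nhdsWithin_of_mem_nhds hs, hK⟩
  obtain ⟨K, hK⟩ := hL.exists_lipschitzOnWith_of_compact (isCompact_closedBall _ _)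
  obtain ⟨C, hC⟩ := hcont.bounded_above_of_compact_support hc
  have hC0 : 0 ≤ C := (norm_nonneg _).trans (hC 0)
  refine ⟨max K ⟨C, hC0⟩, LipschitzWith.of_dist_le_mul ?_⟩
  have key : ∀ x y : E, x ∈ Metric.closedBall (0 : E) R →
      dist (G x) (G y) ≤ ((max K ⟨C, hC0⟩ : ℝ≥0) : ℝ) * dist x y := by
    intro x y hx
    by_cases hy : y ∈ Metric.closedBall (0 : E) (R + 1)
    · have h1 := hK.dist_le_mul x (Metric.closedBall_subset_closedBall (by linarith) hx) y hy
      refine h1.trans ?_
      apply mul_le_mul_of_nonneg_right _ dist_nonneg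
      exact_mod_cast le_max_left K _
    · have hy' : y ∉ Metric.closedBall (0 : E) R := fun h =>
        hy (Metric.closedBall_subset_closedBall (by linarith) h)
      rw [hz y hy', dist_zero_right]
      have h1 : 1 ≤ dist x y := by
        rw [Metric.mem_closedBall, dist_zero_right] at hx hy
        push Not at hy
        rw [dist_eq_norm, norm_sub_rev]
        have := norm_sub_norm_le y x
        linarith
      have h2 : C ≤ ((max K ⟨C, hC0⟩ : ℝ≥0) : ℝ) := by
        have : (⟨C, hC0⟩ : ℝ≥0) ≤ max K ⟨C, hC0⟩ := le_max_right _ _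
        exact_mod_cast this
      have h3 := hC x
      have h4 : (0 : ℝ) ≤ ((max K ⟨C, hC0⟩ : ℝ≥0) : ℝ) := NNReal.coe_nonneg _
      nlinarith
  intro x y
  by_cases hx : x ∈ Metric.closedBall (0 : E) R
  · exact key x y hx
  · by_cases hy : y ∈ Metric.closedBall (0 : E) R
    · rw [dist_comm (G x), dist_comm x]; exact key y x hy
    · rw [hz x hx, hz y hy, dist_self]
      positivity

lemma integrable_of_bdd_compact {F : E → E} (hF : Measurable F) {K : Set E} (hK : IsCompact K)
    (hs : Function.support F ⊆ K) {C : ℝ} (hC : ∀ x, ‖F x‖ ≤ C) : Integrable F := by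
  rw [← integrableOn_iff_integrable_of_support_subset hs]
  exact Measure.integrableOn_of_bounded hK.measure_lt_top.ne hF.aestronglyMeasurable
    (Eventually.of_forall hC)

lemma integral_fderiv_eq_zero {G : E → E} (hG : ∀ x, LLip G x) (hc : HasCompactSupport G)
    (v : E) : ∫ x, fderiv ℝ G x v = 0 := by
  obtain ⟨K, hK⟩ := exists_lipschitzWith hG hc
  have hint : Integrable (fun x => fderiv ℝ G x v) := by
    refine integrable_of_bdd_compact (measurable_fderiv_apply_const ℝ G v) hc (K := tsupport G) ?_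
      (C := K * ‖v‖) ?_
    · intro x hx
      apply support_fderiv_subset ℝ
      rw [Function.mem_support] at hx ⊢
      intro h; exact hx (by rw [h]; rfl)
    · intro x
      refine ((fderiv ℝ G x).le_opNorm v).trans ?_
      exact mul_le_mul_of_nonneg_right (norm_fderiv_le_of_lipschitz ℝ hK) (norm_nonneg _)
  ext i
  have hGi : LipschitzWith K (fun y => G y i) := by
    refine LipschitzWith.of_dist_le_mul fun x y => ?_
    refine le_trans ?_ (hK.dist_le_mul x y)
    rw [dist_eq_norm, dist_eq_norm]
    have := abs_le_norm (G x - G y) i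
    exact this
  have hGc : HasCompactSupport (fun y => G y i) := by
    apply hc.mono
    intro x hx
    rw [Function.mem_support] at hx ⊢
    intro h; exact hx (by rw [h]; rfl)
  have h1 := LipschitzWith.integral_lineDeriv_mul_eq (μ := (volume : Measure E))
    (LipschitzWith.const (1 : ℝ)) hGi hGc (-v)
  have hl0 : ∀ x w : E, lineDeriv ℝ (fun _ : E => (1 : ℝ)) x w = 0 := by
    intro x w; unfold lineDeriv; simp
  simp only [hl0, zero_mul, integral_zero, neg_neg, mul_one] at h1
  have h2 : ∫ x, (pr i) (fderiv ℝ G x v) = (pr i) (∫ x, fderiv ℝ G x v) :=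
    ContinuousLinearMap.integral_comp_comm (pr i) hint
  have h3 : ∫ x, (pr i) (fderiv ℝ G x v) = ∫ x, lineDeriv ℝ (fun y => G y i) x v := by
    apply integral_congr_ae
    filter_upwards [hK.ae_differentiableAt (μ := (volume : Measure E))] with x hx
    have h4 : HasFDerivAt (fun y => G y i) ((pr i).comp (fderiv ℝ G x)) x :=
      (pr i).hasFDerivAt.comp x hx.hasFDerivAt
    rw [h4.differentiableAt.lineDeriv_eq_fderiv, h4.fderiv]
    rfl
  rw [h3, ← h1] at h2
  exact h2.symm

/-- cutoff near the axis -/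
def eta (k : ℕ) (x : E) : ℝ := c01 (k * rr x - 1)

lemma eta_nonneg (k : ℕ) (x : E) : 0 ≤ eta k x := c01_nonneg _
lemma eta_le_one (k : ℕ) (x : E) : eta k x ≤ 1 := c01_le_one _

lemma lLip_eta (k : ℕ) (x : E) : LLip (eta k) x :=
  lLip_of_bound (s := univ) univ_mem (by positivity : (0 : ℝ) ≤ 2 * k) fun p _ q _ => by
    rw [Real.norm_eq_abs]
    refine (c01_lip _ _).trans ?_
    rw [show (k : ℝ) * rr p - 1 - (k * rr q - 1) = k * (rr p - rr q) by ring, abs_mul,
      abs_of_nonneg (Nat.cast_nonneg k)]
    have := mul_le_mul_of_nonneg_left (rr_lip p q) (Nat.cast_nonneg (α := ℝ) k)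
    linarith

lemma norm_fderiv_eta (k : ℕ) (x : E) : ‖fderiv ℝ (eta k) x‖ ≤ 2 * k := by
  have h : LipschitzWith ⟨2 * k, by positivity⟩ (eta k) := by
    refine LipschitzWith.of_dist_le_mul fun p q => ?_
    rw [Real.dist_eq, dist_eq_norm]
    refine (c01_lip _ _).trans ?_
    rw [show (k : ℝ) * rr p - 1 - (k * rr q - 1) = k * (rr p - rr q) by ring, abs_mul,
      abs_of_nonneg (Nat.cast_nonneg k)]
    have := mul_le_mul_of_nonneg_left (rr_lip p q) (Nat.cast_nonneg (α := ℝ) k)
    show _ ≤ (2 * (k : ℝ)) * ‖p - q‖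
    linarith
  exact norm_fderiv_le_of_lipschitz ℝ h

lemma eta_eventually_one {k : ℕ} {x : E} (h : 2 < k * rr x) : eta k =ᶠ[𝓝 x] fun _ => 1 := by
  have hc : Continuous (fun y : E => (k : ℝ) * rr y) := continuous_const.mul continuous_rr
  filter_upwards [continuousAt_const.eventually_lt hc.continuousAt h] with y hy
  exact c01_of_ge (by linarith)

/-- the truncated test field -/
def GG (φ : E → ℝ) (k : ℕ) (x : E) : E := (φ x * eta k x) • ff x

section test

variable {φ : E → ℝ} (hφ : ContDiff ℝ ((⊤ : ℕ∞) : WithTop ℕ∞) φ) (hcφ : HasCompactSupport φ)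
  (hsφ : tsupport φ ⊆ Om)

include hφ in
lemma lLip_phi (x : E) : LLip φ x :=
  (hφ.contDiffAt.of_le (by exact_mod_cast le_top) : ContDiffAt ℝ 1 φ x).lLip

lemma GG_zero_near {x : E} (hx : x ∉ tsupport φ) (k : ℕ) : GG φ k =ᶠ[𝓝 x] fun _ => 0 := by
  have : φ =ᶠ[𝓝 x] 0 := notMem_tsupport_iff_eventuallyEq.mp hx
  filter_upwards [this] with y hy
  simp [GG, hy]

include hφ hsφ in
lemma lLip_GG (k : ℕ) (x : E) : LLip (GG φ k) x := by
  by_cases hx : x ∈ tsupport φ
  · have hO := hsφ hx
    rcases (rr_nonneg x).eq_or_lt with h | h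
    · have hc : Continuous (fun y : E => (k : ℝ) * rr y - 1) :=
        (continuous_const.mul continuous_rr).sub continuous_const
      have : GG φ k =ᶠ[𝓝 x] fun _ => 0 := by
        have h1 : (k : ℝ) * rr x - 1 < 0 := by rw [← h]; norm_num
        filter_upwards [hc.continuousAt.eventually_lt continuousAt_const h1] with y hy
        have : eta k y = 0 := c01_of_nonpos hy.le
        simp [GG, this]
      exact (lLip_const 0 x).congr this.symm
    · exact ((lLip_phi hφ x).mul (lLip_eta k x)).smul (lLip_ff ⟨h, hO⟩)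
  · exact (lLip_const 0 x).congr (GG_zero_near hx k).symm

include hcφ in
lemma hasCompactSupport_GG (k : ℕ) : HasCompactSupport (GG φ k) := by
  apply hcφ.mono
  intro x hx
  rw [Function.mem_support] at hx ⊢
  intro h; exact hx (by simp [GG, h])

include hsφ in
lemma fderiv_GG_zero {x : E} (hx : x ∉ Om) (k : ℕ) : fderiv ℝ (GG φ k) x = 0 := by
  have := GG_zero_near (fun h => hx (hsφ h) : x ∉ tsupport φ) k
  rw [this.fderiv_eq]
  exact fderiv_const_apply _

include hφ hcφ hsφ in
lemma setIntegral_GG (k : ℕ) (v : E) : ∫ x in Om, fderiv ℝ (GG φ k) x v = 0 := by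
  rw [setIntegral_eq_integral_of_forall_compl_eq_zero]
  · exact integral_fderiv_eq_zero (lLip_GG hφ hsφ k) (hasCompactSupport_GG hcφ k) v
  · intro x hx
    rw [fderiv_GG_zero hsφ hx]; rfl

include hφ in
lemma hasFDerivAt_GG {x : E} (hx : Good x) {k : ℕ} (he : DifferentiableAt ℝ (eta k) x) :
    HasFDerivAt (GG φ k) ((φ x * eta k x) • fderiv ℝ ff x +
      (φ x • fderiv ℝ (eta k) x + eta k x • fderiv ℝ φ x).smulRight (ff x)) x := by
  have h1 : DifferentiableAt ℝ φ x := hφ.differentiable (by simp) x
  exact (h1.hasFDerivAt.mul he.hasFDerivAt).smul hx.diff.hasFDerivAt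

end test

lemma rr_lt_one {x : E} (hx : x ∈ Om) : rr x < 1 := by
  have h := hx.1
  have h0 : Real.exp (-t0) < 1 := by
    rw [Real.exp_lt_one_iff]; have := t0_pos; linarith
  linarith

lemma norm_ff_le_const {x : E} (hx : x ∈ Om) : ‖ff x‖ ≤ 48000 := by
  have := norm_ff_le' hx
  have := rr_lt_one hx
  have := rr_nonneg x
  linarith

lemma volume_Om_lt_top : volume Om < ∞ := by
  have h : Om ⊆ bx 1 := by
    rintro x hx
    have h1 := rr_lt_one hx
    have h0 : |x 0| ≤ rr x := by unfold rr; have := abs_nonneg (x 1); linarith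
    have h2 : |x 1| ≤ rr x := by unfold rr; have := abs_nonneg (x 0); linarith
    exact ⟨by linarith, by linarith, hx.2.1, hx.2.2⟩
  refine (measure_mono h).trans_lt ?_
  rw [volume_bx 1 zero_le_one]
  exact ENNReal.ofReal_lt_top

instance : IsFiniteMeasure (volume.restrict Om) :=
  ⟨by rw [Measure.restrict_apply_univ]; exact volume_Om_lt_top⟩

lemma aesm_ff : AEStronglyMeasurable ff (volume.restrict Om) :=
  continuousOn_ff.aestronglyMeasurable isOpen_Om.measurableSet

lemma weak_deriv {φ : E → ℝ} (hφ : ContDiff ℝ ((⊤ : ℕ∞) : WithTop ℕ∞) φ)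
    (hcφ : HasCompactSupport φ) (hsφ : tsupport φ ⊆ Om) (v : E) :
    ∫ x in Om, (fderiv ℝ φ x v) • ff x = - ∫ x in Om, φ x • fderiv ℝ ff x v := by
  -- bounds of the test function
  have hcont : Continuous φ := hφ.continuous
  have hdc : Continuous (fun x => fderiv ℝ φ x v) :=
    (hφ.continuous_fderiv (by simp)).clm_apply continuous_const
  obtain ⟨C1, hC1⟩ := hcont.bounded_above_of_compact_support hcφ
  have hcd : HasCompactSupport (fun x => fderiv ℝ φ x v) := by
    apply HasCompactSupport.mono (hcφ.fderiv ℝ)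
    intro x hx
    rw [Function.mem_support] at hx ⊢
    intro h; exact hx (by rw [h]; rfl)
  obtain ⟨C2, hC2⟩ := hdc.bounded_above_of_compact_support hcd
  have hC10 : 0 ≤ C1 := (norm_nonneg _).trans (hC1 0)
  have hC20 : 0 ≤ C2 := (norm_nonneg _).trans (hC2 0)
  -- integrability
  have i1 : Integrable (fun x => (fderiv ℝ φ x v) • ff x) (volume.restrict Om) := by
    refine Integrable.of_bound (hdc.aestronglyMeasurable.smul aesm_ff) (C2 * 48000) ?_
    filter_upwards [ae_restrict_mem isOpen_Om.measurableSet] with x hx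
    rw [norm_smul]
    exact mul_le_mul (hC2 x) (norm_ff_le_const hx) (norm_nonneg _) hC20
  have i2 : Integrable (fun x => φ x • fderiv ℝ ff x v) (volume.restrict Om) := by
    refine Integrable.of_bound (hcont.aestronglyMeasurable.smul
      (measurable_fderiv_apply_const ℝ ff v).aestronglyMeasurable) (C1 * (17000000 * ‖v‖)) ?_
    filter_upwards [good_ae_Om] with x hx
    rw [norm_smul]
    refine mul_le_mul (hC1 x) ?_ (norm_nonneg _) hC10
    exact ((fderiv ℝ ff x).le_opNorm v).trans
      (mul_le_mul_of_nonneg_right hx.norm_le' (norm_nonneg _))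
  have hae : ∀ᵐ x : E ∂(volume.restrict Om), ∀ k, DifferentiableAt ℝ (eta k) x := by
    rw [ae_all_iff]
    intro k
    have := ae_differentiableAt_of_lLip (volume : Measure E) (U := univ)
      (fun x _ => lLip_eta k x)
    exact ae_restrict_of_ae (this.mono fun x hx => hx trivial)
  have hlim := tendsto_integral_of_dominated_convergence (μ := volume.restrict Om)
    (F := fun k x => fderiv ℝ (GG φ k) x v)
    (f := fun x => φ x • fderiv ℝ ff x v + (fderiv ℝ φ x v) • ff x)
    (fun _ => C1 * (17000000 * ‖v‖) + (C1 * (4 * ‖v‖) + C2) * 48000)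
    (fun k => (measurable_fderiv_apply_const ℝ _ v).aestronglyMeasurable)
    (integrable_const _)
    (fun k => by
      filter_upwards [good_ae_Om, hae] with x hx he
      rw [(hasFDerivAt_GG hφ hx (he k)).fderiv]
      have e : ((φ x * eta k x) • fderiv ℝ ff x +
          (φ x • fderiv ℝ (eta k) x + eta k x • fderiv ℝ φ x).smulRight (ff x)) v =
          (φ x * eta k x) • fderiv ℝ ff x v +
          (φ x * fderiv ℝ (eta k) x v + eta k x * fderiv ℝ φ x v) • ff x := by
        simp
      rw [e]
      have hOm : x ∈ Om := hx.mem.2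
      have hηa : |eta k x| ≤ 1 := by rw [abs_of_nonneg (eta_nonneg _ _)]; exact eta_le_one _ _
      have b1 : ‖(φ x * eta k x) • fderiv ℝ ff x v‖ ≤ C1 * (17000000 * ‖v‖) := by
        rw [norm_smul, norm_mul]
        have a1 : ‖φ x‖ * ‖eta k x‖ ≤ C1 * 1 := mul_le_mul (hC1 x) hηa (norm_nonneg _) hC10
        rw [mul_one] at a1
        refine mul_le_mul a1 ?_ (norm_nonneg _) hC10
        exact ((fderiv ℝ ff x).le_opNorm v).trans
          (mul_le_mul_of_nonneg_right hx.norm_le' (norm_nonneg _))
      have b3 : ‖(eta k x * fderiv ℝ φ x v) • ff x‖ ≤ C2 * 48000 := by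
        rw [norm_smul, norm_mul]
        have a1 : ‖eta k x‖ * ‖fderiv ℝ φ x v‖ ≤ 1 * C2 := mul_le_mul hηa (hC2 x) (norm_nonneg _) zero_le_one
        rw [one_mul] at a1
        exact mul_le_mul a1 (norm_ff_le_const hOm) (norm_nonneg _) hC20
      have b2 : ‖(φ x * fderiv ℝ (eta k) x v) • ff x‖ ≤ C1 * (4 * ‖v‖) * 48000 := by
        by_cases hk : 2 < k * rr x
        · rw [(eta_eventually_one hk).fderiv_eq]
          simp only [fderiv_const_apply, ContinuousLinearMap.zero_apply, mul_zero, zero_smul, norm_zero]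
          positivity
        · push Not at hk
          rw [norm_smul, norm_mul]
          have a1 : ‖fderiv ℝ (eta k) x v‖ ≤ 2 * k * ‖v‖ :=
            ((fderiv ℝ (eta k) x).le_opNorm v).trans
              (mul_le_mul_of_nonneg_right (norm_fderiv_eta k x) (norm_nonneg _))
          have a2 : ‖φ x‖ * ‖fderiv ℝ (eta k) x v‖ ≤ C1 * (2 * k * ‖v‖) :=
            mul_le_mul (hC1 x) a1 (norm_nonneg _) hC10
          calc ‖φ x‖ * ‖fderiv ℝ (eta k) x v‖ * ‖ff x‖ ≤ C1 * (2 * k * ‖v‖) * (48000 * rr x) :=
                mul_le_mul a2 (norm_ff_le' hOm) (norm_nonneg _) (by positivity)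
            _ = C1 * ‖v‖ * 96000 * (k * rr x) := by ring
            _ ≤ C1 * ‖v‖ * 96000 * 2 := mul_le_mul_of_nonneg_left hk (by positivity)
            _ = _ := by ring
      rw [add_smul]
      refine (norm_add_le _ _).trans ?_
      have := norm_add_le ((φ x * fderiv ℝ (eta k) x v) • ff x) ((eta k x * fderiv ℝ φ x v) • ff x)
      linarith)
    (by
      filter_upwards [good_ae_Om] with x hx
      have hr := hx.mem.1
      apply tendsto_const_nhds.congr'
      obtain ⟨k0, hk0⟩ := exists_nat_gt (2 / rr x)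
      filter_upwards [eventually_ge_atTop k0] with k hk
      have hk' : 2 < k * rr x := by
        rw [div_lt_iff₀ hr] at hk0
        have : (k0 : ℝ) ≤ k := by exact_mod_cast hk
        nlinarith
      have e1 : GG φ k =ᶠ[𝓝 x] fun y => φ y • ff y := by
        filter_upwards [eta_eventually_one hk'] with y hy
        simp [GG, hy]
      rw [e1.fderiv_eq]
      have h1 : DifferentiableAt ℝ φ x := hφ.differentiable (by simp) x
      have h2 : HasFDerivAt (fun y => φ y • ff y) _ x := h1.hasFDerivAt.smul hx.diff.hasFDerivAt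
      rw [h2.fderiv]
      simp)
  have h0 : (fun k : ℕ => ∫ x in Om, fderiv ℝ (GG φ k) x v) = fun _ => 0 := by
    funext k; exact setIntegral_GG hφ hcφ hsφ k v
  rw [h0] at hlim
  have h1 := tendsto_nhds_unique hlim tendsto_const_nhds
  rw [integral_add i2 i1] at h1
  rw [eq_neg_iff_add_eq_zero, add_comm]
  exact h1

end Pool.Agent.Helper13.FD
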